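import Pool.Agent.T2H13.A7.Inv

set_option autoImplicit false
set_option maxRecDepth 100000
set_option maxHeartbeats 4000000

namespace Pool.Agent.T2H13.A7

def i512 : chkR 512 16 = true := by decide +kernel
def i528 : chkR 528 16 = true := by decide +kernel
def i544 : chkR 544 16 = true := by decide +kernel
def i560 : chkR 560 16 = true := by decide +kernel
def i576 : chkR 576 16 = true := by decide +kernel
def i592 : chkR 592 16 = true := by decide +kernel
def i608 : chkR 608 16 = true := by decide +kernel
def i624 : chkR 624 16 = true := by decide +kernel
def i640 : chkR 640 16 = true := by decide +kernel
def i656 : chkR 656 16 = true := by decide +kernel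
def i672 : chkR 672 16 = true := by decide +kernel
def i688 : chkR 688 16 = true := by decide +kernel
def i704 : chkR 704 16 = true := by decide +kernel
def i720 : chkR 720 16 = true := by decide +kernel
def i736 : chkR 736 16 = true := by decide +kernel
def i752 : chkR 752 16 = true := by decide +kernel

end Pool.Agent.T2H13.A7
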