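import Pool.Agent.T2H13.A7.Inv

set_option autoImplicit false
set_option maxRecDepth 100000
set_option maxHeartbeats 4000000

namespace Pool.Agent.T2H13.A7

def i768 : chkR 768 16 = true := by decide +kernel
def i784 : chkR 784 16 = true := by decide +kernel
def i800 : chkR 800 16 = true := by decide +kernel
def i816 : chkR 816 16 = true := by decide +kernel
def i832 : chkR 832 16 = true := by decide +kernel
def i848 : chkR 848 16 = true := by decide +kernel
def i864 : chkR 864 16 = true := by decide +kernel
def i880 : chkR 880 16 = true := by decide +kernel
def i896 : chkR 896 16 = true := by decide +kernel
def i912 : chkR 912 16 = true := by decide +kernel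
def i928 : chkR 928 16 = true := by decide +kernel
def i944 : chkR 944 16 = true := by decide +kernel
def i960 : chkR 960 16 = true := by decide +kernel
def i976 : chkR 976 16 = true := by decide +kernel
def i992 : chkR 992 16 = true := by decide +kernel
def i1008 : chkR 1008 16 = true := by decide +kernel

end Pool.Agent.T2H13.A7
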