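import Pool.Agent.T2H13.A7.Msk

set_option autoImplicit false
set_option maxRecDepth 100000
set_option maxHeartbeats 4000000

namespace Pool.Agent.T2H13.A7

def k21_273 : chB 21 rq21 273 240 = true := by decide +kernel
def k21_513 : chB 21 rq21 513 4 = true := by decide +kernel
def k21_517 : chB 21 rq21 517 12 = true := by decide +kernel
def k21_529 : chB 21 rq21 529 144 = true := by decide +kernel
def k21_673 : chB 21 rq21 673 351 = true := by decide +kernel
def k23_0 : chB 23 rq23 0 1 = true := by decide +kernel
def k23_1 : chB 23 rq23 1 1 = true := by decide +kernel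
def k23_2 : chB 23 rq23 2 1 = true := by decide +kernel
def k23_3 : chB 23 rq23 3 2 = true := by decide +kernel
def k23_5 : chB 23 rq23 5 28 = true := by decide +kernel
def k23_33 : chB 23 rq23 33 32 = true := by decide +kernel
def k23_65 : chB 23 rq23 65 1 = true := by decide +kernel
def k23_66 : chB 23 rq23 66 1 = true := by decide +kernel
def k23_67 : chB 23 rq23 67 2 = true := by decide +kernel
def k23_69 : chB 23 rq23 69 28 = true := by decide +kernel
def k23_97 : chB 23 rq23 97 32 = true := by decide +kernel

end Pool.Agent.T2H13.A7
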