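import Pool.Agent.T2H13.A7.Msk

set_option autoImplicit false
set_option maxRecDepth 100000
set_option maxHeartbeats 4000000

namespace Pool.Agent.T2H13.A7

def k29_513 : chB 29 rq29 513 1 = true := by decide +kernel
def k29_514 : chB 29 rq29 514 63 = true := by decide +kernel
def k29_577 : chB 29 rq29 577 16 = true := by decide +kernel
def k29_593 : chB 29 rq29 593 176 = true := by decide +kernel
def k29_769 : chB 29 rq29 769 1 = true := by decide +kernel
def k29_770 : chB 29 rq29 770 63 = true := by decide +kernel
def k29_833 : chB 29 rq29 833 191 = true := by decide +kernel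
def k54_0 : chB 54 rq54 0 1 = true := by decide +kernel
def k54_1 : chB 54 rq54 1 1 = true := by decide +kernel
def k54_2 : chB 54 rq54 2 2 = true := by decide +kernel
def k54_4 : chB 54 rq54 4 1 = true := by decide +kernel
def k54_5 : chB 54 rq54 5 1 = true := by decide +kernel
def k54_6 : chB 54 rq54 6 7 = true := by decide +kernel
def k54_13 : chB 54 rq54 13 4 = true := by decide +kernel
def k54_17 : chB 54 rq54 17 2 = true := by decide +kernel
def k54_19 : chB 54 rq54 19 2 = true := by decide +kernel

end Pool.Agent.T2H13.A7
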