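import Pool.Agent.T2H13.A7.Msk

set_option autoImplicit false
set_option maxRecDepth 100000
set_option maxHeartbeats 4000000

namespace Pool.Agent.T2H13.A7

def k59_17 : chB 59 rq59 17 2 = true := by decide +kernel
def k59_19 : chB 59 rq59 19 6 = true := by decide +kernel
def k59_25 : chB 59 rq59 25 8 = true := by decide +kernel
def k59_33 : chB 59 rq59 33 1 = true := by decide +kernel
def k59_34 : chB 59 rq59 34 1 = true := by decide +kernel
def k59_35 : chB 59 rq59 35 6 = true := by decide +kernel
def k59_41 : chB 59 rq59 41 8 = true := by decide +kernel
def k59_49 : chB 59 rq59 49 24 = true := by decide +kernel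
def k59_73 : chB 59 rq59 73 4 = true := by decide +kernel
def k59_77 : chB 59 rq59 77 4 = true := by decide +kernel
def k59_81 : chB 59 rq59 81 8 = true := by decide +kernel
def k59_89 : chB 59 rq59 89 8 = true := by decide +kernel
def k59_97 : chB 59 rq59 97 4 = true := by decide +kernel
def k59_101 : chB 59 rq59 101 4 = true := by decide +kernel
def k59_105 : chB 59 rq59 105 8 = true := by decide +kernel
def k59_113 : chB 59 rq59 113 24 = true := by decide +kernel

end Pool.Agent.T2H13.A7
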