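import Pool.Agent.T2H13.A7.Msk

set_option autoImplicit false
set_option maxRecDepth 100000
set_option maxHeartbeats 4000000

namespace Pool.Agent.T2H13.A7

def k62_205 : chB 62 rq62 205 4 = true := by decide +kernel
def k62_209 : chB 62 rq62 209 16 = true := by decide +kernel
def k62_225 : chB 62 rq62 225 160 = true := by decide +kernel
def k62_385 : chB 62 rq62 385 1 = true := by decide +kernel
def k62_386 : chB 62 rq62 386 3 = true := by decide +kernel
def k62_389 : chB 62 rq62 389 4 = true := by decide +kernel
def k62_393 : chB 62 rq62 393 4 = true := by decide +kernel
def k62_397 : chB 62 rq62 397 4 = true := by decide +kernel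
def k62_401 : chB 62 rq62 401 2 = true := by decide +kernel
def k62_403 : chB 62 rq62 403 94 = true := by decide +kernel
def k62_497 : chB 62 rq62 497 16 = true := by decide +kernel
def k62_513 : chB 62 rq62 513 1 = true := by decide +kernel
def k62_514 : chB 62 rq62 514 2 = true := by decide +kernel
def k62_516 : chB 62 rq62 516 1 = true := by decide +kernel
def k62_517 : chB 62 rq62 517 1 = true := by decide +kernel
def k62_518 : chB 62 rq62 518 3 = true := by decide +kernel

end Pool.Agent.T2H13.A7
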