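import Pool.Agent.T2H13.A7.Msk

set_option autoImplicit false
set_option maxRecDepth 100000
set_option maxHeartbeats 4000000

namespace Pool.Agent.T2H13.A7

def k126_520 : chB 126 rq126 520 1 = true := by decide +kernel
def k126_521 : chB 126 rq126 521 1 = true := by decide +kernel
def k126_522 : chB 126 rq126 522 2 = true := by decide +kernel
def k126_524 : chB 126 rq126 524 1 = true := by decide +kernel
def k126_525 : chB 126 rq126 525 1 = true := by decide +kernel
def k126_526 : chB 126 rq126 526 11 = true := by decide +kernel
def k126_537 : chB 126 rq126 537 2 = true := by decide +kernel
def k126_539 : chB 126 rq126 539 30 = true := by decide +kernel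
def k126_569 : chB 126 rq126 569 16 = true := by decide +kernel
def k126_585 : chB 126 rq126 585 1 = true := by decide +kernel
def k126_586 : chB 126 rq126 586 2 = true := by decide +kernel
def k126_588 : chB 126 rq126 588 1 = true := by decide +kernel
def k126_589 : chB 126 rq126 589 1 = true := by decide +kernel
def k126_590 : chB 126 rq126 590 3 = true := by decide +kernel
def k126_593 : chB 126 rq126 593 1 = true := by decide +kernel
def k126_594 : chB 126 rq126 594 1 = true := by decide +kernel

end Pool.Agent.T2H13.A7
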