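import Pool.Agent.T2H13.A7.Msk

set_option autoImplicit false
set_option maxRecDepth 100000
set_option maxHeartbeats 4000000

namespace Pool.Agent.T2H13.A7

def k126_595 : chB 126 rq126 595 1 = true := by decide +kernel
def k126_596 : chB 126 rq126 596 3 = true := by decide +kernel
def k126_599 : chB 126 rq126 599 2 = true := by decide +kernel
def k126_601 : chB 126 rq126 601 2 = true := by decide +kernel
def k126_603 : chB 126 rq126 603 2 = true := by decide +kernel
def k126_605 : chB 126 rq126 605 20 = true := by decide +kernel
def k126_625 : chB 126 rq126 625 1 = true := by decide +kernel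
def k126_626 : chB 126 rq126 626 7 = true := by decide +kernel
def k126_633 : chB 126 rq126 633 112 = true := by decide +kernel
def k126_745 : chB 126 rq126 745 279 = true := by decide +kernel
def k183_0 : chB 183 rq183 0 1 = true := by decide +kernel
def k183_1 : chB 183 rq183 1 1 = true := by decide +kernel
def k183_2 : chB 183 rq183 2 2 = true := by decide +kernel
def k183_4 : chB 183 rq183 4 1 = true := by decide +kernel
def k183_5 : chB 183 rq183 5 1 = true := by decide +kernel
def k183_6 : chB 183 rq183 6 6 = true := by decide +kernel

end Pool.Agent.T2H13.A7
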