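import Pool.Agent.T2H13.A7.Msk

set_option autoImplicit false
set_option maxRecDepth 100000
set_option maxHeartbeats 4000000

namespace Pool.Agent.T2H13.A7

def k183_12 : chB 183 rq183 12 1 = true := by decide +kernel
def k183_13 : chB 183 rq183 13 1 = true := by decide +kernel
def k183_14 : chB 183 rq183 14 7 = true := by decide +kernel
def k183_21 : chB 183 rq183 21 1 = true := by decide +kernel
def k183_22 : chB 183 rq183 22 1 = true := by decide +kernel
def k183_23 : chB 183 rq183 23 53 = true := by decide +kernel
def k183_76 : chB 183 rq183 76 1 = true := by decide +kernel
def k183_77 : chB 183 rq183 77 1 = true := by decide +kernel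
def k183_78 : chB 183 rq183 78 7 = true := by decide +kernel
def k183_85 : chB 183 rq183 85 1 = true := by decide +kernel
def k183_86 : chB 183 rq183 86 1 = true := by decide +kernel
def k183_87 : chB 183 rq183 87 62 = true := by decide +kernel
def k183_149 : chB 183 rq183 149 1 = true := by decide +kernel
def k183_150 : chB 183 rq183 150 1 = true := by decide +kernel
def k183_151 : chB 183 rq183 151 10 = true := by decide +kernel
def k183_161 : chB 183 rq183 161 1 = true := by decide +kernel

end Pool.Agent.T2H13.A7
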