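import Pool.Agent.T2H13.A7.Msk

set_option autoImplicit false
set_option maxRecDepth 100000
set_option maxHeartbeats 4000000

namespace Pool.Agent.T2H13.A7

def k187_133 : chB 187 rq187 133 2 = true := by decide +kernel
def k187_135 : chB 187 rq187 135 4 = true := by decide +kernel
def k187_139 : chB 187 rq187 139 1 = true := by decide +kernel
def k187_140 : chB 187 rq187 140 1 = true := by decide +kernel
def k187_141 : chB 187 rq187 141 1 = true := by decide +kernel
def k187_142 : chB 187 rq187 142 1 = true := by decide +kernel
def k187_143 : chB 187 rq187 143 6 = true := by decide +kernel
def k187_149 : chB 187 rq187 149 2 = true := by decide +kernel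
def k187_151 : chB 187 rq187 151 10 = true := by decide +kernel
def k187_161 : chB 187 rq187 161 1 = true := by decide +kernel
def k187_162 : chB 187 rq187 162 1 = true := by decide +kernel
def k187_163 : chB 187 rq187 163 1 = true := by decide +kernel
def k187_164 : chB 187 rq187 164 1 = true := by decide +kernel
def k187_165 : chB 187 rq187 165 1 = true := by decide +kernel
def k187_166 : chB 187 rq187 166 1 = true := by decide +kernel
def k187_167 : chB 187 rq187 167 6 = true := by decide +kernel

end Pool.Agent.T2H13.A7
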