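import Pool.Agent.T2H13.A7.Msk

set_option autoImplicit false
set_option maxRecDepth 100000
set_option maxHeartbeats 4000000

namespace Pool.Agent.T2H13.A7

def k187_833 : chB 187 rq187 833 4 = true := by decide +kernel
def k187_837 : chB 187 rq187 837 28 = true := by decide +kernel
def k187_865 : chB 187 rq187 865 32 = true := by decide +kernel
def k187_897 : chB 187 rq187 897 1 = true := by decide +kernel
def k187_898 : chB 187 rq187 898 1 = true := by decide +kernel
def k187_899 : chB 187 rq187 899 125 = true := by decide +kernel
def k220_0 : chB 220 rq220 0 1 = true := by decide +kernel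
def k220_1 : chB 220 rq220 1 1 = true := by decide +kernel
def k220_2 : chB 220 rq220 2 2 = true := by decide +kernel
def k220_4 : chB 220 rq220 4 1 = true := by decide +kernel
def k220_5 : chB 220 rq220 5 1 = true := by decide +kernel
def k220_6 : chB 220 rq220 6 5 = true := by decide +kernel
def k220_11 : chB 220 rq220 11 2 = true := by decide +kernel
def k220_13 : chB 220 rq220 13 1 = true := by decide +kernel
def k220_14 : chB 220 rq220 14 5 = true := by decide +kernel
def k220_19 : chB 220 rq220 19 1 = true := by decide +kernel

end Pool.Agent.T2H13.A7
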