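import Pool.Agent.T2H13.A7.Msk

set_option autoImplicit false
set_option maxRecDepth 100000
set_option maxHeartbeats 4000000

namespace Pool.Agent.T2H13.A7

def k221_6 : chB 221 rq221 6 3 = true := by decide +kernel
def k221_9 : chB 221 rq221 9 1 = true := by decide +kernel
def k221_10 : chB 221 rq221 10 1 = true := by decide +kernel
def k221_11 : chB 221 rq221 11 2 = true := by decide +kernel
def k221_13 : chB 221 rq221 13 1 = true := by decide +kernel
def k221_14 : chB 221 rq221 14 3 = true := by decide +kernel
def k221_17 : chB 221 rq221 17 1 = true := by decide +kernel
def k221_18 : chB 221 rq221 18 1 = true := by decide +kernel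
def k221_19 : chB 221 rq221 19 1 = true := by decide +kernel
def k221_20 : chB 221 rq221 20 1 = true := by decide +kernel
def k221_21 : chB 221 rq221 21 4 = true := by decide +kernel
def k221_25 : chB 221 rq221 25 2 = true := by decide +kernel
def k221_27 : chB 221 rq221 27 2 = true := by decide +kernel
def k221_29 : chB 221 rq221 29 4 = true := by decide +kernel
def k221_33 : chB 221 rq221 33 1 = true := by decide +kernel
def k221_34 : chB 221 rq221 34 1 = true := by decide +kernel

end Pool.Agent.T2H13.A7
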