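import Pool.Agent.T2H13.A7.Msk

set_option autoImplicit false
set_option maxRecDepth 100000
set_option maxHeartbeats 4000000

namespace Pool.Agent.T2H13.A7

def k221_165 : chB 221 rq221 165 4 = true := by decide +kernel
def k221_169 : chB 221 rq221 169 1 = true := by decide +kernel
def k221_170 : chB 221 rq221 170 7 = true := by decide +kernel
def k221_177 : chB 221 rq221 177 32 = true := by decide +kernel
def k221_209 : chB 221 rq221 209 2 = true := by decide +kernel
def k221_211 : chB 221 rq221 211 6 = true := by decide +kernel
def k221_217 : chB 221 rq221 217 2 = true := by decide +kernel
def k221_219 : chB 221 rq221 219 2 = true := by decide +kernel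
def k221_221 : chB 221 rq221 221 12 = true := by decide +kernel
def k221_233 : chB 221 rq221 233 4 = true := by decide +kernel
def k221_237 : chB 221 rq221 237 4 = true := by decide +kernel
def k221_241 : chB 221 rq221 241 2 = true := by decide +kernel
def k221_243 : chB 221 rq221 243 6 = true := by decide +kernel
def k221_249 : chB 221 rq221 249 24 = true := by decide +kernel
def k221_273 : chB 221 rq221 273 1 = true := by decide +kernel
def k221_274 : chB 221 rq221 274 2 = true := by decide +kernel

end Pool.Agent.T2H13.A7
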