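import Pool.Agent.T2H13.A7.Msk

set_option autoImplicit false
set_option maxRecDepth 100000
set_option maxHeartbeats 4000000

namespace Pool.Agent.T2H13.A7

def k254_517 : chB 254 rq254 517 1 = true := by decide +kernel
def k254_518 : chB 254 rq254 518 2 = true := by decide +kernel
def k254_520 : chB 254 rq254 520 1 = true := by decide +kernel
def k254_521 : chB 254 rq254 521 1 = true := by decide +kernel
def k254_522 : chB 254 rq254 522 2 = true := by decide +kernel
def k254_524 : chB 254 rq254 524 1 = true := by decide +kernel
def k254_525 : chB 254 rq254 525 1 = true := by decide +kernel
def k254_526 : chB 254 rq254 526 2 = true := by decide +kernel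
def k254_528 : chB 254 rq254 528 1 = true := by decide +kernel
def k254_529 : chB 254 rq254 529 1 = true := by decide +kernel
def k254_530 : chB 254 rq254 530 1 = true := by decide +kernel
def k254_531 : chB 254 rq254 531 1 = true := by decide +kernel
def k254_532 : chB 254 rq254 532 1 = true := by decide +kernel
def k254_533 : chB 254 rq254 533 1 = true := by decide +kernel
def k254_534 : chB 254 rq254 534 1 = true := by decide +kernel
def k254_535 : chB 254 rq254 535 1 = true := by decide +kernel

end Pool.Agent.T2H13.A7
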