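import Pool.Agent.T2H13.A7.Msk

set_option autoImplicit false
set_option maxRecDepth 100000
set_option maxHeartbeats 4000000

namespace Pool.Agent.T2H13.A7

def k254_536 : chB 254 rq254 536 1 = true := by decide +kernel
def k254_537 : chB 254 rq254 537 2 = true := by decide +kernel
def k254_539 : chB 254 rq254 539 2 = true := by decide +kernel
def k254_541 : chB 254 rq254 541 2 = true := by decide +kernel
def k254_543 : chB 254 rq254 543 18 = true := by decide +kernel
def k254_561 : chB 254 rq254 561 1 = true := by decide +kernel
def k254_562 : chB 254 rq254 562 2 = true := by decide +kernel
def k254_564 : chB 254 rq254 564 5 = true := by decide +kernel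
def k254_569 : chB 254 rq254 569 24 = true := by decide +kernel
def k254_593 : chB 254 rq254 593 1 = true := by decide +kernel
def k254_594 : chB 254 rq254 594 1 = true := by decide +kernel
def k254_595 : chB 254 rq254 595 1 = true := by decide +kernel
def k254_596 : chB 254 rq254 596 1 = true := by decide +kernel
def k254_597 : chB 254 rq254 597 1 = true := by decide +kernel
def k254_598 : chB 254 rq254 598 1 = true := by decide +kernel
def k254_599 : chB 254 rq254 599 1 = true := by decide +kernel

end Pool.Agent.T2H13.A7
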