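import Pool.Agent.T2H13.A7.K00
import Pool.Agent.T2H13.A7.K01
import Pool.Agent.T2H13.A7.K02
import Pool.Agent.T2H13.A7.K03
import Pool.Agent.T2H13.A7.K04
import Pool.Agent.T2H13.A7.K05
import Pool.Agent.T2H13.A7.K06
import Pool.Agent.T2H13.A7.K07
import Pool.Agent.T2H13.A7.K08
import Pool.Agent.T2H13.A7.K09
import Pool.Agent.T2H13.A7.K10
import Pool.Agent.T2H13.A7.K11
import Pool.Agent.T2H13.A7.K12
import Pool.Agent.T2H13.A7.K13
import Pool.Agent.T2H13.A7.K14
import Pool.Agent.T2H13.A7.K15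
import Pool.Agent.T2H13.A7.K16
import Pool.Agent.T2H13.A7.K17
import Pool.Agent.T2H13.A7.K18
import Pool.Agent.T2H13.A7.K19
import Pool.Agent.T2H13.A7.K20
import Pool.Agent.T2H13.A7.K21
import Pool.Agent.T2H13.A7.K22
import Pool.Agent.T2H13.A7.K23
import Pool.Agent.T2H13.A7.K24
import Pool.Agent.T2H13.A7.K25
import Pool.Agent.T2H13.A7.K26
import Pool.Agent.T2H13.A7.K27
import Pool.Agent.T2H13.A7.K28
import Pool.Agent.T2H13.A7.K29
import Pool.Agent.T2H13.A7.K30
import Pool.Agent.T2H13.A7.K31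
import Pool.Agent.T2H13.A7.K32
import Pool.Agent.T2H13.A7.K33
import Pool.Agent.T2H13.A7.K34
import Pool.Agent.T2H13.A7.K35
import Pool.Agent.T2H13.A7.K36
import Pool.Agent.T2H13.A7.K37
import Pool.Agent.T2H13.A7.K38
import Pool.Agent.T2H13.A7.K39
import Pool.Agent.T2H13.A7.K40
import Pool.Agent.T2H13.A7.K41
import Pool.Agent.T2H13.A7.K42
import Pool.Agent.T2H13.A7.K43
import Pool.Agent.T2H13.A7.K44
import Pool.Agent.T2H13.A7.K45
import Pool.Agent.T2H13.A7.K46
import Pool.Agent.T2H13.A7.K47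
import Pool.Agent.T2H13.A7.K48
import Pool.Agent.T2H13.A7.K49
import Pool.Agent.T2H13.A7.K50
import Pool.Agent.T2H13.A7.K51
import Pool.Agent.T2H13.A7.K52
import Pool.Agent.T2H13.A7.K53
import Pool.Agent.T2H13.A7.K54
import Pool.Agent.T2H13.A7.K55
import Pool.Agent.T2H13.A7.K56
import Pool.Agent.T2H13.A7.K57
import Pool.Agent.T2H13.A7.K58
import Pool.Agent.T2H13.A7.K59
import Pool.Agent.T2H13.A7.K60
import Pool.Agent.T2H13.A7.Chain

/-! The checks at all structures of the list. -/

set_option autoImplicit false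
set_option maxRecDepth 100000
set_option maxHeartbeats 4000000

namespace Pool.Agent.T2H13.A7

theorem cnd_true' {c x : Bool} (h : cnd c x true = true) (hc : c = true) : x = true := by
  rw [hc] at h; exact h

theorem chB_true {m r a n : ℕ} (h : chB m r a n = true) {f : ℕ} (h1 : a ≤ f) (h2 : f < a + n)
    (hb : Nat.beq (Nat.mod (Nat.shiftRight r f) 2) 1 = true) : chm m f = true := by
  have h3 := al_true h (show f - a < n by omega)
  rw [st_eq] at h3
  have e : Nat.add a (f - a) = f := by show a + (f - a) = f; omega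
  rw [e] at h3
  exact cnd_true' h3 hb

theorem ka0 {f : ℕ} (hf : f < 1024) (hb : Nat.beq (Nat.mod (Nat.shiftRight rq0 f) 2) 1 = true) : chm 0 f = true := by
  rcases Nat.lt_or_ge f 1 with g0 | g0
  · exact chB_true k0_0 (Nat.zero_le _) g0 hb
  exact chB_true k0_1 g0 hf hb

theorem ka1 {f : ℕ} (hf : f < 1024) (hb : Nat.beq (Nat.mod (Nat.shiftRight rq1 f) 2) 1 = true) : chm 1 f = true := by
  exact chB_true k1_0 (Nat.zero_le _) hf hb

theorem ka3 {f : ℕ} (hf : f < 1024) (hb : Nat.beq (Nat.mod (Nat.shiftRight rq3 f) 2) 1 = true) : chm 3 f = true := by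
  rcases Nat.lt_or_ge f 1 with g0 | g0
  · exact chB_true k3_0 (Nat.zero_le _) g0 hb
  rcases Nat.lt_or_ge f 65 with g1 | g1
  · exact chB_true k3_1 g0 g1 hb
  rcases Nat.lt_or_ge f 257 with g2 | g2
  · exact chB_true k3_65 g1 g2 hb
  exact chB_true k3_257 g2 hf hb

theorem ka7 {f : ℕ} (hf : f < 1024) (hb : Nat.beq (Nat.mod (Nat.shiftRight rq7 f) 2) 1 = true) : chm 7 f = true := by
  rcases Nat.lt_or_ge f 1 with g0 | g0
  · exact chB_true k7_0 (Nat.zero_le _) g0 hb
  rcases Nat.lt_or_ge f 65 with g1 | g1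
  · exact chB_true k7_1 g0 g1 hb
  rcases Nat.lt_or_ge f 129 with g2 | g2
  · exact chB_true k7_65 g1 g2 hb
  rcases Nat.lt_or_ge f 193 with g3 | g3
  · exact chB_true k7_129 g2 g3 hb
  rcases Nat.lt_or_ge f 385 with g4 | g4
  · exact chB_true k7_193 g3 g4 hb
  exact chB_true k7_385 g4 hf hb

theorem ka19 {f : ℕ} (hf : f < 1024) (hb : Nat.beq (Nat.mod (Nat.shiftRight rq19 f) 2) 1 = true) : chm 19 f = true := by
  rcases Nat.lt_or_ge f 1 with g0 | g0
  · exact chB_true k19_0 (Nat.zero_le _) g0 hb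
  rcases Nat.lt_or_ge f 2 with g1 | g1
  · exact chB_true k19_1 g0 g1 hb
  rcases Nat.lt_or_ge f 3 with g2 | g2
  · exact chB_true k19_2 g1 g2 hb
  rcases Nat.lt_or_ge f 33 with g3 | g3
  · exact chB_true k19_3 g2 g3 hb
  rcases Nat.lt_or_ge f 97 with g4 | g4
  · exact chB_true k19_33 g3 g4 hb
  exact chB_true k19_97 g4 hf hb

theorem ka20 {f : ℕ} (hf : f < 1024) (hb : Nat.beq (Nat.mod (Nat.shiftRight rq20 f) 2) 1 = true) : chm 20 f = true := by
  rcases Nat.lt_or_ge f 1 with g0 | g0
  · exact chB_true k20_0 (Nat.zero_le _) g0 hb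
  rcases Nat.lt_or_ge f 5 with g1 | g1
  · exact chB_true k20_1 g0 g1 hb
  exact chB_true k20_5 g1 hf hb

theorem ka21 {f : ℕ} (hf : f < 1024) (hb : Nat.beq (Nat.mod (Nat.shiftRight rq21 f) 2) 1 = true) : chm 21 f = true := by
  rcases Nat.lt_or_ge f 1 with g0 | g0
  · exact chB_true k21_0 (Nat.zero_le _) g0 hb
  rcases Nat.lt_or_ge f 5 with g1 | g1
  · exact chB_true k21_1 g0 g1 hb
  rcases Nat.lt_or_ge f 9 with g2 | g2
  · exact chB_true k21_5 g1 g2 hb
  rcases Nat.lt_or_ge f 17 with g3 | g3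
  · exact chB_true k21_9 g2 g3 hb
  rcases Nat.lt_or_ge f 33 with g4 | g4
  · exact chB_true k21_17 g3 g4 hb
  rcases Nat.lt_or_ge f 73 with g5 | g5
  · exact chB_true k21_33 g4 g5 hb
  rcases Nat.lt_or_ge f 81 with g6 | g6
  · exact chB_true k21_73 g5 g6 hb
  rcases Nat.lt_or_ge f 97 with g7 | g7
  · exact chB_true k21_81 g6 g7 hb
  rcases Nat.lt_or_ge f 161 with g8 | g8
  · exact chB_true k21_97 g7 g8 hb
  rcases Nat.lt_or_ge f 273 with g9 | g9
  · exact chB_true k21_161 g8 g9 hb
  rcases Nat.lt_or_ge f 513 with g10 | g10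
  · exact chB_true k21_273 g9 g10 hb
  rcases Nat.lt_or_ge f 517 with g11 | g11
  · exact chB_true k21_513 g10 g11 hb
  rcases Nat.lt_or_ge f 529 with g12 | g12
  · exact chB_true k21_517 g11 g12 hb
  rcases Nat.lt_or_ge f 673 with g13 | g13
  · exact chB_true k21_529 g12 g13 hb
  exact chB_true k21_673 g13 hf hb

theorem ka23 {f : ℕ} (hf : f < 1024) (hb : Nat.beq (Nat.mod (Nat.shiftRight rq23 f) 2) 1 = true) : chm 23 f = true := by
  rcases Nat.lt_or_ge f 1 with g0 | g0
  · exact chB_true k23_0 (Nat.zero_le _) g0 hb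
  rcases Nat.lt_or_ge f 2 with g1 | g1
  · exact chB_true k23_1 g0 g1 hb
  rcases Nat.lt_or_ge f 3 with g2 | g2
  · exact chB_true k23_2 g1 g2 hb
  rcases Nat.lt_or_ge f 5 with g3 | g3
  · exact chB_true k23_3 g2 g3 hb
  rcases Nat.lt_or_ge f 33 with g4 | g4
  · exact chB_true k23_5 g3 g4 hb
  rcases Nat.lt_or_ge f 65 with g5 | g5
  · exact chB_true k23_33 g4 g5 hb
  rcases Nat.lt_or_ge f 66 with g6 | g6
  · exact chB_true k23_65 g5 g6 hb
  rcases Nat.lt_or_ge f 67 with g7 | g7
  · exact chB_true k23_66 g6 g7 hb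
  rcases Nat.lt_or_ge f 69 with g8 | g8
  · exact chB_true k23_67 g7 g8 hb
  rcases Nat.lt_or_ge f 97 with g9 | g9
  · exact chB_true k23_69 g8 g9 hb
  rcases Nat.lt_or_ge f 129 with g10 | g10
  · exact chB_true k23_97 g9 g10 hb
  rcases Nat.lt_or_ge f 130 with g11 | g11
  · exact chB_true k23_129 g10 g11 hb
  rcases Nat.lt_or_ge f 131 with g12 | g12
  · exact chB_true k23_130 g11 g12 hb
  rcases Nat.lt_or_ge f 133 with g13 | g13
  · exact chB_true k23_131 g12 g13 hb
  rcases Nat.lt_or_ge f 161 with g14 | g14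
  · exact chB_true k23_133 g13 g14 hb
  rcases Nat.lt_or_ge f 193 with g15 | g15
  · exact chB_true k23_161 g14 g15 hb
  rcases Nat.lt_or_ge f 225 with g16 | g16
  · exact chB_true k23_193 g15 g16 hb
  rcases Nat.lt_or_ge f 257 with g17 | g17
  · exact chB_true k23_225 g16 g17 hb
  rcases Nat.lt_or_ge f 258 with g18 | g18
  · exact chB_true k23_257 g17 g18 hb
  rcases Nat.lt_or_ge f 261 with g19 | g19
  · exact chB_true k23_258 g18 g19 hb
  rcases Nat.lt_or_ge f 265 with g20 | g20
  · exact chB_true k23_261 g19 g20 hb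
  rcases Nat.lt_or_ge f 273 with g21 | g21
  · exact chB_true k23_265 g20 g21 hb
  rcases Nat.lt_or_ge f 289 with g22 | g22
  · exact chB_true k23_273 g21 g22 hb
  rcases Nat.lt_or_ge f 321 with g23 | g23
  · exact chB_true k23_289 g22 g23 hb
  rcases Nat.lt_or_ge f 329 with g24 | g24
  · exact chB_true k23_321 g23 g24 hb
  rcases Nat.lt_or_ge f 337 with g25 | g25
  · exact chB_true k23_329 g24 g25 hb
  rcases Nat.lt_or_ge f 353 with g26 | g26
  · exact chB_true k23_337 g25 g26 hb
  rcases Nat.lt_or_ge f 385 with g27 | g27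
  · exact chB_true k23_353 g26 g27 hb
  rcases Nat.lt_or_ge f 393 with g28 | g28
  · exact chB_true k23_385 g27 g28 hb
  rcases Nat.lt_or_ge f 401 with g29 | g29
  · exact chB_true k23_393 g28 g29 hb
  rcases Nat.lt_or_ge f 417 with g30 | g30
  · exact chB_true k23_401 g29 g30 hb
  rcases Nat.lt_or_ge f 769 with g31 | g31
  · exact chB_true k23_417 g30 g31 hb
  rcases Nat.lt_or_ge f 770 with g32 | g32
  · exact chB_true k23_769 g31 g32 hb
  rcases Nat.lt_or_ge f 773 with g33 | g33
  · exact chB_true k23_770 g32 g33 hb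
  rcases Nat.lt_or_ge f 801 with g34 | g34
  · exact chB_true k23_773 g33 g34 hb
  rcases Nat.lt_or_ge f 833 with g35 | g35
  · exact chB_true k23_801 g34 g35 hb
  rcases Nat.lt_or_ge f 897 with g36 | g36
  · exact chB_true k23_833 g35 g36 hb
  exact chB_true k23_897 g36 hf hb

theorem ka28 {f : ℕ} (hf : f < 1024) (hb : Nat.beq (Nat.mod (Nat.shiftRight rq28 f) 2) 1 = true) : chm 28 f = true := by
  rcases Nat.lt_or_ge f 1 with g0 | g0
  · exact chB_true k28_0 (Nat.zero_le _) g0 hb
  rcases Nat.lt_or_ge f 2 with g1 | g1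
  · exact chB_true k28_1 g0 g1 hb
  rcases Nat.lt_or_ge f 65 with g2 | g2
  · exact chB_true k28_2 g1 g2 hb
  rcases Nat.lt_or_ge f 257 with g3 | g3
  · exact chB_true k28_65 g2 g3 hb
  rcases Nat.lt_or_ge f 258 with g4 | g4
  · exact chB_true k28_257 g3 g4 hb
  exact chB_true k28_258 g4 hf hb

theorem ka29 {f : ℕ} (hf : f < 1024) (hb : Nat.beq (Nat.mod (Nat.shiftRight rq29 f) 2) 1 = true) : chm 29 f = true := by
  rcases Nat.lt_or_ge f 1 with g0 | g0
  · exact chB_true k29_0 (Nat.zero_le _) g0 hb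
  rcases Nat.lt_or_ge f 2 with g1 | g1
  · exact chB_true k29_1 g0 g1 hb
  rcases Nat.lt_or_ge f 9 with g2 | g2
  · exact chB_true k29_2 g1 g2 hb
  rcases Nat.lt_or_ge f 65 with g3 | g3
  · exact chB_true k29_9 g2 g3 hb
  rcases Nat.lt_or_ge f 73 with g4 | g4
  · exact chB_true k29_65 g3 g4 hb
  rcases Nat.lt_or_ge f 81 with g5 | g5
  · exact chB_true k29_73 g4 g5 hb
  rcases Nat.lt_or_ge f 193 with g6 | g6
  · exact chB_true k29_81 g5 g6 hb
  rcases Nat.lt_or_ge f 201 with g7 | g7
  · exact chB_true k29_193 g6 g7 hb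
  rcases Nat.lt_or_ge f 257 with g8 | g8
  · exact chB_true k29_201 g7 g8 hb
  rcases Nat.lt_or_ge f 258 with g9 | g9
  · exact chB_true k29_257 g8 g9 hb
  rcases Nat.lt_or_ge f 265 with g10 | g10
  · exact chB_true k29_258 g9 g10 hb
  rcases Nat.lt_or_ge f 321 with g11 | g11
  · exact chB_true k29_265 g10 g11 hb
  rcases Nat.lt_or_ge f 329 with g12 | g12
  · exact chB_true k29_321 g11 g12 hb
  rcases Nat.lt_or_ge f 337 with g13 | g13
  · exact chB_true k29_329 g12 g13 hb
  rcases Nat.lt_or_ge f 513 with g14 | g14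
  · exact chB_true k29_337 g13 g14 hb
  rcases Nat.lt_or_ge f 514 with g15 | g15
  · exact chB_true k29_513 g14 g15 hb
  rcases Nat.lt_or_ge f 577 with g16 | g16
  · exact chB_true k29_514 g15 g16 hb
  rcases Nat.lt_or_ge f 593 with g17 | g17
  · exact chB_true k29_577 g16 g17 hb
  rcases Nat.lt_or_ge f 769 with g18 | g18
  · exact chB_true k29_593 g17 g18 hb
  rcases Nat.lt_or_ge f 770 with g19 | g19
  · exact chB_true k29_769 g18 g19 hb
  rcases Nat.lt_or_ge f 833 with g20 | g20
  · exact chB_true k29_770 g19 g20 hb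
  exact chB_true k29_833 g20 hf hb

theorem ka54 {f : ℕ} (hf : f < 1024) (hb : Nat.beq (Nat.mod (Nat.shiftRight rq54 f) 2) 1 = true) : chm 54 f = true := by
  rcases Nat.lt_or_ge f 1 with g0 | g0
  · exact chB_true k54_0 (Nat.zero_le _) g0 hb
  rcases Nat.lt_or_ge f 2 with g1 | g1
  · exact chB_true k54_1 g0 g1 hb
  rcases Nat.lt_or_ge f 4 with g2 | g2
  · exact chB_true k54_2 g1 g2 hb
  rcases Nat.lt_or_ge f 5 with g3 | g3
  · exact chB_true k54_4 g2 g3 hb
  rcases Nat.lt_or_ge f 6 with g4 | g4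
  · exact chB_true k54_5 g3 g4 hb
  rcases Nat.lt_or_ge f 13 with g5 | g5
  · exact chB_true k54_6 g4 g5 hb
  rcases Nat.lt_or_ge f 17 with g6 | g6
  · exact chB_true k54_13 g5 g6 hb
  rcases Nat.lt_or_ge f 19 with g7 | g7
  · exact chB_true k54_17 g6 g7 hb
  rcases Nat.lt_or_ge f 21 with g8 | g8
  · exact chB_true k54_19 g7 g8 hb
  rcases Nat.lt_or_ge f 49 with g9 | g9
  · exact chB_true k54_21 g8 g9 hb
  rcases Nat.lt_or_ge f 77 with g10 | g10
  · exact chB_true k54_49 g9 g10 hb
  rcases Nat.lt_or_ge f 85 with g11 | g11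
  · exact chB_true k54_77 g10 g11 hb
  rcases Nat.lt_or_ge f 113 with g12 | g12
  · exact chB_true k54_85 g11 g12 hb
  rcases Nat.lt_or_ge f 161 with g13 | g13
  · exact chB_true k54_113 g12 g13 hb
  rcases Nat.lt_or_ge f 165 with g14 | g14
  · exact chB_true k54_161 g13 g14 hb
  rcases Nat.lt_or_ge f 177 with g15 | g15
  · exact chB_true k54_165 g14 g15 hb
  rcases Nat.lt_or_ge f 433 with g16 | g16
  · exact chB_true k54_177 g15 g16 hb
  rcases Nat.lt_or_ge f 517 with g17 | g17
  · exact chB_true k54_433 g16 g17 hb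
  rcases Nat.lt_or_ge f 518 with g18 | g18
  · exact chB_true k54_517 g17 g18 hb
  rcases Nat.lt_or_ge f 533 with g19 | g19
  · exact chB_true k54_518 g18 g19 hb
  exact chB_true k54_533 g19 hf hb

theorem ka55 {f : ℕ} (hf : f < 1024) (hb : Nat.beq (Nat.mod (Nat.shiftRight rq55 f) 2) 1 = true) : chm 55 f = true := by
  rcases Nat.lt_or_ge f 1 with g0 | g0
  · exact chB_true k55_0 (Nat.zero_le _) g0 hb
  rcases Nat.lt_or_ge f 2 with g1 | g1
  · exact chB_true k55_1 g0 g1 hb
  rcases Nat.lt_or_ge f 4 with g2 | g2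
  · exact chB_true k55_2 g1 g2 hb
  rcases Nat.lt_or_ge f 5 with g3 | g3
  · exact chB_true k55_4 g2 g3 hb
  rcases Nat.lt_or_ge f 6 with g4 | g4
  · exact chB_true k55_5 g3 g4 hb
  rcases Nat.lt_or_ge f 9 with g5 | g5
  · exact chB_true k55_6 g4 g5 hb
  rcases Nat.lt_or_ge f 10 with g6 | g6
  · exact chB_true k55_9 g5 g6 hb
  rcases Nat.lt_or_ge f 13 with g7 | g7
  · exact chB_true k55_10 g6 g7 hb
  rcases Nat.lt_or_ge f 17 with g8 | g8
  · exact chB_true k55_13 g7 g8 hb
  rcases Nat.lt_or_ge f 18 with g9 | g9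
  · exact chB_true k55_17 g8 g9 hb
  rcases Nat.lt_or_ge f 19 with g10 | g10
  · exact chB_true k55_18 g9 g10 hb
  rcases Nat.lt_or_ge f 21 with g11 | g11
  · exact chB_true k55_19 g10 g11 hb
  rcases Nat.lt_or_ge f 25 with g12 | g12
  · exact chB_true k55_21 g11 g12 hb
  rcases Nat.lt_or_ge f 49 with g13 | g13
  · exact chB_true k55_25 g12 g13 hb
  rcases Nat.lt_or_ge f 73 with g14 | g14
  · exact chB_true k55_49 g13 g14 hb
  rcases Nat.lt_or_ge f 74 with g15 | g15
  · exact chB_true k55_73 g14 g15 hb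
  rcases Nat.lt_or_ge f 77 with g16 | g16
  · exact chB_true k55_74 g15 g16 hb
  rcases Nat.lt_or_ge f 81 with g17 | g17
  · exact chB_true k55_77 g16 g17 hb
  rcases Nat.lt_or_ge f 82 with g18 | g18
  · exact chB_true k55_81 g17 g18 hb
  rcases Nat.lt_or_ge f 83 with g19 | g19
  · exact chB_true k55_82 g18 g19 hb
  rcases Nat.lt_or_ge f 85 with g20 | g20
  · exact chB_true k55_83 g19 g20 hb
  rcases Nat.lt_or_ge f 89 with g21 | g21
  · exact chB_true k55_85 g20 g21 hb
  rcases Nat.lt_or_ge f 113 with g22 | g22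
  · exact chB_true k55_89 g21 g22 hb
  rcases Nat.lt_or_ge f 145 with g23 | g23
  · exact chB_true k55_113 g22 g23 hb
  rcases Nat.lt_or_ge f 146 with g24 | g24
  · exact chB_true k55_145 g23 g24 hb
  rcases Nat.lt_or_ge f 147 with g25 | g25
  · exact chB_true k55_146 g24 g25 hb
  rcases Nat.lt_or_ge f 149 with g26 | g26
  · exact chB_true k55_147 g25 g26 hb
  rcases Nat.lt_or_ge f 153 with g27 | g27
  · exact chB_true k55_149 g26 g27 hb
  rcases Nat.lt_or_ge f 161 with g28 | g28
  · exact chB_true k55_153 g27 g28 hb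
  rcases Nat.lt_or_ge f 162 with g29 | g29
  · exact chB_true k55_161 g28 g29 hb
  rcases Nat.lt_or_ge f 165 with g30 | g30
  · exact chB_true k55_162 g29 g30 hb
  rcases Nat.lt_or_ge f 169 with g31 | g31
  · exact chB_true k55_165 g30 g31 hb
  rcases Nat.lt_or_ge f 177 with g32 | g32
  · exact chB_true k55_169 g31 g32 hb
  rcases Nat.lt_or_ge f 233 with g33 | g33
  · exact chB_true k55_177 g32 g33 hb
  rcases Nat.lt_or_ge f 241 with g34 | g34
  · exact chB_true k55_233 g33 g34 hb
  rcases Nat.lt_or_ge f 433 with g35 | g35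
  · exact chB_true k55_241 g34 g35 hb
  rcases Nat.lt_or_ge f 513 with g36 | g36
  · exact chB_true k55_433 g35 g36 hb
  rcases Nat.lt_or_ge f 514 with g37 | g37
  · exact chB_true k55_513 g36 g37 hb
  rcases Nat.lt_or_ge f 516 with g38 | g38
  · exact chB_true k55_514 g37 g38 hb
  rcases Nat.lt_or_ge f 517 with g39 | g39
  · exact chB_true k55_516 g38 g39 hb
  rcases Nat.lt_or_ge f 518 with g40 | g40
  · exact chB_true k55_517 g39 g40 hb
  rcases Nat.lt_or_ge f 521 with g41 | g41
  · exact chB_true k55_518 g40 g41 hb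
  rcases Nat.lt_or_ge f 525 with g42 | g42
  · exact chB_true k55_521 g41 g42 hb
  rcases Nat.lt_or_ge f 529 with g43 | g43
  · exact chB_true k55_525 g42 g43 hb
  rcases Nat.lt_or_ge f 530 with g44 | g44
  · exact chB_true k55_529 g43 g44 hb
  rcases Nat.lt_or_ge f 531 with g45 | g45
  · exact chB_true k55_530 g44 g45 hb
  rcases Nat.lt_or_ge f 533 with g46 | g46
  · exact chB_true k55_531 g45 g46 hb
  rcases Nat.lt_or_ge f 537 with g47 | g47
  · exact chB_true k55_533 g46 g47 hb
  rcases Nat.lt_or_ge f 561 with g48 | g48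
  · exact chB_true k55_537 g47 g48 hb
  rcases Nat.lt_or_ge f 585 with g49 | g49
  · exact chB_true k55_561 g48 g49 hb
  rcases Nat.lt_or_ge f 589 with g50 | g50
  · exact chB_true k55_585 g49 g50 hb
  rcases Nat.lt_or_ge f 593 with g51 | g51
  · exact chB_true k55_589 g50 g51 hb
  rcases Nat.lt_or_ge f 595 with g52 | g52
  · exact chB_true k55_593 g51 g52 hb
  rcases Nat.lt_or_ge f 597 with g53 | g53
  · exact chB_true k55_595 g52 g53 hb
  rcases Nat.lt_or_ge f 625 with g54 | g54
  · exact chB_true k55_597 g53 g54 hb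
  rcases Nat.lt_or_ge f 657 with g55 | g55
  · exact chB_true k55_625 g54 g55 hb
  rcases Nat.lt_or_ge f 659 with g56 | g56
  · exact chB_true k55_657 g55 g56 hb
  rcases Nat.lt_or_ge f 661 with g57 | g57
  · exact chB_true k55_659 g56 g57 hb
  rcases Nat.lt_or_ge f 673 with g58 | g58
  · exact chB_true k55_661 g57 g58 hb
  rcases Nat.lt_or_ge f 674 with g59 | g59
  · exact chB_true k55_673 g58 g59 hb
  rcases Nat.lt_or_ge f 677 with g60 | g60
  · exact chB_true k55_674 g59 g60 hb
  rcases Nat.lt_or_ge f 681 with g61 | g61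
  · exact chB_true k55_677 g60 g61 hb
  exact chB_true k55_681 g61 hf hb

theorem ka58 {f : ℕ} (hf : f < 1024) (hb : Nat.beq (Nat.mod (Nat.shiftRight rq58 f) 2) 1 = true) : chm 58 f = true := by
  rcases Nat.lt_or_ge f 1 with g0 | g0
  · exact chB_true k58_0 (Nat.zero_le _) g0 hb
  rcases Nat.lt_or_ge f 2 with g1 | g1
  · exact chB_true k58_1 g0 g1 hb
  rcases Nat.lt_or_ge f 3 with g2 | g2
  · exact chB_true k58_2 g1 g2 hb
  rcases Nat.lt_or_ge f 7 with g3 | g3
  · exact chB_true k58_3 g2 g3 hb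
  rcases Nat.lt_or_ge f 9 with g4 | g4
  · exact chB_true k58_7 g3 g4 hb
  rcases Nat.lt_or_ge f 11 with g5 | g5
  · exact chB_true k58_9 g4 g5 hb
  rcases Nat.lt_or_ge f 13 with g6 | g6
  · exact chB_true k58_11 g5 g6 hb
  rcases Nat.lt_or_ge f 17 with g7 | g7
  · exact chB_true k58_13 g6 g7 hb
  rcases Nat.lt_or_ge f 19 with g8 | g8
  · exact chB_true k58_17 g7 g8 hb
  rcases Nat.lt_or_ge f 33 with g9 | g9
  · exact chB_true k58_19 g8 g9 hb
  rcases Nat.lt_or_ge f 34 with g10 | g10
  · exact chB_true k58_33 g9 g10 hb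
  rcases Nat.lt_or_ge f 35 with g11 | g11
  · exact chB_true k58_34 g10 g11 hb
  rcases Nat.lt_or_ge f 81 with g12 | g12
  · exact chB_true k58_35 g11 g12 hb
  rcases Nat.lt_or_ge f 97 with g13 | g13
  · exact chB_true k58_81 g12 g13 hb
  rcases Nat.lt_or_ge f 137 with g14 | g14
  · exact chB_true k58_97 g13 g14 hb
  rcases Nat.lt_or_ge f 139 with g15 | g15
  · exact chB_true k58_137 g14 g15 hb
  rcases Nat.lt_or_ge f 161 with g16 | g16
  · exact chB_true k58_139 g15 g16 hb
  rcases Nat.lt_or_ge f 163 with g17 | g17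
  · exact chB_true k58_161 g16 g17 hb
  rcases Nat.lt_or_ge f 289 with g18 | g18
  · exact chB_true k58_163 g17 g18 hb
  rcases Nat.lt_or_ge f 290 with g19 | g19
  · exact chB_true k58_289 g18 g19 hb
  rcases Nat.lt_or_ge f 513 with g20 | g20
  · exact chB_true k58_290 g19 g20 hb
  rcases Nat.lt_or_ge f 514 with g21 | g21
  · exact chB_true k58_513 g20 g21 hb
  rcases Nat.lt_or_ge f 515 with g22 | g22
  · exact chB_true k58_514 g21 g22 hb
  rcases Nat.lt_or_ge f 519 with g23 | g23
  · exact chB_true k58_515 g22 g23 hb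
  rcases Nat.lt_or_ge f 525 with g24 | g24
  · exact chB_true k58_519 g23 g24 hb
  rcases Nat.lt_or_ge f 531 with g25 | g25
  · exact chB_true k58_525 g24 g25 hb
  rcases Nat.lt_or_ge f 545 with g26 | g26
  · exact chB_true k58_531 g25 g26 hb
  exact chB_true k58_545 g26 hf hb

theorem ka59 {f : ℕ} (hf : f < 1024) (hb : Nat.beq (Nat.mod (Nat.shiftRight rq59 f) 2) 1 = true) : chm 59 f = true := by
  rcases Nat.lt_or_ge f 1 with g0 | g0
  · exact chB_true k59_0 (Nat.zero_le _) g0 hb
  rcases Nat.lt_or_ge f 2 with g1 | g1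
  · exact chB_true k59_1 g0 g1 hb
  rcases Nat.lt_or_ge f 3 with g2 | g2
  · exact chB_true k59_2 g1 g2 hb
  rcases Nat.lt_or_ge f 7 with g3 | g3
  · exact chB_true k59_3 g2 g3 hb
  rcases Nat.lt_or_ge f 9 with g4 | g4
  · exact chB_true k59_7 g3 g4 hb
  rcases Nat.lt_or_ge f 10 with g5 | g5
  · exact chB_true k59_9 g4 g5 hb
  rcases Nat.lt_or_ge f 11 with g6 | g6
  · exact chB_true k59_10 g5 g6 hb
  rcases Nat.lt_or_ge f 13 with g7 | g7
  · exact chB_true k59_11 g6 g7 hb
  rcases Nat.lt_or_ge f 17 with g8 | g8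
  · exact chB_true k59_13 g7 g8 hb
  rcases Nat.lt_or_ge f 19 with g9 | g9
  · exact chB_true k59_17 g8 g9 hb
  rcases Nat.lt_or_ge f 25 with g10 | g10
  · exact chB_true k59_19 g9 g10 hb
  rcases Nat.lt_or_ge f 33 with g11 | g11
  · exact chB_true k59_25 g10 g11 hb
  rcases Nat.lt_or_ge f 34 with g12 | g12
  · exact chB_true k59_33 g11 g12 hb
  rcases Nat.lt_or_ge f 35 with g13 | g13
  · exact chB_true k59_34 g12 g13 hb
  rcases Nat.lt_or_ge f 41 with g14 | g14
  · exact chB_true k59_35 g13 g14 hb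
  rcases Nat.lt_or_ge f 49 with g15 | g15
  · exact chB_true k59_41 g14 g15 hb
  rcases Nat.lt_or_ge f 73 with g16 | g16
  · exact chB_true k59_49 g15 g16 hb
  rcases Nat.lt_or_ge f 77 with g17 | g17
  · exact chB_true k59_73 g16 g17 hb
  rcases Nat.lt_or_ge f 81 with g18 | g18
  · exact chB_true k59_77 g17 g18 hb
  rcases Nat.lt_or_ge f 89 with g19 | g19
  · exact chB_true k59_81 g18 g19 hb
  rcases Nat.lt_or_ge f 97 with g20 | g20
  · exact chB_true k59_89 g19 g20 hb
  rcases Nat.lt_or_ge f 101 with g21 | g21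
  · exact chB_true k59_97 g20 g21 hb
  rcases Nat.lt_or_ge f 105 with g22 | g22
  · exact chB_true k59_101 g21 g22 hb
  rcases Nat.lt_or_ge f 113 with g23 | g23
  · exact chB_true k59_105 g22 g23 hb
  rcases Nat.lt_or_ge f 137 with g24 | g24
  · exact chB_true k59_113 g23 g24 hb
  rcases Nat.lt_or_ge f 138 with g25 | g25
  · exact chB_true k59_137 g24 g25 hb
  rcases Nat.lt_or_ge f 139 with g26 | g26
  · exact chB_true k59_138 g25 g26 hb
  rcases Nat.lt_or_ge f 153 with g27 | g27
  · exact chB_true k59_139 g26 g27 hb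
  rcases Nat.lt_or_ge f 161 with g28 | g28
  · exact chB_true k59_153 g27 g28 hb
  rcases Nat.lt_or_ge f 162 with g29 | g29
  · exact chB_true k59_161 g28 g29 hb
  rcases Nat.lt_or_ge f 163 with g30 | g30
  · exact chB_true k59_162 g29 g30 hb
  rcases Nat.lt_or_ge f 169 with g31 | g31
  · exact chB_true k59_163 g30 g31 hb
  rcases Nat.lt_or_ge f 177 with g32 | g32
  · exact chB_true k59_169 g31 g32 hb
  rcases Nat.lt_or_ge f 225 with g33 | g33
  · exact chB_true k59_177 g32 g33 hb
  rcases Nat.lt_or_ge f 233 with g34 | g34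
  · exact chB_true k59_225 g33 g34 hb
  rcases Nat.lt_or_ge f 241 with g35 | g35
  · exact chB_true k59_233 g34 g35 hb
  rcases Nat.lt_or_ge f 289 with g36 | g36
  · exact chB_true k59_241 g35 g36 hb
  rcases Nat.lt_or_ge f 290 with g37 | g37
  · exact chB_true k59_289 g36 g37 hb
  rcases Nat.lt_or_ge f 297 with g38 | g38
  · exact chB_true k59_290 g37 g38 hb
  rcases Nat.lt_or_ge f 305 with g39 | g39
  · exact chB_true k59_297 g38 g39 hb
  rcases Nat.lt_or_ge f 361 with g40 | g40
  · exact chB_true k59_305 g39 g40 hb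
  rcases Nat.lt_or_ge f 369 with g41 | g41
  · exact chB_true k59_361 g40 g41 hb
  rcases Nat.lt_or_ge f 425 with g42 | g42
  · exact chB_true k59_369 g41 g42 hb
  rcases Nat.lt_or_ge f 513 with g43 | g43
  · exact chB_true k59_425 g42 g43 hb
  rcases Nat.lt_or_ge f 514 with g44 | g44
  · exact chB_true k59_513 g43 g44 hb
  rcases Nat.lt_or_ge f 515 with g45 | g45
  · exact chB_true k59_514 g44 g45 hb
  rcases Nat.lt_or_ge f 519 with g46 | g46
  · exact chB_true k59_515 g45 g46 hb
  rcases Nat.lt_or_ge f 521 with g47 | g47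
  · exact chB_true k59_519 g46 g47 hb
  rcases Nat.lt_or_ge f 523 with g48 | g48
  · exact chB_true k59_521 g47 g48 hb
  rcases Nat.lt_or_ge f 525 with g49 | g49
  · exact chB_true k59_523 g48 g49 hb
  rcases Nat.lt_or_ge f 529 with g50 | g50
  · exact chB_true k59_525 g49 g50 hb
  rcases Nat.lt_or_ge f 531 with g51 | g51
  · exact chB_true k59_529 g50 g51 hb
  rcases Nat.lt_or_ge f 545 with g52 | g52
  · exact chB_true k59_531 g51 g52 hb
  rcases Nat.lt_or_ge f 546 with g53 | g53
  · exact chB_true k59_545 g52 g53 hb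
  rcases Nat.lt_or_ge f 547 with g54 | g54
  · exact chB_true k59_546 g53 g54 hb
  rcases Nat.lt_or_ge f 553 with g55 | g55
  · exact chB_true k59_547 g54 g55 hb
  rcases Nat.lt_or_ge f 585 with g56 | g56
  · exact chB_true k59_553 g55 g56 hb
  rcases Nat.lt_or_ge f 589 with g57 | g57
  · exact chB_true k59_585 g56 g57 hb
  rcases Nat.lt_or_ge f 593 with g58 | g58
  · exact chB_true k59_589 g57 g58 hb
  rcases Nat.lt_or_ge f 609 with g59 | g59
  · exact chB_true k59_593 g58 g59 hb
  rcases Nat.lt_or_ge f 613 with g60 | g60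
  · exact chB_true k59_609 g59 g60 hb
  rcases Nat.lt_or_ge f 617 with g61 | g61
  · exact chB_true k59_613 g60 g61 hb
  rcases Nat.lt_or_ge f 625 with g62 | g62
  · exact chB_true k59_617 g61 g62 hb
  rcases Nat.lt_or_ge f 649 with g63 | g63
  · exact chB_true k59_625 g62 g63 hb
  rcases Nat.lt_or_ge f 651 with g64 | g64
  · exact chB_true k59_649 g63 g64 hb
  rcases Nat.lt_or_ge f 673 with g65 | g65
  · exact chB_true k59_651 g64 g65 hb
  rcases Nat.lt_or_ge f 674 with g66 | g66
  · exact chB_true k59_673 g65 g66 hb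
  rcases Nat.lt_or_ge f 675 with g67 | g67
  · exact chB_true k59_674 g66 g67 hb
  rcases Nat.lt_or_ge f 681 with g68 | g68
  · exact chB_true k59_675 g67 g68 hb
  rcases Nat.lt_or_ge f 801 with g69 | g69
  · exact chB_true k59_681 g68 g69 hb
  rcases Nat.lt_or_ge f 802 with g70 | g70
  · exact chB_true k59_801 g69 g70 hb
  exact chB_true k59_802 g70 hf hb

theorem ka62 {f : ℕ} (hf : f < 1024) (hb : Nat.beq (Nat.mod (Nat.shiftRight rq62 f) 2) 1 = true) : chm 62 f = true := by
  rcases Nat.lt_or_ge f 1 with g0 | g0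
  · exact chB_true k62_0 (Nat.zero_le _) g0 hb
  rcases Nat.lt_or_ge f 2 with g1 | g1
  · exact chB_true k62_1 g0 g1 hb
  rcases Nat.lt_or_ge f 4 with g2 | g2
  · exact chB_true k62_2 g1 g2 hb
  rcases Nat.lt_or_ge f 5 with g3 | g3
  · exact chB_true k62_4 g2 g3 hb
  rcases Nat.lt_or_ge f 6 with g4 | g4
  · exact chB_true k62_5 g3 g4 hb
  rcases Nat.lt_or_ge f 9 with g5 | g5
  · exact chB_true k62_6 g4 g5 hb
  rcases Nat.lt_or_ge f 13 with g6 | g6
  · exact chB_true k62_9 g5 g6 hb
  rcases Nat.lt_or_ge f 17 with g7 | g7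
  · exact chB_true k62_13 g6 g7 hb
  rcases Nat.lt_or_ge f 19 with g8 | g8
  · exact chB_true k62_17 g7 g8 hb
  rcases Nat.lt_or_ge f 65 with g9 | g9
  · exact chB_true k62_19 g8 g9 hb
  rcases Nat.lt_or_ge f 66 with g10 | g10
  · exact chB_true k62_65 g9 g10 hb
  rcases Nat.lt_or_ge f 69 with g11 | g11
  · exact chB_true k62_66 g10 g11 hb
  rcases Nat.lt_or_ge f 70 with g12 | g12
  · exact chB_true k62_69 g11 g12 hb
  rcases Nat.lt_or_ge f 73 with g13 | g13
  · exact chB_true k62_70 g12 g13 hb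
  rcases Nat.lt_or_ge f 77 with g14 | g14
  · exact chB_true k62_73 g13 g14 hb
  rcases Nat.lt_or_ge f 81 with g15 | g15
  · exact chB_true k62_77 g14 g15 hb
  rcases Nat.lt_or_ge f 83 with g16 | g16
  · exact chB_true k62_81 g15 g16 hb
  rcases Nat.lt_or_ge f 129 with g17 | g17
  · exact chB_true k62_83 g16 g17 hb
  rcases Nat.lt_or_ge f 130 with g18 | g18
  · exact chB_true k62_129 g17 g18 hb
  rcases Nat.lt_or_ge f 131 with g19 | g19
  · exact chB_true k62_130 g18 g19 hb
  rcases Nat.lt_or_ge f 132 with g20 | g20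
  · exact chB_true k62_131 g19 g20 hb
  rcases Nat.lt_or_ge f 133 with g21 | g21
  · exact chB_true k62_132 g20 g21 hb
  rcases Nat.lt_or_ge f 135 with g22 | g22
  · exact chB_true k62_133 g21 g22 hb
  rcases Nat.lt_or_ge f 137 with g23 | g23
  · exact chB_true k62_135 g22 g23 hb
  rcases Nat.lt_or_ge f 141 with g24 | g24
  · exact chB_true k62_137 g23 g24 hb
  rcases Nat.lt_or_ge f 145 with g25 | g25
  · exact chB_true k62_141 g24 g25 hb
  rcases Nat.lt_or_ge f 147 with g26 | g26
  · exact chB_true k62_145 g25 g26 hb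
  rcases Nat.lt_or_ge f 161 with g27 | g27
  · exact chB_true k62_147 g26 g27 hb
  rcases Nat.lt_or_ge f 162 with g28 | g28
  · exact chB_true k62_161 g27 g28 hb
  rcases Nat.lt_or_ge f 193 with g29 | g29
  · exact chB_true k62_162 g28 g29 hb
  rcases Nat.lt_or_ge f 197 with g30 | g30
  · exact chB_true k62_193 g29 g30 hb
  rcases Nat.lt_or_ge f 201 with g31 | g31
  · exact chB_true k62_197 g30 g31 hb
  rcases Nat.lt_or_ge f 205 with g32 | g32
  · exact chB_true k62_201 g31 g32 hb
  rcases Nat.lt_or_ge f 209 with g33 | g33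
  · exact chB_true k62_205 g32 g33 hb
  rcases Nat.lt_or_ge f 225 with g34 | g34
  · exact chB_true k62_209 g33 g34 hb
  rcases Nat.lt_or_ge f 385 with g35 | g35
  · exact chB_true k62_225 g34 g35 hb
  rcases Nat.lt_or_ge f 386 with g36 | g36
  · exact chB_true k62_385 g35 g36 hb
  rcases Nat.lt_or_ge f 389 with g37 | g37
  · exact chB_true k62_386 g36 g37 hb
  rcases Nat.lt_or_ge f 393 with g38 | g38
  · exact chB_true k62_389 g37 g38 hb
  rcases Nat.lt_or_ge f 397 with g39 | g39
  · exact chB_true k62_393 g38 g39 hb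
  rcases Nat.lt_or_ge f 401 with g40 | g40
  · exact chB_true k62_397 g39 g40 hb
  rcases Nat.lt_or_ge f 403 with g41 | g41
  · exact chB_true k62_401 g40 g41 hb
  rcases Nat.lt_or_ge f 497 with g42 | g42
  · exact chB_true k62_403 g41 g42 hb
  rcases Nat.lt_or_ge f 513 with g43 | g43
  · exact chB_true k62_497 g42 g43 hb
  rcases Nat.lt_or_ge f 514 with g44 | g44
  · exact chB_true k62_513 g43 g44 hb
  rcases Nat.lt_or_ge f 516 with g45 | g45
  · exact chB_true k62_514 g44 g45 hb
  rcases Nat.lt_or_ge f 517 with g46 | g46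
  · exact chB_true k62_516 g45 g46 hb
  rcases Nat.lt_or_ge f 518 with g47 | g47
  · exact chB_true k62_517 g46 g47 hb
  rcases Nat.lt_or_ge f 521 with g48 | g48
  · exact chB_true k62_518 g47 g48 hb
  rcases Nat.lt_or_ge f 525 with g49 | g49
  · exact chB_true k62_521 g48 g49 hb
  rcases Nat.lt_or_ge f 529 with g50 | g50
  · exact chB_true k62_525 g49 g50 hb
  rcases Nat.lt_or_ge f 531 with g51 | g51
  · exact chB_true k62_529 g50 g51 hb
  rcases Nat.lt_or_ge f 577 with g52 | g52
  · exact chB_true k62_531 g51 g52 hb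
  rcases Nat.lt_or_ge f 578 with g53 | g53
  · exact chB_true k62_577 g52 g53 hb
  rcases Nat.lt_or_ge f 581 with g54 | g54
  · exact chB_true k62_578 g53 g54 hb
  rcases Nat.lt_or_ge f 582 with g55 | g55
  · exact chB_true k62_581 g54 g55 hb
  rcases Nat.lt_or_ge f 589 with g56 | g56
  · exact chB_true k62_582 g55 g56 hb
  rcases Nat.lt_or_ge f 593 with g57 | g57
  · exact chB_true k62_589 g56 g57 hb
  rcases Nat.lt_or_ge f 595 with g58 | g58
  · exact chB_true k62_593 g57 g58 hb
  rcases Nat.lt_or_ge f 641 with g59 | g59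
  · exact chB_true k62_595 g58 g59 hb
  rcases Nat.lt_or_ge f 642 with g60 | g60
  · exact chB_true k62_641 g59 g60 hb
  rcases Nat.lt_or_ge f 643 with g61 | g61
  · exact chB_true k62_642 g60 g61 hb
  rcases Nat.lt_or_ge f 645 with g62 | g62
  · exact chB_true k62_643 g61 g62 hb
  rcases Nat.lt_or_ge f 647 with g63 | g63
  · exact chB_true k62_645 g62 g63 hb
  rcases Nat.lt_or_ge f 649 with g64 | g64
  · exact chB_true k62_647 g63 g64 hb
  rcases Nat.lt_or_ge f 653 with g65 | g65
  · exact chB_true k62_649 g64 g65 hb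
  rcases Nat.lt_or_ge f 659 with g66 | g66
  · exact chB_true k62_653 g65 g66 hb
  rcases Nat.lt_or_ge f 673 with g67 | g67
  · exact chB_true k62_659 g66 g67 hb
  rcases Nat.lt_or_ge f 674 with g68 | g68
  · exact chB_true k62_673 g67 g68 hb
  rcases Nat.lt_or_ge f 705 with g69 | g69
  · exact chB_true k62_674 g68 g69 hb
  rcases Nat.lt_or_ge f 709 with g70 | g70
  · exact chB_true k62_705 g69 g70 hb
  rcases Nat.lt_or_ge f 737 with g71 | g71
  · exact chB_true k62_709 g70 g71 hb
  rcases Nat.lt_or_ge f 897 with g72 | g72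
  · exact chB_true k62_737 g71 g72 hb
  rcases Nat.lt_or_ge f 905 with g73 | g73
  · exact chB_true k62_897 g72 g73 hb
  exact chB_true k62_905 g73 hf hb

theorem ka126 {f : ℕ} (hf : f < 1024) (hb : Nat.beq (Nat.mod (Nat.shiftRight rq126 f) 2) 1 = true) : chm 126 f = true := by
  rcases Nat.lt_or_ge f 1 with g0 | g0
  · exact chB_true k126_0 (Nat.zero_le _) g0 hb
  rcases Nat.lt_or_ge f 2 with g1 | g1
  · exact chB_true k126_1 g0 g1 hb
  rcases Nat.lt_or_ge f 4 with g2 | g2
  · exact chB_true k126_2 g1 g2 hb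
  rcases Nat.lt_or_ge f 8 with g3 | g3
  · exact chB_true k126_4 g2 g3 hb
  rcases Nat.lt_or_ge f 9 with g4 | g4
  · exact chB_true k126_8 g3 g4 hb
  rcases Nat.lt_or_ge f 10 with g5 | g5
  · exact chB_true k126_9 g4 g5 hb
  rcases Nat.lt_or_ge f 12 with g6 | g6
  · exact chB_true k126_10 g5 g6 hb
  rcases Nat.lt_or_ge f 13 with g7 | g7
  · exact chB_true k126_12 g6 g7 hb
  rcases Nat.lt_or_ge f 14 with g8 | g8
  · exact chB_true k126_13 g7 g8 hb
  rcases Nat.lt_or_ge f 25 with g9 | g9
  · exact chB_true k126_14 g8 g9 hb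
  rcases Nat.lt_or_ge f 27 with g10 | g10
  · exact chB_true k126_25 g9 g10 hb
  rcases Nat.lt_or_ge f 57 with g11 | g11
  · exact chB_true k126_27 g10 g11 hb
  rcases Nat.lt_or_ge f 73 with g12 | g12
  · exact chB_true k126_57 g11 g12 hb
  rcases Nat.lt_or_ge f 74 with g13 | g13
  · exact chB_true k126_73 g12 g13 hb
  rcases Nat.lt_or_ge f 76 with g14 | g14
  · exact chB_true k126_74 g13 g14 hb
  rcases Nat.lt_or_ge f 77 with g15 | g15
  · exact chB_true k126_76 g14 g15 hb
  rcases Nat.lt_or_ge f 78 with g16 | g16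
  · exact chB_true k126_77 g15 g16 hb
  rcases Nat.lt_or_ge f 81 with g17 | g17
  · exact chB_true k126_78 g16 g17 hb
  rcases Nat.lt_or_ge f 82 with g18 | g18
  · exact chB_true k126_81 g17 g18 hb
  rcases Nat.lt_or_ge f 83 with g19 | g19
  · exact chB_true k126_82 g18 g19 hb
  rcases Nat.lt_or_ge f 84 with g20 | g20
  · exact chB_true k126_83 g19 g20 hb
  rcases Nat.lt_or_ge f 87 with g21 | g21
  · exact chB_true k126_84 g20 g21 hb
  rcases Nat.lt_or_ge f 89 with g22 | g22
  · exact chB_true k126_87 g21 g22 hb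
  rcases Nat.lt_or_ge f 91 with g23 | g23
  · exact chB_true k126_89 g22 g23 hb
  rcases Nat.lt_or_ge f 93 with g24 | g24
  · exact chB_true k126_91 g23 g24 hb
  rcases Nat.lt_or_ge f 113 with g25 | g25
  · exact chB_true k126_93 g24 g25 hb
  rcases Nat.lt_or_ge f 114 with g26 | g26
  · exact chB_true k126_113 g25 g26 hb
  rcases Nat.lt_or_ge f 121 with g27 | g27
  · exact chB_true k126_114 g26 g27 hb
  rcases Nat.lt_or_ge f 217 with g28 | g28
  · exact chB_true k126_121 g27 g28 hb
  rcases Nat.lt_or_ge f 219 with g29 | g29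
  · exact chB_true k126_217 g28 g29 hb
  rcases Nat.lt_or_ge f 233 with g30 | g30
  · exact chB_true k126_219 g29 g30 hb
  rcases Nat.lt_or_ge f 237 with g31 | g31
  · exact chB_true k126_233 g30 g31 hb
  rcases Nat.lt_or_ge f 249 with g32 | g32
  · exact chB_true k126_237 g31 g32 hb
  rcases Nat.lt_or_ge f 505 with g33 | g33
  · exact chB_true k126_249 g32 g33 hb
  rcases Nat.lt_or_ge f 513 with g34 | g34
  · exact chB_true k126_505 g33 g34 hb
  rcases Nat.lt_or_ge f 514 with g35 | g35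
  · exact chB_true k126_513 g34 g35 hb
  rcases Nat.lt_or_ge f 516 with g36 | g36
  · exact chB_true k126_514 g35 g36 hb
  rcases Nat.lt_or_ge f 520 with g37 | g37
  · exact chB_true k126_516 g36 g37 hb
  rcases Nat.lt_or_ge f 521 with g38 | g38
  · exact chB_true k126_520 g37 g38 hb
  rcases Nat.lt_or_ge f 522 with g39 | g39
  · exact chB_true k126_521 g38 g39 hb
  rcases Nat.lt_or_ge f 524 with g40 | g40
  · exact chB_true k126_522 g39 g40 hb
  rcases Nat.lt_or_ge f 525 with g41 | g41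
  · exact chB_true k126_524 g40 g41 hb
  rcases Nat.lt_or_ge f 526 with g42 | g42
  · exact chB_true k126_525 g41 g42 hb
  rcases Nat.lt_or_ge f 537 with g43 | g43
  · exact chB_true k126_526 g42 g43 hb
  rcases Nat.lt_or_ge f 539 with g44 | g44
  · exact chB_true k126_537 g43 g44 hb
  rcases Nat.lt_or_ge f 569 with g45 | g45
  · exact chB_true k126_539 g44 g45 hb
  rcases Nat.lt_or_ge f 585 with g46 | g46
  · exact chB_true k126_569 g45 g46 hb
  rcases Nat.lt_or_ge f 586 with g47 | g47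
  · exact chB_true k126_585 g46 g47 hb
  rcases Nat.lt_or_ge f 588 with g48 | g48
  · exact chB_true k126_586 g47 g48 hb
  rcases Nat.lt_or_ge f 589 with g49 | g49
  · exact chB_true k126_588 g48 g49 hb
  rcases Nat.lt_or_ge f 590 with g50 | g50
  · exact chB_true k126_589 g49 g50 hb
  rcases Nat.lt_or_ge f 593 with g51 | g51
  · exact chB_true k126_590 g50 g51 hb
  rcases Nat.lt_or_ge f 594 with g52 | g52
  · exact chB_true k126_593 g51 g52 hb
  rcases Nat.lt_or_ge f 595 with g53 | g53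
  · exact chB_true k126_594 g52 g53 hb
  rcases Nat.lt_or_ge f 596 with g54 | g54
  · exact chB_true k126_595 g53 g54 hb
  rcases Nat.lt_or_ge f 599 with g55 | g55
  · exact chB_true k126_596 g54 g55 hb
  rcases Nat.lt_or_ge f 601 with g56 | g56
  · exact chB_true k126_599 g55 g56 hb
  rcases Nat.lt_or_ge f 603 with g57 | g57
  · exact chB_true k126_601 g56 g57 hb
  rcases Nat.lt_or_ge f 605 with g58 | g58
  · exact chB_true k126_603 g57 g58 hb
  rcases Nat.lt_or_ge f 625 with g59 | g59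
  · exact chB_true k126_605 g58 g59 hb
  rcases Nat.lt_or_ge f 626 with g60 | g60
  · exact chB_true k126_625 g59 g60 hb
  rcases Nat.lt_or_ge f 633 with g61 | g61
  · exact chB_true k126_626 g60 g61 hb
  rcases Nat.lt_or_ge f 745 with g62 | g62
  · exact chB_true k126_633 g61 g62 hb
  exact chB_true k126_745 g62 hf hb

theorem ka183 {f : ℕ} (hf : f < 1024) (hb : Nat.beq (Nat.mod (Nat.shiftRight rq183 f) 2) 1 = true) : chm 183 f = true := by
  rcases Nat.lt_or_ge f 1 with g0 | g0
  · exact chB_true k183_0 (Nat.zero_le _) g0 hb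
  rcases Nat.lt_or_ge f 2 with g1 | g1
  · exact chB_true k183_1 g0 g1 hb
  rcases Nat.lt_or_ge f 4 with g2 | g2
  · exact chB_true k183_2 g1 g2 hb
  rcases Nat.lt_or_ge f 5 with g3 | g3
  · exact chB_true k183_4 g2 g3 hb
  rcases Nat.lt_or_ge f 6 with g4 | g4
  · exact chB_true k183_5 g3 g4 hb
  rcases Nat.lt_or_ge f 12 with g5 | g5
  · exact chB_true k183_6 g4 g5 hb
  rcases Nat.lt_or_ge f 13 with g6 | g6
  · exact chB_true k183_12 g5 g6 hb
  rcases Nat.lt_or_ge f 14 with g7 | g7
  · exact chB_true k183_13 g6 g7 hb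
  rcases Nat.lt_or_ge f 21 with g8 | g8
  · exact chB_true k183_14 g7 g8 hb
  rcases Nat.lt_or_ge f 22 with g9 | g9
  · exact chB_true k183_21 g8 g9 hb
  rcases Nat.lt_or_ge f 23 with g10 | g10
  · exact chB_true k183_22 g9 g10 hb
  rcases Nat.lt_or_ge f 76 with g11 | g11
  · exact chB_true k183_23 g10 g11 hb
  rcases Nat.lt_or_ge f 77 with g12 | g12
  · exact chB_true k183_76 g11 g12 hb
  rcases Nat.lt_or_ge f 78 with g13 | g13
  · exact chB_true k183_77 g12 g13 hb
  rcases Nat.lt_or_ge f 85 with g14 | g14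
  · exact chB_true k183_78 g13 g14 hb
  rcases Nat.lt_or_ge f 86 with g15 | g15
  · exact chB_true k183_85 g14 g15 hb
  rcases Nat.lt_or_ge f 87 with g16 | g16
  · exact chB_true k183_86 g15 g16 hb
  rcases Nat.lt_or_ge f 149 with g17 | g17
  · exact chB_true k183_87 g16 g17 hb
  rcases Nat.lt_or_ge f 150 with g18 | g18
  · exact chB_true k183_149 g17 g18 hb
  rcases Nat.lt_or_ge f 151 with g19 | g19
  · exact chB_true k183_150 g18 g19 hb
  rcases Nat.lt_or_ge f 161 with g20 | g20
  · exact chB_true k183_151 g19 g20 hb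
  rcases Nat.lt_or_ge f 162 with g21 | g21
  · exact chB_true k183_161 g20 g21 hb
  rcases Nat.lt_or_ge f 164 with g22 | g22
  · exact chB_true k183_162 g21 g22 hb
  rcases Nat.lt_or_ge f 165 with g23 | g23
  · exact chB_true k183_164 g22 g23 hb
  rcases Nat.lt_or_ge f 166 with g24 | g24
  · exact chB_true k183_165 g23 g24 hb
  rcases Nat.lt_or_ge f 173 with g25 | g25
  · exact chB_true k183_166 g24 g25 hb
  exact chB_true k183_173 g25 hf hb

theorem ka184 {f : ℕ} (hf : f < 1024) (hb : Nat.beq (Nat.mod (Nat.shiftRight rq184 f) 2) 1 = true) : chm 184 f = true := by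
  rcases Nat.lt_or_ge f 1 with g0 | g0
  · exact chB_true k184_0 (Nat.zero_le _) g0 hb
  rcases Nat.lt_or_ge f 2 with g1 | g1
  · exact chB_true k184_1 g0 g1 hb
  rcases Nat.lt_or_ge f 5 with g2 | g2
  · exact chB_true k184_2 g1 g2 hb
  rcases Nat.lt_or_ge f 13 with g3 | g3
  · exact chB_true k184_5 g2 g3 hb
  rcases Nat.lt_or_ge f 21 with g4 | g4
  · exact chB_true k184_13 g3 g4 hb
  rcases Nat.lt_or_ge f 65 with g5 | g5
  · exact chB_true k184_21 g4 g5 hb
  rcases Nat.lt_or_ge f 69 with g6 | g6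
  · exact chB_true k184_65 g5 g6 hb
  exact chB_true k184_69 g6 hf hb

theorem ka185 {f : ℕ} (hf : f < 1024) (hb : Nat.beq (Nat.mod (Nat.shiftRight rq185 f) 2) 1 = true) : chm 185 f = true := by
  rcases Nat.lt_or_ge f 1 with g0 | g0
  · exact chB_true k185_0 (Nat.zero_le _) g0 hb
  rcases Nat.lt_or_ge f 2 with g1 | g1
  · exact chB_true k185_1 g0 g1 hb
  rcases Nat.lt_or_ge f 5 with g2 | g2
  · exact chB_true k185_2 g1 g2 hb
  rcases Nat.lt_or_ge f 9 with g3 | g3
  · exact chB_true k185_5 g2 g3 hb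
  rcases Nat.lt_or_ge f 10 with g4 | g4
  · exact chB_true k185_9 g3 g4 hb
  rcases Nat.lt_or_ge f 13 with g5 | g5
  · exact chB_true k185_10 g4 g5 hb
  rcases Nat.lt_or_ge f 17 with g6 | g6
  · exact chB_true k185_13 g5 g6 hb
  rcases Nat.lt_or_ge f 18 with g7 | g7
  · exact chB_true k185_17 g6 g7 hb
  rcases Nat.lt_or_ge f 19 with g8 | g8
  · exact chB_true k185_18 g7 g8 hb
  rcases Nat.lt_or_ge f 21 with g9 | g9
  · exact chB_true k185_19 g8 g9 hb
  rcases Nat.lt_or_ge f 25 with g10 | g10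
  · exact chB_true k185_21 g9 g10 hb
  rcases Nat.lt_or_ge f 27 with g11 | g11
  · exact chB_true k185_25 g10 g11 hb
  rcases Nat.lt_or_ge f 29 with g12 | g12
  · exact chB_true k185_27 g11 g12 hb
  rcases Nat.lt_or_ge f 49 with g13 | g13
  · exact chB_true k185_29 g12 g13 hb
  rcases Nat.lt_or_ge f 57 with g14 | g14
  · exact chB_true k185_49 g13 g14 hb
  rcases Nat.lt_or_ge f 65 with g15 | g15
  · exact chB_true k185_57 g14 g15 hb
  rcases Nat.lt_or_ge f 69 with g16 | g16
  · exact chB_true k185_65 g15 g16 hb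
  rcases Nat.lt_or_ge f 73 with g17 | g17
  · exact chB_true k185_69 g16 g17 hb
  rcases Nat.lt_or_ge f 77 with g18 | g18
  · exact chB_true k185_73 g17 g18 hb
  rcases Nat.lt_or_ge f 81 with g19 | g19
  · exact chB_true k185_77 g18 g19 hb
  rcases Nat.lt_or_ge f 85 with g20 | g20
  · exact chB_true k185_81 g19 g20 hb
  rcases Nat.lt_or_ge f 89 with g21 | g21
  · exact chB_true k185_85 g20 g21 hb
  rcases Nat.lt_or_ge f 93 with g22 | g22
  · exact chB_true k185_89 g21 g22 hb
  rcases Nat.lt_or_ge f 113 with g23 | g23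
  · exact chB_true k185_93 g22 g23 hb
  rcases Nat.lt_or_ge f 129 with g24 | g24
  · exact chB_true k185_113 g23 g24 hb
  rcases Nat.lt_or_ge f 131 with g25 | g25
  · exact chB_true k185_129 g24 g25 hb
  rcases Nat.lt_or_ge f 137 with g26 | g26
  · exact chB_true k185_131 g25 g26 hb
  rcases Nat.lt_or_ge f 139 with g27 | g27
  · exact chB_true k185_137 g26 g27 hb
  rcases Nat.lt_or_ge f 145 with g28 | g28
  · exact chB_true k185_139 g27 g28 hb
  rcases Nat.lt_or_ge f 147 with g29 | g29
  · exact chB_true k185_145 g28 g29 hb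
  rcases Nat.lt_or_ge f 153 with g30 | g30
  · exact chB_true k185_147 g29 g30 hb
  rcases Nat.lt_or_ge f 155 with g31 | g31
  · exact chB_true k185_153 g30 g31 hb
  rcases Nat.lt_or_ge f 161 with g32 | g32
  · exact chB_true k185_155 g31 g32 hb
  rcases Nat.lt_or_ge f 163 with g33 | g33
  · exact chB_true k185_161 g32 g33 hb
  rcases Nat.lt_or_ge f 169 with g34 | g34
  · exact chB_true k185_163 g33 g34 hb
  rcases Nat.lt_or_ge f 177 with g35 | g35
  · exact chB_true k185_169 g34 g35 hb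
  rcases Nat.lt_or_ge f 185 with g36 | g36
  · exact chB_true k185_177 g35 g36 hb
  rcases Nat.lt_or_ge f 513 with g37 | g37
  · exact chB_true k185_185 g36 g37 hb
  rcases Nat.lt_or_ge f 514 with g38 | g38
  · exact chB_true k185_513 g37 g38 hb
  rcases Nat.lt_or_ge f 517 with g39 | g39
  · exact chB_true k185_514 g38 g39 hb
  rcases Nat.lt_or_ge f 521 with g40 | g40
  · exact chB_true k185_517 g39 g40 hb
  rcases Nat.lt_or_ge f 525 with g41 | g41
  · exact chB_true k185_521 g40 g41 hb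
  rcases Nat.lt_or_ge f 529 with g42 | g42
  · exact chB_true k185_525 g41 g42 hb
  rcases Nat.lt_or_ge f 530 with g43 | g43
  · exact chB_true k185_529 g42 g43 hb
  rcases Nat.lt_or_ge f 531 with g44 | g44
  · exact chB_true k185_530 g43 g44 hb
  rcases Nat.lt_or_ge f 533 with g45 | g45
  · exact chB_true k185_531 g44 g45 hb
  rcases Nat.lt_or_ge f 541 with g46 | g46
  · exact chB_true k185_533 g45 g46 hb
  rcases Nat.lt_or_ge f 561 with g47 | g47
  · exact chB_true k185_541 g46 g47 hb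
  rcases Nat.lt_or_ge f 577 with g48 | g48
  · exact chB_true k185_561 g47 g48 hb
  rcases Nat.lt_or_ge f 581 with g49 | g49
  · exact chB_true k185_577 g48 g49 hb
  rcases Nat.lt_or_ge f 593 with g50 | g50
  · exact chB_true k185_581 g49 g50 hb
  rcases Nat.lt_or_ge f 597 with g51 | g51
  · exact chB_true k185_593 g50 g51 hb
  rcases Nat.lt_or_ge f 641 with g52 | g52
  · exact chB_true k185_597 g51 g52 hb
  rcases Nat.lt_or_ge f 673 with g53 | g53
  · exact chB_true k185_641 g52 g53 hb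
  exact chB_true k185_673 g53 hf hb

theorem ka187 {f : ℕ} (hf : f < 1024) (hb : Nat.beq (Nat.mod (Nat.shiftRight rq187 f) 2) 1 = true) : chm 187 f = true := by
  rcases Nat.lt_or_ge f 1 with g0 | g0
  · exact chB_true k187_0 (Nat.zero_le _) g0 hb
  rcases Nat.lt_or_ge f 2 with g1 | g1
  · exact chB_true k187_1 g0 g1 hb
  rcases Nat.lt_or_ge f 3 with g2 | g2
  · exact chB_true k187_2 g1 g2 hb
  rcases Nat.lt_or_ge f 4 with g3 | g3
  · exact chB_true k187_3 g2 g3 hb
  rcases Nat.lt_or_ge f 5 with g4 | g4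
  · exact chB_true k187_4 g3 g4 hb
  rcases Nat.lt_or_ge f 6 with g5 | g5
  · exact chB_true k187_5 g4 g5 hb
  rcases Nat.lt_or_ge f 7 with g6 | g6
  · exact chB_true k187_6 g5 g6 hb
  rcases Nat.lt_or_ge f 11 with g7 | g7
  · exact chB_true k187_7 g6 g7 hb
  rcases Nat.lt_or_ge f 12 with g8 | g8
  · exact chB_true k187_11 g7 g8 hb
  rcases Nat.lt_or_ge f 13 with g9 | g9
  · exact chB_true k187_12 g8 g9 hb
  rcases Nat.lt_or_ge f 14 with g10 | g10
  · exact chB_true k187_13 g9 g10 hb
  rcases Nat.lt_or_ge f 15 with g11 | g11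
  · exact chB_true k187_14 g10 g11 hb
  rcases Nat.lt_or_ge f 21 with g12 | g12
  · exact chB_true k187_15 g11 g12 hb
  rcases Nat.lt_or_ge f 23 with g13 | g13
  · exact chB_true k187_21 g12 g13 hb
  rcases Nat.lt_or_ge f 33 with g14 | g14
  · exact chB_true k187_23 g13 g14 hb
  rcases Nat.lt_or_ge f 34 with g15 | g15
  · exact chB_true k187_33 g14 g15 hb
  rcases Nat.lt_or_ge f 35 with g16 | g16
  · exact chB_true k187_34 g15 g16 hb
  rcases Nat.lt_or_ge f 36 with g17 | g17
  · exact chB_true k187_35 g16 g17 hb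
  rcases Nat.lt_or_ge f 37 with g18 | g18
  · exact chB_true k187_36 g17 g18 hb
  rcases Nat.lt_or_ge f 38 with g19 | g19
  · exact chB_true k187_37 g18 g19 hb
  rcases Nat.lt_or_ge f 39 with g20 | g20
  · exact chB_true k187_38 g19 g20 hb
  rcases Nat.lt_or_ge f 45 with g21 | g21
  · exact chB_true k187_39 g20 g21 hb
  rcases Nat.lt_or_ge f 65 with g22 | g22
  · exact chB_true k187_45 g21 g22 hb
  rcases Nat.lt_or_ge f 66 with g23 | g23
  · exact chB_true k187_65 g22 g23 hb
  rcases Nat.lt_or_ge f 67 with g24 | g24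
  · exact chB_true k187_66 g23 g24 hb
  rcases Nat.lt_or_ge f 69 with g25 | g25
  · exact chB_true k187_67 g24 g25 hb
  rcases Nat.lt_or_ge f 70 with g26 | g26
  · exact chB_true k187_69 g25 g26 hb
  rcases Nat.lt_or_ge f 71 with g27 | g27
  · exact chB_true k187_70 g26 g27 hb
  rcases Nat.lt_or_ge f 75 with g28 | g28
  · exact chB_true k187_71 g27 g28 hb
  rcases Nat.lt_or_ge f 77 with g29 | g29
  · exact chB_true k187_75 g28 g29 hb
  rcases Nat.lt_or_ge f 79 with g30 | g30
  · exact chB_true k187_77 g29 g30 hb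
  rcases Nat.lt_or_ge f 85 with g31 | g31
  · exact chB_true k187_79 g30 g31 hb
  rcases Nat.lt_or_ge f 87 with g32 | g32
  · exact chB_true k187_85 g31 g32 hb
  rcases Nat.lt_or_ge f 97 with g33 | g33
  · exact chB_true k187_87 g32 g33 hb
  rcases Nat.lt_or_ge f 98 with g34 | g34
  · exact chB_true k187_97 g33 g34 hb
  rcases Nat.lt_or_ge f 99 with g35 | g35
  · exact chB_true k187_98 g34 g35 hb
  rcases Nat.lt_or_ge f 101 with g36 | g36
  · exact chB_true k187_99 g35 g36 hb
  rcases Nat.lt_or_ge f 102 with g37 | g37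
  · exact chB_true k187_101 g36 g37 hb
  rcases Nat.lt_or_ge f 109 with g38 | g38
  · exact chB_true k187_102 g37 g38 hb
  rcases Nat.lt_or_ge f 129 with g39 | g39
  · exact chB_true k187_109 g38 g39 hb
  rcases Nat.lt_or_ge f 130 with g40 | g40
  · exact chB_true k187_129 g39 g40 hb
  rcases Nat.lt_or_ge f 131 with g41 | g41
  · exact chB_true k187_130 g40 g41 hb
  rcases Nat.lt_or_ge f 132 with g42 | g42
  · exact chB_true k187_131 g41 g42 hb
  rcases Nat.lt_or_ge f 133 with g43 | g43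
  · exact chB_true k187_132 g42 g43 hb
  rcases Nat.lt_or_ge f 135 with g44 | g44
  · exact chB_true k187_133 g43 g44 hb
  rcases Nat.lt_or_ge f 139 with g45 | g45
  · exact chB_true k187_135 g44 g45 hb
  rcases Nat.lt_or_ge f 140 with g46 | g46
  · exact chB_true k187_139 g45 g46 hb
  rcases Nat.lt_or_ge f 141 with g47 | g47
  · exact chB_true k187_140 g46 g47 hb
  rcases Nat.lt_or_ge f 142 with g48 | g48
  · exact chB_true k187_141 g47 g48 hb
  rcases Nat.lt_or_ge f 143 with g49 | g49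
  · exact chB_true k187_142 g48 g49 hb
  rcases Nat.lt_or_ge f 149 with g50 | g50
  · exact chB_true k187_143 g49 g50 hb
  rcases Nat.lt_or_ge f 151 with g51 | g51
  · exact chB_true k187_149 g50 g51 hb
  rcases Nat.lt_or_ge f 161 with g52 | g52
  · exact chB_true k187_151 g51 g52 hb
  rcases Nat.lt_or_ge f 162 with g53 | g53
  · exact chB_true k187_161 g52 g53 hb
  rcases Nat.lt_or_ge f 163 with g54 | g54
  · exact chB_true k187_162 g53 g54 hb
  rcases Nat.lt_or_ge f 164 with g55 | g55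
  · exact chB_true k187_163 g54 g55 hb
  rcases Nat.lt_or_ge f 165 with g56 | g56
  · exact chB_true k187_164 g55 g56 hb
  rcases Nat.lt_or_ge f 166 with g57 | g57
  · exact chB_true k187_165 g56 g57 hb
  rcases Nat.lt_or_ge f 167 with g58 | g58
  · exact chB_true k187_166 g57 g58 hb
  rcases Nat.lt_or_ge f 173 with g59 | g59
  · exact chB_true k187_167 g58 g59 hb
  rcases Nat.lt_or_ge f 193 with g60 | g60
  · exact chB_true k187_173 g59 g60 hb
  rcases Nat.lt_or_ge f 195 with g61 | g61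
  · exact chB_true k187_193 g60 g61 hb
  rcases Nat.lt_or_ge f 197 with g62 | g62
  · exact chB_true k187_195 g61 g62 hb
  rcases Nat.lt_or_ge f 203 with g63 | g63
  · exact chB_true k187_197 g62 g63 hb
  rcases Nat.lt_or_ge f 205 with g64 | g64
  · exact chB_true k187_203 g63 g64 hb
  rcases Nat.lt_or_ge f 213 with g65 | g65
  · exact chB_true k187_205 g64 g65 hb
  rcases Nat.lt_or_ge f 225 with g66 | g66
  · exact chB_true k187_213 g65 g66 hb
  rcases Nat.lt_or_ge f 227 with g67 | g67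
  · exact chB_true k187_225 g66 g67 hb
  rcases Nat.lt_or_ge f 229 with g68 | g68
  · exact chB_true k187_227 g67 g68 hb
  rcases Nat.lt_or_ge f 257 with g69 | g69
  · exact chB_true k187_229 g68 g69 hb
  rcases Nat.lt_or_ge f 258 with g70 | g70
  · exact chB_true k187_257 g69 g70 hb
  rcases Nat.lt_or_ge f 259 with g71 | g71
  · exact chB_true k187_258 g70 g71 hb
  rcases Nat.lt_or_ge f 261 with g72 | g72
  · exact chB_true k187_259 g71 g72 hb
  rcases Nat.lt_or_ge f 262 with g73 | g73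
  · exact chB_true k187_261 g72 g73 hb
  rcases Nat.lt_or_ge f 265 with g74 | g74
  · exact chB_true k187_262 g73 g74 hb
  rcases Nat.lt_or_ge f 266 with g75 | g75
  · exact chB_true k187_265 g74 g75 hb
  rcases Nat.lt_or_ge f 267 with g76 | g76
  · exact chB_true k187_266 g75 g76 hb
  rcases Nat.lt_or_ge f 269 with g77 | g77
  · exact chB_true k187_267 g76 g77 hb
  rcases Nat.lt_or_ge f 270 with g78 | g78
  · exact chB_true k187_269 g77 g78 hb
  rcases Nat.lt_or_ge f 273 with g79 | g79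
  · exact chB_true k187_270 g78 g79 hb
  rcases Nat.lt_or_ge f 274 with g80 | g80
  · exact chB_true k187_273 g79 g80 hb
  rcases Nat.lt_or_ge f 275 with g81 | g81
  · exact chB_true k187_274 g80 g81 hb
  rcases Nat.lt_or_ge f 277 with g82 | g82
  · exact chB_true k187_275 g81 g82 hb
  rcases Nat.lt_or_ge f 279 with g83 | g83
  · exact chB_true k187_277 g82 g83 hb
  rcases Nat.lt_or_ge f 281 with g84 | g84
  · exact chB_true k187_279 g83 g84 hb
  rcases Nat.lt_or_ge f 283 with g85 | g85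
  · exact chB_true k187_281 g84 g85 hb
  rcases Nat.lt_or_ge f 285 with g86 | g86
  · exact chB_true k187_283 g85 g86 hb
  rcases Nat.lt_or_ge f 289 with g87 | g87
  · exact chB_true k187_285 g86 g87 hb
  rcases Nat.lt_or_ge f 290 with g88 | g88
  · exact chB_true k187_289 g87 g88 hb
  rcases Nat.lt_or_ge f 291 with g89 | g89
  · exact chB_true k187_290 g88 g89 hb
  rcases Nat.lt_or_ge f 293 with g90 | g90
  · exact chB_true k187_291 g89 g90 hb
  rcases Nat.lt_or_ge f 294 with g91 | g91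
  · exact chB_true k187_293 g90 g91 hb
  rcases Nat.lt_or_ge f 297 with g92 | g92
  · exact chB_true k187_294 g91 g92 hb
  rcases Nat.lt_or_ge f 298 with g93 | g93
  · exact chB_true k187_297 g92 g93 hb
  rcases Nat.lt_or_ge f 301 with g94 | g94
  · exact chB_true k187_298 g93 g94 hb
  rcases Nat.lt_or_ge f 305 with g95 | g95
  · exact chB_true k187_301 g94 g95 hb
  rcases Nat.lt_or_ge f 306 with g96 | g96
  · exact chB_true k187_305 g95 g96 hb
  rcases Nat.lt_or_ge f 307 with g97 | g97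
  · exact chB_true k187_306 g96 g97 hb
  rcases Nat.lt_or_ge f 313 with g98 | g98
  · exact chB_true k187_307 g97 g98 hb
  rcases Nat.lt_or_ge f 321 with g99 | g99
  · exact chB_true k187_313 g98 g99 hb
  rcases Nat.lt_or_ge f 322 with g100 | g100
  · exact chB_true k187_321 g99 g100 hb
  rcases Nat.lt_or_ge f 325 with g101 | g101
  · exact chB_true k187_322 g100 g101 hb
  rcases Nat.lt_or_ge f 329 with g102 | g102
  · exact chB_true k187_325 g101 g102 hb
  rcases Nat.lt_or_ge f 333 with g103 | g103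
  · exact chB_true k187_329 g102 g103 hb
  rcases Nat.lt_or_ge f 337 with g104 | g104
  · exact chB_true k187_333 g103 g104 hb
  rcases Nat.lt_or_ge f 338 with g105 | g105
  · exact chB_true k187_337 g104 g105 hb
  rcases Nat.lt_or_ge f 341 with g106 | g106
  · exact chB_true k187_338 g105 g106 hb
  rcases Nat.lt_or_ge f 345 with g107 | g107
  · exact chB_true k187_341 g106 g107 hb
  rcases Nat.lt_or_ge f 353 with g108 | g108
  · exact chB_true k187_345 g107 g108 hb
  rcases Nat.lt_or_ge f 354 with g109 | g109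
  · exact chB_true k187_353 g108 g109 hb
  rcases Nat.lt_or_ge f 357 with g110 | g110
  · exact chB_true k187_354 g109 g110 hb
  rcases Nat.lt_or_ge f 361 with g111 | g111
  · exact chB_true k187_357 g110 g111 hb
  rcases Nat.lt_or_ge f 369 with g112 | g112
  · exact chB_true k187_361 g111 g112 hb
  rcases Nat.lt_or_ge f 370 with g113 | g113
  · exact chB_true k187_369 g112 g113 hb
  rcases Nat.lt_or_ge f 385 with g114 | g114
  · exact chB_true k187_370 g113 g114 hb
  rcases Nat.lt_or_ge f 386 with g115 | g115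
  · exact chB_true k187_385 g114 g115 hb
  rcases Nat.lt_or_ge f 387 with g116 | g116
  · exact chB_true k187_386 g115 g116 hb
  rcases Nat.lt_or_ge f 393 with g117 | g117
  · exact chB_true k187_387 g116 g117 hb
  rcases Nat.lt_or_ge f 395 with g118 | g118
  · exact chB_true k187_393 g117 g118 hb
  rcases Nat.lt_or_ge f 401 with g119 | g119
  · exact chB_true k187_395 g118 g119 hb
  rcases Nat.lt_or_ge f 403 with g120 | g120
  · exact chB_true k187_401 g119 g120 hb
  rcases Nat.lt_or_ge f 409 with g121 | g121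
  · exact chB_true k187_403 g120 g121 hb
  rcases Nat.lt_or_ge f 417 with g122 | g122
  · exact chB_true k187_409 g121 g122 hb
  rcases Nat.lt_or_ge f 418 with g123 | g123
  · exact chB_true k187_417 g122 g123 hb
  rcases Nat.lt_or_ge f 419 with g124 | g124
  · exact chB_true k187_418 g123 g124 hb
  rcases Nat.lt_or_ge f 425 with g125 | g125
  · exact chB_true k187_419 g124 g125 hb
  rcases Nat.lt_or_ge f 433 with g126 | g126
  · exact chB_true k187_425 g125 g126 hb
  rcases Nat.lt_or_ge f 769 with g127 | g127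
  · exact chB_true k187_433 g126 g127 hb
  rcases Nat.lt_or_ge f 770 with g128 | g128
  · exact chB_true k187_769 g127 g128 hb
  rcases Nat.lt_or_ge f 771 with g129 | g129
  · exact chB_true k187_770 g128 g129 hb
  rcases Nat.lt_or_ge f 773 with g130 | g130
  · exact chB_true k187_771 g129 g130 hb
  rcases Nat.lt_or_ge f 774 with g131 | g131
  · exact chB_true k187_773 g130 g131 hb
  rcases Nat.lt_or_ge f 781 with g132 | g132
  · exact chB_true k187_774 g131 g132 hb
  rcases Nat.lt_or_ge f 789 with g133 | g133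
  · exact chB_true k187_781 g132 g133 hb
  rcases Nat.lt_or_ge f 791 with g134 | g134
  · exact chB_true k187_789 g133 g134 hb
  rcases Nat.lt_or_ge f 801 with g135 | g135
  · exact chB_true k187_791 g134 g135 hb
  rcases Nat.lt_or_ge f 802 with g136 | g136
  · exact chB_true k187_801 g135 g136 hb
  rcases Nat.lt_or_ge f 803 with g137 | g137
  · exact chB_true k187_802 g136 g137 hb
  rcases Nat.lt_or_ge f 805 with g138 | g138
  · exact chB_true k187_803 g137 g138 hb
  rcases Nat.lt_or_ge f 833 with g139 | g139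
  · exact chB_true k187_805 g138 g139 hb
  rcases Nat.lt_or_ge f 837 with g140 | g140
  · exact chB_true k187_833 g139 g140 hb
  rcases Nat.lt_or_ge f 865 with g141 | g141
  · exact chB_true k187_837 g140 g141 hb
  rcases Nat.lt_or_ge f 897 with g142 | g142
  · exact chB_true k187_865 g141 g142 hb
  rcases Nat.lt_or_ge f 898 with g143 | g143
  · exact chB_true k187_897 g142 g143 hb
  rcases Nat.lt_or_ge f 899 with g144 | g144
  · exact chB_true k187_898 g143 g144 hb
  exact chB_true k187_899 g144 hf hb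

theorem ka220 {f : ℕ} (hf : f < 1024) (hb : Nat.beq (Nat.mod (Nat.shiftRight rq220 f) 2) 1 = true) : chm 220 f = true := by
  rcases Nat.lt_or_ge f 1 with g0 | g0
  · exact chB_true k220_0 (Nat.zero_le _) g0 hb
  rcases Nat.lt_or_ge f 2 with g1 | g1
  · exact chB_true k220_1 g0 g1 hb
  rcases Nat.lt_or_ge f 4 with g2 | g2
  · exact chB_true k220_2 g1 g2 hb
  rcases Nat.lt_or_ge f 5 with g3 | g3
  · exact chB_true k220_4 g2 g3 hb
  rcases Nat.lt_or_ge f 6 with g4 | g4
  · exact chB_true k220_5 g3 g4 hb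
  rcases Nat.lt_or_ge f 11 with g5 | g5
  · exact chB_true k220_6 g4 g5 hb
  rcases Nat.lt_or_ge f 13 with g6 | g6
  · exact chB_true k220_11 g5 g6 hb
  rcases Nat.lt_or_ge f 14 with g7 | g7
  · exact chB_true k220_13 g6 g7 hb
  rcases Nat.lt_or_ge f 19 with g8 | g8
  · exact chB_true k220_14 g7 g8 hb
  rcases Nat.lt_or_ge f 20 with g9 | g9
  · exact chB_true k220_19 g8 g9 hb
  rcases Nat.lt_or_ge f 34 with g10 | g10
  · exact chB_true k220_20 g9 g10 hb
  rcases Nat.lt_or_ge f 37 with g11 | g11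
  · exact chB_true k220_34 g10 g11 hb
  rcases Nat.lt_or_ge f 77 with g12 | g12
  · exact chB_true k220_37 g11 g12 hb
  rcases Nat.lt_or_ge f 83 with g13 | g13
  · exact chB_true k220_77 g12 g13 hb
  rcases Nat.lt_or_ge f 85 with g14 | g14
  · exact chB_true k220_83 g13 g14 hb
  rcases Nat.lt_or_ge f 237 with g15 | g15
  · exact chB_true k220_85 g14 g15 hb
  rcases Nat.lt_or_ge f 243 with g16 | g16
  · exact chB_true k220_237 g15 g16 hb
  rcases Nat.lt_or_ge f 274 with g17 | g17
  · exact chB_true k220_243 g16 g17 hb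
  rcases Nat.lt_or_ge f 276 with g18 | g18
  · exact chB_true k220_274 g17 g18 hb
  rcases Nat.lt_or_ge f 370 with g19 | g19
  · exact chB_true k220_276 g18 g19 hb
  exact chB_true k220_370 g19 hf hb

theorem ka221 {f : ℕ} (hf : f < 1024) (hb : Nat.beq (Nat.mod (Nat.shiftRight rq221 f) 2) 1 = true) : chm 221 f = true := by
  rcases Nat.lt_or_ge f 1 with g0 | g0
  · exact chB_true k221_0 (Nat.zero_le _) g0 hb
  rcases Nat.lt_or_ge f 2 with g1 | g1
  · exact chB_true k221_1 g0 g1 hb
  rcases Nat.lt_or_ge f 4 with g2 | g2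
  · exact chB_true k221_2 g1 g2 hb
  rcases Nat.lt_or_ge f 5 with g3 | g3
  · exact chB_true k221_4 g2 g3 hb
  rcases Nat.lt_or_ge f 6 with g4 | g4
  · exact chB_true k221_5 g3 g4 hb
  rcases Nat.lt_or_ge f 9 with g5 | g5
  · exact chB_true k221_6 g4 g5 hb
  rcases Nat.lt_or_ge f 10 with g6 | g6
  · exact chB_true k221_9 g5 g6 hb
  rcases Nat.lt_or_ge f 11 with g7 | g7
  · exact chB_true k221_10 g6 g7 hb
  rcases Nat.lt_or_ge f 13 with g8 | g8
  · exact chB_true k221_11 g7 g8 hb
  rcases Nat.lt_or_ge f 14 with g9 | g9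
  · exact chB_true k221_13 g8 g9 hb
  rcases Nat.lt_or_ge f 17 with g10 | g10
  · exact chB_true k221_14 g9 g10 hb
  rcases Nat.lt_or_ge f 18 with g11 | g11
  · exact chB_true k221_17 g10 g11 hb
  rcases Nat.lt_or_ge f 19 with g12 | g12
  · exact chB_true k221_18 g11 g12 hb
  rcases Nat.lt_or_ge f 20 with g13 | g13
  · exact chB_true k221_19 g12 g13 hb
  rcases Nat.lt_or_ge f 21 with g14 | g14
  · exact chB_true k221_20 g13 g14 hb
  rcases Nat.lt_or_ge f 25 with g15 | g15
  · exact chB_true k221_21 g14 g15 hb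
  rcases Nat.lt_or_ge f 27 with g16 | g16
  · exact chB_true k221_25 g15 g16 hb
  rcases Nat.lt_or_ge f 29 with g17 | g17
  · exact chB_true k221_27 g16 g17 hb
  rcases Nat.lt_or_ge f 33 with g18 | g18
  · exact chB_true k221_29 g17 g18 hb
  rcases Nat.lt_or_ge f 34 with g19 | g19
  · exact chB_true k221_33 g18 g19 hb
  rcases Nat.lt_or_ge f 35 with g20 | g20
  · exact chB_true k221_34 g19 g20 hb
  rcases Nat.lt_or_ge f 37 with g21 | g21
  · exact chB_true k221_35 g20 g21 hb
  rcases Nat.lt_or_ge f 41 with g22 | g22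
  · exact chB_true k221_37 g21 g22 hb
  rcases Nat.lt_or_ge f 42 with g23 | g23
  · exact chB_true k221_41 g22 g23 hb
  rcases Nat.lt_or_ge f 49 with g24 | g24
  · exact chB_true k221_42 g23 g24 hb
  rcases Nat.lt_or_ge f 73 with g25 | g25
  · exact chB_true k221_49 g24 g25 hb
  rcases Nat.lt_or_ge f 74 with g26 | g26
  · exact chB_true k221_73 g25 g26 hb
  rcases Nat.lt_or_ge f 77 with g27 | g27
  · exact chB_true k221_74 g26 g27 hb
  rcases Nat.lt_or_ge f 81 with g28 | g28
  · exact chB_true k221_77 g27 g28 hb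
  rcases Nat.lt_or_ge f 82 with g29 | g29
  · exact chB_true k221_81 g28 g29 hb
  rcases Nat.lt_or_ge f 83 with g30 | g30
  · exact chB_true k221_82 g29 g30 hb
  rcases Nat.lt_or_ge f 85 with g31 | g31
  · exact chB_true k221_83 g30 g31 hb
  rcases Nat.lt_or_ge f 89 with g32 | g32
  · exact chB_true k221_85 g31 g32 hb
  rcases Nat.lt_or_ge f 91 with g33 | g33
  · exact chB_true k221_89 g32 g33 hb
  rcases Nat.lt_or_ge f 93 with g34 | g34
  · exact chB_true k221_91 g33 g34 hb
  rcases Nat.lt_or_ge f 97 with g35 | g35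
  · exact chB_true k221_93 g34 g35 hb
  rcases Nat.lt_or_ge f 98 with g36 | g36
  · exact chB_true k221_97 g35 g36 hb
  rcases Nat.lt_or_ge f 99 with g37 | g37
  · exact chB_true k221_98 g36 g37 hb
  rcases Nat.lt_or_ge f 101 with g38 | g38
  · exact chB_true k221_99 g37 g38 hb
  rcases Nat.lt_or_ge f 105 with g39 | g39
  · exact chB_true k221_101 g38 g39 hb
  rcases Nat.lt_or_ge f 106 with g40 | g40
  · exact chB_true k221_105 g39 g40 hb
  rcases Nat.lt_or_ge f 113 with g41 | g41
  · exact chB_true k221_106 g40 g41 hb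
  rcases Nat.lt_or_ge f 114 with g42 | g42
  · exact chB_true k221_113 g41 g42 hb
  rcases Nat.lt_or_ge f 145 with g43 | g43
  · exact chB_true k221_114 g42 g43 hb
  rcases Nat.lt_or_ge f 146 with g44 | g44
  · exact chB_true k221_145 g43 g44 hb
  rcases Nat.lt_or_ge f 147 with g45 | g45
  · exact chB_true k221_146 g44 g45 hb
  rcases Nat.lt_or_ge f 149 with g46 | g46
  · exact chB_true k221_147 g45 g46 hb
  rcases Nat.lt_or_ge f 153 with g47 | g47
  · exact chB_true k221_149 g46 g47 hb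
  rcases Nat.lt_or_ge f 155 with g48 | g48
  · exact chB_true k221_153 g47 g48 hb
  rcases Nat.lt_or_ge f 157 with g49 | g49
  · exact chB_true k221_155 g48 g49 hb
  rcases Nat.lt_or_ge f 161 with g50 | g50
  · exact chB_true k221_157 g49 g50 hb
  rcases Nat.lt_or_ge f 162 with g51 | g51
  · exact chB_true k221_161 g50 g51 hb
  rcases Nat.lt_or_ge f 165 with g52 | g52
  · exact chB_true k221_162 g51 g52 hb
  rcases Nat.lt_or_ge f 169 with g53 | g53
  · exact chB_true k221_165 g52 g53 hb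
  rcases Nat.lt_or_ge f 170 with g54 | g54
  · exact chB_true k221_169 g53 g54 hb
  rcases Nat.lt_or_ge f 177 with g55 | g55
  · exact chB_true k221_170 g54 g55 hb
  rcases Nat.lt_or_ge f 209 with g56 | g56
  · exact chB_true k221_177 g55 g56 hb
  rcases Nat.lt_or_ge f 211 with g57 | g57
  · exact chB_true k221_209 g56 g57 hb
  rcases Nat.lt_or_ge f 217 with g58 | g58
  · exact chB_true k221_211 g57 g58 hb
  rcases Nat.lt_or_ge f 219 with g59 | g59
  · exact chB_true k221_217 g58 g59 hb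
  rcases Nat.lt_or_ge f 221 with g60 | g60
  · exact chB_true k221_219 g59 g60 hb
  rcases Nat.lt_or_ge f 233 with g61 | g61
  · exact chB_true k221_221 g60 g61 hb
  rcases Nat.lt_or_ge f 237 with g62 | g62
  · exact chB_true k221_233 g61 g62 hb
  rcases Nat.lt_or_ge f 241 with g63 | g63
  · exact chB_true k221_237 g62 g63 hb
  rcases Nat.lt_or_ge f 243 with g64 | g64
  · exact chB_true k221_241 g63 g64 hb
  rcases Nat.lt_or_ge f 249 with g65 | g65
  · exact chB_true k221_243 g64 g65 hb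
  rcases Nat.lt_or_ge f 273 with g66 | g66
  · exact chB_true k221_249 g65 g66 hb
  rcases Nat.lt_or_ge f 274 with g67 | g67
  · exact chB_true k221_273 g66 g67 hb
  rcases Nat.lt_or_ge f 276 with g68 | g68
  · exact chB_true k221_274 g67 g68 hb
  rcases Nat.lt_or_ge f 277 with g69 | g69
  · exact chB_true k221_276 g68 g69 hb
  rcases Nat.lt_or_ge f 281 with g70 | g70
  · exact chB_true k221_277 g69 g70 hb
  rcases Nat.lt_or_ge f 283 with g71 | g71
  · exact chB_true k221_281 g70 g71 hb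
  rcases Nat.lt_or_ge f 285 with g72 | g72
  · exact chB_true k221_283 g71 g72 hb
  rcases Nat.lt_or_ge f 305 with g73 | g73
  · exact chB_true k221_285 g72 g73 hb
  rcases Nat.lt_or_ge f 345 with g74 | g74
  · exact chB_true k221_305 g73 g74 hb
  rcases Nat.lt_or_ge f 349 with g75 | g75
  · exact chB_true k221_345 g74 g75 hb
  rcases Nat.lt_or_ge f 369 with g76 | g76
  · exact chB_true k221_349 g75 g76 hb
  rcases Nat.lt_or_ge f 370 with g77 | g77
  · exact chB_true k221_369 g76 g77 hb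
  rcases Nat.lt_or_ge f 377 with g78 | g78
  · exact chB_true k221_370 g77 g78 hb
  rcases Nat.lt_or_ge f 513 with g79 | g79
  · exact chB_true k221_377 g78 g79 hb
  rcases Nat.lt_or_ge f 514 with g80 | g80
  · exact chB_true k221_513 g79 g80 hb
  rcases Nat.lt_or_ge f 516 with g81 | g81
  · exact chB_true k221_514 g80 g81 hb
  rcases Nat.lt_or_ge f 517 with g82 | g82
  · exact chB_true k221_516 g81 g82 hb
  rcases Nat.lt_or_ge f 518 with g83 | g83
  · exact chB_true k221_517 g82 g83 hb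
  rcases Nat.lt_or_ge f 521 with g84 | g84
  · exact chB_true k221_518 g83 g84 hb
  rcases Nat.lt_or_ge f 522 with g85 | g85
  · exact chB_true k221_521 g84 g85 hb
  rcases Nat.lt_or_ge f 523 with g86 | g86
  · exact chB_true k221_522 g85 g86 hb
  rcases Nat.lt_or_ge f 525 with g87 | g87
  · exact chB_true k221_523 g86 g87 hb
  rcases Nat.lt_or_ge f 526 with g88 | g88
  · exact chB_true k221_525 g87 g88 hb
  rcases Nat.lt_or_ge f 529 with g89 | g89
  · exact chB_true k221_526 g88 g89 hb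
  rcases Nat.lt_or_ge f 530 with g90 | g90
  · exact chB_true k221_529 g89 g90 hb
  rcases Nat.lt_or_ge f 531 with g91 | g91
  · exact chB_true k221_530 g90 g91 hb
  rcases Nat.lt_or_ge f 532 with g92 | g92
  · exact chB_true k221_531 g91 g92 hb
  rcases Nat.lt_or_ge f 533 with g93 | g93
  · exact chB_true k221_532 g92 g93 hb
  rcases Nat.lt_or_ge f 537 with g94 | g94
  · exact chB_true k221_533 g93 g94 hb
  rcases Nat.lt_or_ge f 545 with g95 | g95
  · exact chB_true k221_537 g94 g95 hb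
  rcases Nat.lt_or_ge f 546 with g96 | g96
  · exact chB_true k221_545 g95 g96 hb
  rcases Nat.lt_or_ge f 547 with g97 | g97
  · exact chB_true k221_546 g96 g97 hb
  rcases Nat.lt_or_ge f 549 with g98 | g98
  · exact chB_true k221_547 g97 g98 hb
  rcases Nat.lt_or_ge f 553 with g99 | g99
  · exact chB_true k221_549 g98 g99 hb
  rcases Nat.lt_or_ge f 561 with g100 | g100
  · exact chB_true k221_553 g99 g100 hb
  rcases Nat.lt_or_ge f 593 with g101 | g101
  · exact chB_true k221_561 g100 g101 hb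
  rcases Nat.lt_or_ge f 594 with g102 | g102
  · exact chB_true k221_593 g101 g102 hb
  rcases Nat.lt_or_ge f 595 with g103 | g103
  · exact chB_true k221_594 g102 g103 hb
  rcases Nat.lt_or_ge f 596 with g104 | g104
  · exact chB_true k221_595 g103 g104 hb
  rcases Nat.lt_or_ge f 597 with g105 | g105
  · exact chB_true k221_596 g104 g105 hb
  rcases Nat.lt_or_ge f 598 with g106 | g106
  · exact chB_true k221_597 g105 g106 hb
  rcases Nat.lt_or_ge f 599 with g107 | g107
  · exact chB_true k221_598 g106 g107 hb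
  rcases Nat.lt_or_ge f 609 with g108 | g108
  · exact chB_true k221_599 g107 g108 hb
  rcases Nat.lt_or_ge f 610 with g109 | g109
  · exact chB_true k221_609 g108 g109 hb
  rcases Nat.lt_or_ge f 613 with g110 | g110
  · exact chB_true k221_610 g109 g110 hb
  rcases Nat.lt_or_ge f 614 with g111 | g111
  · exact chB_true k221_613 g110 g111 hb
  rcases Nat.lt_or_ge f 625 with g112 | g112
  · exact chB_true k221_614 g111 g112 hb
  rcases Nat.lt_or_ge f 626 with g113 | g113
  · exact chB_true k221_625 g112 g113 hb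
  rcases Nat.lt_or_ge f 657 with g114 | g114
  · exact chB_true k221_626 g113 g114 hb
  rcases Nat.lt_or_ge f 658 with g115 | g115
  · exact chB_true k221_657 g114 g115 hb
  rcases Nat.lt_or_ge f 659 with g116 | g116
  · exact chB_true k221_658 g115 g116 hb
  rcases Nat.lt_or_ge f 662 with g117 | g117
  · exact chB_true k221_659 g116 g117 hb
  rcases Nat.lt_or_ge f 663 with g118 | g118
  · exact chB_true k221_662 g117 g118 hb
  rcases Nat.lt_or_ge f 665 with g119 | g119
  · exact chB_true k221_663 g118 g119 hb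
  rcases Nat.lt_or_ge f 673 with g120 | g120
  · exact chB_true k221_665 g119 g120 hb
  rcases Nat.lt_or_ge f 674 with g121 | g121
  · exact chB_true k221_673 g120 g121 hb
  rcases Nat.lt_or_ge f 676 with g122 | g122
  · exact chB_true k221_674 g121 g122 hb
  rcases Nat.lt_or_ge f 677 with g123 | g123
  · exact chB_true k221_676 g122 g123 hb
  rcases Nat.lt_or_ge f 678 with g124 | g124
  · exact chB_true k221_677 g123 g124 hb
  rcases Nat.lt_or_ge f 681 with g125 | g125
  · exact chB_true k221_678 g124 g125 hb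
  rcases Nat.lt_or_ge f 685 with g126 | g126
  · exact chB_true k221_681 g125 g126 hb
  rcases Nat.lt_or_ge f 725 with g127 | g127
  · exact chB_true k221_685 g126 g127 hb
  rcases Nat.lt_or_ge f 785 with g128 | g128
  · exact chB_true k221_725 g127 g128 hb
  rcases Nat.lt_or_ge f 786 with g129 | g129
  · exact chB_true k221_785 g128 g129 hb
  rcases Nat.lt_or_ge f 788 with g130 | g130
  · exact chB_true k221_786 g129 g130 hb
  rcases Nat.lt_or_ge f 789 with g131 | g131
  · exact chB_true k221_788 g130 g131 hb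
  rcases Nat.lt_or_ge f 790 with g132 | g132
  · exact chB_true k221_789 g131 g132 hb
  rcases Nat.lt_or_ge f 793 with g133 | g133
  · exact chB_true k221_790 g132 g133 hb
  exact chB_true k221_793 g133 hf hb

theorem ka254 {f : ℕ} (hf : f < 1024) (hb : Nat.beq (Nat.mod (Nat.shiftRight rq254 f) 2) 1 = true) : chm 254 f = true := by
  rcases Nat.lt_or_ge f 1 with g0 | g0
  · exact chB_true k254_0 (Nat.zero_le _) g0 hb
  rcases Nat.lt_or_ge f 2 with g1 | g1
  · exact chB_true k254_1 g0 g1 hb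
  rcases Nat.lt_or_ge f 4 with g2 | g2
  · exact chB_true k254_2 g1 g2 hb
  rcases Nat.lt_or_ge f 5 with g3 | g3
  · exact chB_true k254_4 g2 g3 hb
  rcases Nat.lt_or_ge f 6 with g4 | g4
  · exact chB_true k254_5 g3 g4 hb
  rcases Nat.lt_or_ge f 8 with g5 | g5
  · exact chB_true k254_6 g4 g5 hb
  rcases Nat.lt_or_ge f 9 with g6 | g6
  · exact chB_true k254_8 g5 g6 hb
  rcases Nat.lt_or_ge f 10 with g7 | g7
  · exact chB_true k254_9 g6 g7 hb
  rcases Nat.lt_or_ge f 12 with g8 | g8
  · exact chB_true k254_10 g7 g8 hb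
  rcases Nat.lt_or_ge f 13 with g9 | g9
  · exact chB_true k254_12 g8 g9 hb
  rcases Nat.lt_or_ge f 14 with g10 | g10
  · exact chB_true k254_13 g9 g10 hb
  rcases Nat.lt_or_ge f 16 with g11 | g11
  · exact chB_true k254_14 g10 g11 hb
  rcases Nat.lt_or_ge f 17 with g12 | g12
  · exact chB_true k254_16 g11 g12 hb
  rcases Nat.lt_or_ge f 18 with g13 | g13
  · exact chB_true k254_17 g12 g13 hb
  rcases Nat.lt_or_ge f 19 with g14 | g14
  · exact chB_true k254_18 g13 g14 hb
  rcases Nat.lt_or_ge f 20 with g15 | g15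
  · exact chB_true k254_19 g14 g15 hb
  rcases Nat.lt_or_ge f 21 with g16 | g16
  · exact chB_true k254_20 g15 g16 hb
  rcases Nat.lt_or_ge f 22 with g17 | g17
  · exact chB_true k254_21 g16 g17 hb
  rcases Nat.lt_or_ge f 23 with g18 | g18
  · exact chB_true k254_22 g17 g18 hb
  rcases Nat.lt_or_ge f 24 with g19 | g19
  · exact chB_true k254_23 g18 g19 hb
  rcases Nat.lt_or_ge f 25 with g20 | g20
  · exact chB_true k254_24 g19 g20 hb
  rcases Nat.lt_or_ge f 27 with g21 | g21
  · exact chB_true k254_25 g20 g21 hb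
  rcases Nat.lt_or_ge f 29 with g22 | g22
  · exact chB_true k254_27 g21 g22 hb
  rcases Nat.lt_or_ge f 31 with g23 | g23
  · exact chB_true k254_29 g22 g23 hb
  rcases Nat.lt_or_ge f 49 with g24 | g24
  · exact chB_true k254_31 g23 g24 hb
  rcases Nat.lt_or_ge f 50 with g25 | g25
  · exact chB_true k254_49 g24 g25 hb
  rcases Nat.lt_or_ge f 52 with g26 | g26
  · exact chB_true k254_50 g25 g26 hb
  rcases Nat.lt_or_ge f 57 with g27 | g27
  · exact chB_true k254_52 g26 g27 hb
  rcases Nat.lt_or_ge f 73 with g28 | g28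
  · exact chB_true k254_57 g27 g28 hb
  rcases Nat.lt_or_ge f 74 with g29 | g29
  · exact chB_true k254_73 g28 g29 hb
  rcases Nat.lt_or_ge f 76 with g30 | g30
  · exact chB_true k254_74 g29 g30 hb
  rcases Nat.lt_or_ge f 77 with g31 | g31
  · exact chB_true k254_76 g30 g31 hb
  rcases Nat.lt_or_ge f 78 with g32 | g32
  · exact chB_true k254_77 g31 g32 hb
  rcases Nat.lt_or_ge f 80 with g33 | g33
  · exact chB_true k254_78 g32 g33 hb
  rcases Nat.lt_or_ge f 81 with g34 | g34
  · exact chB_true k254_80 g33 g34 hb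
  rcases Nat.lt_or_ge f 82 with g35 | g35
  · exact chB_true k254_81 g34 g35 hb
  rcases Nat.lt_or_ge f 83 with g36 | g36
  · exact chB_true k254_82 g35 g36 hb
  rcases Nat.lt_or_ge f 84 with g37 | g37
  · exact chB_true k254_83 g36 g37 hb
  rcases Nat.lt_or_ge f 85 with g38 | g38
  · exact chB_true k254_84 g37 g38 hb
  rcases Nat.lt_or_ge f 86 with g39 | g39
  · exact chB_true k254_85 g38 g39 hb
  rcases Nat.lt_or_ge f 87 with g40 | g40
  · exact chB_true k254_86 g39 g40 hb
  rcases Nat.lt_or_ge f 88 with g41 | g41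
  · exact chB_true k254_87 g40 g41 hb
  rcases Nat.lt_or_ge f 89 with g42 | g42
  · exact chB_true k254_88 g41 g42 hb
  rcases Nat.lt_or_ge f 91 with g43 | g43
  · exact chB_true k254_89 g42 g43 hb
  rcases Nat.lt_or_ge f 93 with g44 | g44
  · exact chB_true k254_91 g43 g44 hb
  rcases Nat.lt_or_ge f 95 with g45 | g45
  · exact chB_true k254_93 g44 g45 hb
  rcases Nat.lt_or_ge f 113 with g46 | g46
  · exact chB_true k254_95 g45 g46 hb
  rcases Nat.lt_or_ge f 114 with g47 | g47
  · exact chB_true k254_113 g46 g47 hb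
  rcases Nat.lt_or_ge f 116 with g48 | g48
  · exact chB_true k254_114 g47 g48 hb
  rcases Nat.lt_or_ge f 121 with g49 | g49
  · exact chB_true k254_116 g48 g49 hb
  rcases Nat.lt_or_ge f 145 with g50 | g50
  · exact chB_true k254_121 g49 g50 hb
  rcases Nat.lt_or_ge f 146 with g51 | g51
  · exact chB_true k254_145 g50 g51 hb
  rcases Nat.lt_or_ge f 147 with g52 | g52
  · exact chB_true k254_146 g51 g52 hb
  rcases Nat.lt_or_ge f 148 with g53 | g53
  · exact chB_true k254_147 g52 g53 hb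
  rcases Nat.lt_or_ge f 149 with g54 | g54
  · exact chB_true k254_148 g53 g54 hb
  rcases Nat.lt_or_ge f 150 with g55 | g55
  · exact chB_true k254_149 g54 g55 hb
  rcases Nat.lt_or_ge f 151 with g56 | g56
  · exact chB_true k254_150 g55 g56 hb
  rcases Nat.lt_or_ge f 153 with g57 | g57
  · exact chB_true k254_151 g56 g57 hb
  rcases Nat.lt_or_ge f 155 with g58 | g58
  · exact chB_true k254_153 g57 g58 hb
  rcases Nat.lt_or_ge f 157 with g59 | g59
  · exact chB_true k254_155 g58 g59 hb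
  rcases Nat.lt_or_ge f 159 with g60 | g60
  · exact chB_true k254_157 g59 g60 hb
  rcases Nat.lt_or_ge f 161 with g61 | g61
  · exact chB_true k254_159 g60 g61 hb
  rcases Nat.lt_or_ge f 162 with g62 | g62
  · exact chB_true k254_161 g61 g62 hb
  rcases Nat.lt_or_ge f 164 with g63 | g63
  · exact chB_true k254_162 g62 g63 hb
  rcases Nat.lt_or_ge f 165 with g64 | g64
  · exact chB_true k254_164 g63 g64 hb
  rcases Nat.lt_or_ge f 166 with g65 | g65
  · exact chB_true k254_165 g64 g65 hb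
  rcases Nat.lt_or_ge f 168 with g66 | g66
  · exact chB_true k254_166 g65 g66 hb
  rcases Nat.lt_or_ge f 169 with g67 | g67
  · exact chB_true k254_168 g66 g67 hb
  rcases Nat.lt_or_ge f 170 with g68 | g68
  · exact chB_true k254_169 g67 g68 hb
  rcases Nat.lt_or_ge f 173 with g69 | g69
  · exact chB_true k254_170 g68 g69 hb
  rcases Nat.lt_or_ge f 174 with g70 | g70
  · exact chB_true k254_173 g69 g70 hb
  rcases Nat.lt_or_ge f 177 with g71 | g71
  · exact chB_true k254_174 g70 g71 hb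
  rcases Nat.lt_or_ge f 178 with g72 | g72
  · exact chB_true k254_177 g71 g72 hb
  rcases Nat.lt_or_ge f 179 with g73 | g73
  · exact chB_true k254_178 g72 g73 hb
  rcases Nat.lt_or_ge f 180 with g74 | g74
  · exact chB_true k254_179 g73 g74 hb
  rcases Nat.lt_or_ge f 185 with g75 | g75
  · exact chB_true k254_180 g74 g75 hb
  rcases Nat.lt_or_ge f 217 with g76 | g76
  · exact chB_true k254_185 g75 g76 hb
  rcases Nat.lt_or_ge f 219 with g77 | g77
  · exact chB_true k254_217 g76 g77 hb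
  rcases Nat.lt_or_ge f 221 with g78 | g78
  · exact chB_true k254_219 g77 g78 hb
  rcases Nat.lt_or_ge f 223 with g79 | g79
  · exact chB_true k254_221 g78 g79 hb
  rcases Nat.lt_or_ge f 233 with g80 | g80
  · exact chB_true k254_223 g79 g80 hb
  rcases Nat.lt_or_ge f 237 with g81 | g81
  · exact chB_true k254_233 g80 g81 hb
  rcases Nat.lt_or_ge f 241 with g82 | g82
  · exact chB_true k254_237 g81 g82 hb
  rcases Nat.lt_or_ge f 243 with g83 | g83
  · exact chB_true k254_241 g82 g83 hb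
  rcases Nat.lt_or_ge f 249 with g84 | g84
  · exact chB_true k254_243 g83 g84 hb
  rcases Nat.lt_or_ge f 433 with g85 | g85
  · exact chB_true k254_249 g84 g85 hb
  rcases Nat.lt_or_ge f 434 with g86 | g86
  · exact chB_true k254_433 g85 g86 hb
  rcases Nat.lt_or_ge f 436 with g87 | g87
  · exact chB_true k254_434 g86 g87 hb
  rcases Nat.lt_or_ge f 441 with g88 | g88
  · exact chB_true k254_436 g87 g88 hb
  rcases Nat.lt_or_ge f 505 with g89 | g89
  · exact chB_true k254_441 g88 g89 hb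
  rcases Nat.lt_or_ge f 513 with g90 | g90
  · exact chB_true k254_505 g89 g90 hb
  rcases Nat.lt_or_ge f 514 with g91 | g91
  · exact chB_true k254_513 g90 g91 hb
  rcases Nat.lt_or_ge f 516 with g92 | g92
  · exact chB_true k254_514 g91 g92 hb
  rcases Nat.lt_or_ge f 517 with g93 | g93
  · exact chB_true k254_516 g92 g93 hb
  rcases Nat.lt_or_ge f 518 with g94 | g94
  · exact chB_true k254_517 g93 g94 hb
  rcases Nat.lt_or_ge f 520 with g95 | g95
  · exact chB_true k254_518 g94 g95 hb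
  rcases Nat.lt_or_ge f 521 with g96 | g96
  · exact chB_true k254_520 g95 g96 hb
  rcases Nat.lt_or_ge f 522 with g97 | g97
  · exact chB_true k254_521 g96 g97 hb
  rcases Nat.lt_or_ge f 524 with g98 | g98
  · exact chB_true k254_522 g97 g98 hb
  rcases Nat.lt_or_ge f 525 with g99 | g99
  · exact chB_true k254_524 g98 g99 hb
  rcases Nat.lt_or_ge f 526 with g100 | g100
  · exact chB_true k254_525 g99 g100 hb
  rcases Nat.lt_or_ge f 528 with g101 | g101
  · exact chB_true k254_526 g100 g101 hb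
  rcases Nat.lt_or_ge f 529 with g102 | g102
  · exact chB_true k254_528 g101 g102 hb
  rcases Nat.lt_or_ge f 530 with g103 | g103
  · exact chB_true k254_529 g102 g103 hb
  rcases Nat.lt_or_ge f 531 with g104 | g104
  · exact chB_true k254_530 g103 g104 hb
  rcases Nat.lt_or_ge f 532 with g105 | g105
  · exact chB_true k254_531 g104 g105 hb
  rcases Nat.lt_or_ge f 533 with g106 | g106
  · exact chB_true k254_532 g105 g106 hb
  rcases Nat.lt_or_ge f 534 with g107 | g107
  · exact chB_true k254_533 g106 g107 hb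
  rcases Nat.lt_or_ge f 535 with g108 | g108
  · exact chB_true k254_534 g107 g108 hb
  rcases Nat.lt_or_ge f 536 with g109 | g109
  · exact chB_true k254_535 g108 g109 hb
  rcases Nat.lt_or_ge f 537 with g110 | g110
  · exact chB_true k254_536 g109 g110 hb
  rcases Nat.lt_or_ge f 539 with g111 | g111
  · exact chB_true k254_537 g110 g111 hb
  rcases Nat.lt_or_ge f 541 with g112 | g112
  · exact chB_true k254_539 g111 g112 hb
  rcases Nat.lt_or_ge f 543 with g113 | g113
  · exact chB_true k254_541 g112 g113 hb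
  rcases Nat.lt_or_ge f 561 with g114 | g114
  · exact chB_true k254_543 g113 g114 hb
  rcases Nat.lt_or_ge f 562 with g115 | g115
  · exact chB_true k254_561 g114 g115 hb
  rcases Nat.lt_or_ge f 564 with g116 | g116
  · exact chB_true k254_562 g115 g116 hb
  rcases Nat.lt_or_ge f 569 with g117 | g117
  · exact chB_true k254_564 g116 g117 hb
  rcases Nat.lt_or_ge f 593 with g118 | g118
  · exact chB_true k254_569 g117 g118 hb
  rcases Nat.lt_or_ge f 594 with g119 | g119
  · exact chB_true k254_593 g118 g119 hb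
  rcases Nat.lt_or_ge f 595 with g120 | g120
  · exact chB_true k254_594 g119 g120 hb
  rcases Nat.lt_or_ge f 596 with g121 | g121
  · exact chB_true k254_595 g120 g121 hb
  rcases Nat.lt_or_ge f 597 with g122 | g122
  · exact chB_true k254_596 g121 g122 hb
  rcases Nat.lt_or_ge f 598 with g123 | g123
  · exact chB_true k254_597 g122 g123 hb
  rcases Nat.lt_or_ge f 599 with g124 | g124
  · exact chB_true k254_598 g123 g124 hb
  rcases Nat.lt_or_ge f 600 with g125 | g125
  · exact chB_true k254_599 g124 g125 hb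
  rcases Nat.lt_or_ge f 625 with g126 | g126
  · exact chB_true k254_600 g125 g126 hb
  rcases Nat.lt_or_ge f 657 with g127 | g127
  · exact chB_true k254_625 g126 g127 hb
  rcases Nat.lt_or_ge f 659 with g128 | g128
  · exact chB_true k254_657 g127 g128 hb
  rcases Nat.lt_or_ge f 661 with g129 | g129
  · exact chB_true k254_659 g128 g129 hb
  rcases Nat.lt_or_ge f 663 with g130 | g130
  · exact chB_true k254_661 g129 g130 hb
  rcases Nat.lt_or_ge f 671 with g131 | g131
  · exact chB_true k254_663 g130 g131 hb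
  rcases Nat.lt_or_ge f 673 with g132 | g132
  · exact chB_true k254_671 g131 g132 hb
  rcases Nat.lt_or_ge f 674 with g133 | g133
  · exact chB_true k254_673 g132 g133 hb
  rcases Nat.lt_or_ge f 676 with g134 | g134
  · exact chB_true k254_674 g133 g134 hb
  rcases Nat.lt_or_ge f 677 with g135 | g135
  · exact chB_true k254_676 g134 g135 hb
  rcases Nat.lt_or_ge f 678 with g136 | g136
  · exact chB_true k254_677 g135 g136 hb
  rcases Nat.lt_or_ge f 680 with g137 | g137
  · exact chB_true k254_678 g136 g137 hb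
  rcases Nat.lt_or_ge f 681 with g138 | g138
  · exact chB_true k254_680 g137 g138 hb
  rcases Nat.lt_or_ge f 682 with g139 | g139
  · exact chB_true k254_681 g138 g139 hb
  rcases Nat.lt_or_ge f 685 with g140 | g140
  · exact chB_true k254_682 g139 g140 hb
  rcases Nat.lt_or_ge f 689 with g141 | g141
  · exact chB_true k254_685 g140 g141 hb
  rcases Nat.lt_or_ge f 691 with g142 | g142
  · exact chB_true k254_689 g141 g142 hb
  rcases Nat.lt_or_ge f 692 with g143 | g143
  · exact chB_true k254_691 g142 g143 hb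
  rcases Nat.lt_or_ge f 945 with g144 | g144
  · exact chB_true k254_692 g143 g144 hb
  exact chB_true k254_945 g144 hf hb

end Pool.Agent.T2H13.A7
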