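import Pool.Agent.T2H13.A7.Avg
import Pool.Agent.T2H13.A7.KAll
import Pool.Agent.T2H13.A7.IAll
import Pool.Agent.T2H13.A7.Red

/-! The upper bound for the number of edges. -/

set_option autoImplicit false
set_option linter.unusedVariables false
set_option maxRecDepth 100000
set_option maxHeartbeats 4000000
open Finset
open Pool.Agent.H122R2.N6 (Sy NoK4 Bt k4b)
open Pool.Agent.W843.N7 (TE isB)

namespace Pool.Agent.T2H13.A7

noncomputable section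

theorem cT {x y : ℕ} {c : Bool} (h : c = true) : Pool.Agent.W843.N7.cnd c x y = x := by subst h; rfl
theorem cF {x y : ℕ} {c : Bool} (h : c = false) : Pool.Agent.W843.N7.cnd c x y = y := by subst h; rfl

theorem rv0 : Pool.Agent.W843.N7.rmv0 = rq0 := rfl
theorem rv1 : Pool.Agent.W843.N7.rmv1 = rq1 := rfl
theorem rv3 : Pool.Agent.W843.N7.rmv3 = rq3 := rfl
theorem rv7 : Pool.Agent.W843.N7.rmv7 = rq7 := rfl
theorem rv19 : Pool.Agent.W843.N7.rmv19 = rq19 := rfl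
theorem rv20 : Pool.Agent.W843.N7.rmv20 = rq20 := rfl
theorem rv21 : Pool.Agent.W843.N7.rmv21 = rq21 := rfl
theorem rv23 : Pool.Agent.W843.N7.rmv23 = rq23 := rfl
theorem rv28 : Pool.Agent.W843.N7.rmv28 = rq28 := rfl
theorem rv29 : Pool.Agent.W843.N7.rmv29 = rq29 := rfl
theorem rv54 : Pool.Agent.W843.N7.rmv54 = rq54 := rfl
theorem rv55 : Pool.Agent.W843.N7.rmv55 = rq55 := rfl
theorem rv58 : Pool.Agent.W843.N7.rmv58 = rq58 := rfl
theorem rv59 : Pool.Agent.W843.N7.rmv59 = rq59 := rfl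
theorem rv62 : Pool.Agent.W843.N7.rmv62 = rq62 := rfl
theorem rv126 : Pool.Agent.W843.N7.rmv126 = rq126 := rfl
theorem rv183 : Pool.Agent.W843.N7.rmv183 = rq183 := rfl
theorem rv184 : Pool.Agent.W843.N7.rmv184 = rq184 := rfl
theorem rv185 : Pool.Agent.W843.N7.rmv185 = rq185 := rfl
theorem rv187 : Pool.Agent.W843.N7.rmv187 = rq187 := rfl
theorem rv220 : Pool.Agent.W843.N7.rmv220 = rq220 := rfl
theorem rv221 : Pool.Agent.W843.N7.rmv221 = rq221 := rfl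
theorem rv254 : Pool.Agent.W843.N7.rmv254 = rq254 := rfl

theorem isB_chm {m f : ℕ} (hf : f < 1024) (h : isB m f = true) : chm m f = true := by
  unfold isB Pool.Agent.W843.N7.rm at h
  cases e0 : Nat.beq m 0 with
  | true =>
    rw [cT e0, rv0] at h
    rw [Nat.eq_of_beq_eq_true e0]
    exact ka0 hf h
  | false =>
  rw [cF e0] at h
  cases e1 : Nat.beq m 1 with
  | true =>
    rw [cT e1, rv1] at h
    rw [Nat.eq_of_beq_eq_true e1]
    exact ka1 hf h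
  | false =>
  rw [cF e1] at h
  cases e3 : Nat.beq m 3 with
  | true =>
    rw [cT e3, rv3] at h
    rw [Nat.eq_of_beq_eq_true e3]
    exact ka3 hf h
  | false =>
  rw [cF e3] at h
  cases e7 : Nat.beq m 7 with
  | true =>
    rw [cT e7, rv7] at h
    rw [Nat.eq_of_beq_eq_true e7]
    exact ka7 hf h
  | false =>
  rw [cF e7] at h
  cases e19 : Nat.beq m 19 with
  | true =>
    rw [cT e19, rv19] at h
    rw [Nat.eq_of_beq_eq_true e19]
    exact ka19 hf h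
  | false =>
  rw [cF e19] at h
  cases e20 : Nat.beq m 20 with
  | true =>
    rw [cT e20, rv20] at h
    rw [Nat.eq_of_beq_eq_true e20]
    exact ka20 hf h
  | false =>
  rw [cF e20] at h
  cases e21 : Nat.beq m 21 with
  | true =>
    rw [cT e21, rv21] at h
    rw [Nat.eq_of_beq_eq_true e21]
    exact ka21 hf h
  | false =>
  rw [cF e21] at h
  cases e23 : Nat.beq m 23 with
  | true =>
    rw [cT e23, rv23] at h
    rw [Nat.eq_of_beq_eq_true e23]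
    exact ka23 hf h
  | false =>
  rw [cF e23] at h
  cases e28 : Nat.beq m 28 with
  | true =>
    rw [cT e28, rv28] at h
    rw [Nat.eq_of_beq_eq_true e28]
    exact ka28 hf h
  | false =>
  rw [cF e28] at h
  cases e29 : Nat.beq m 29 with
  | true =>
    rw [cT e29, rv29] at h
    rw [Nat.eq_of_beq_eq_true e29]
    exact ka29 hf h
  | false =>
  rw [cF e29] at h
  cases e54 : Nat.beq m 54 with
  | true =>
    rw [cT e54, rv54] at h
    rw [Nat.eq_of_beq_eq_true e54]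
    exact ka54 hf h
  | false =>
  rw [cF e54] at h
  cases e55 : Nat.beq m 55 with
  | true =>
    rw [cT e55, rv55] at h
    rw [Nat.eq_of_beq_eq_true e55]
    exact ka55 hf h
  | false =>
  rw [cF e55] at h
  cases e58 : Nat.beq m 58 with
  | true =>
    rw [cT e58, rv58] at h
    rw [Nat.eq_of_beq_eq_true e58]
    exact ka58 hf h
  | false =>
  rw [cF e58] at h
  cases e59 : Nat.beq m 59 with
  | true =>
    rw [cT e59, rv59] at h
    rw [Nat.eq_of_beq_eq_true e59]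
    exact ka59 hf h
  | false =>
  rw [cF e59] at h
  cases e62 : Nat.beq m 62 with
  | true =>
    rw [cT e62, rv62] at h
    rw [Nat.eq_of_beq_eq_true e62]
    exact ka62 hf h
  | false =>
  rw [cF e62] at h
  cases e126 : Nat.beq m 126 with
  | true =>
    rw [cT e126, rv126] at h
    rw [Nat.eq_of_beq_eq_true e126]
    exact ka126 hf h
  | false =>
  rw [cF e126] at h
  cases e183 : Nat.beq m 183 with
  | true =>
    rw [cT e183, rv183] at h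
    rw [Nat.eq_of_beq_eq_true e183]
    exact ka183 hf h
  | false =>
  rw [cF e183] at h
  cases e184 : Nat.beq m 184 with
  | true =>
    rw [cT e184, rv184] at h
    rw [Nat.eq_of_beq_eq_true e184]
    exact ka184 hf h
  | false =>
  rw [cF e184] at h
  cases e185 : Nat.beq m 185 with
  | true =>
    rw [cT e185, rv185] at h
    rw [Nat.eq_of_beq_eq_true e185]
    exact ka185 hf h
  | false =>
  rw [cF e185] at h
  cases e187 : Nat.beq m 187 with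
  | true =>
    rw [cT e187, rv187] at h
    rw [Nat.eq_of_beq_eq_true e187]
    exact ka187 hf h
  | false =>
  rw [cF e187] at h
  cases e220 : Nat.beq m 220 with
  | true =>
    rw [cT e220, rv220] at h
    rw [Nat.eq_of_beq_eq_true e220]
    exact ka220 hf h
  | false =>
  rw [cF e220] at h
  cases e221 : Nat.beq m 221 with
  | true =>
    rw [cT e221, rv221] at h
    rw [Nat.eq_of_beq_eq_true e221]
    exact ka221 hf h
  | false =>
  rw [cF e221] at h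
  cases e254 : Nat.beq m 254 with
  | true =>
    rw [cT e254, rv254] at h
    rw [Nat.eq_of_beq_eq_true e254]
    exact ka254 hf h
  | false =>
  rw [cF e254] at h
  have : Nat.mod (Nat.shiftRight 0 f) 2 = 0 := by
    show 0 >>> f % 2 = 0
    rw [Nat.zero_shiftRight]
  rw [this] at h
  exact absurd h (by decide)

section
variable {V : Type} {E : V → V → V → ℕ}

theorem chk_E (hE : Sy E) (a b c d e f : V)
    (h : chm (c10 (E a b c) (E a b d) (E a c d) (E b c d) (E a b e) (E a c e) (E b c e) (E a d e) (E b d e) (E c d e))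
      (c10 (E a b f) (E a c f) (E b c f) (E a d f) (E b d f) (E c d f) (E a e f) (E b e f) (E c e f) (E d e f)) = true) :
    chk (E a b c) (E a b d) (E a c d) (E b c d) (E a b e) (E a c e) (E b c e) (E a d e) (E b d e) (E c d e)
      (E a b f) (E a c f) (E b c f) (E a d f) (E b d f) (E c d f) (E a e f) (E b e f) (E c e f) (E d e f) = true := by
  unfold chm at h
  rw [bt_c10_0 (hE.b _ _ _) (hE.b _ _ _) (hE.b _ _ _) (hE.b _ _ _) (hE.b _ _ _) (hE.b _ _ _) (hE.b _ _ _) (hE.b _ _ _) (hE.b _ _ _) (hE.b _ _ _), bt_c10_1 (hE.b _ _ _) (hE.b _ _ _) (hE.b _ _ _) (hE.b _ _ _) (hE.b _ _ _) (hE.b _ _ _) (hE.b _ _ _) (hE.b _ _ _) (hE.b _ _ _) (hE.b _ _ _), bt_c10_2 (hE.b _ _ _) (hE.b _ _ _) (hE.b _ _ _) (hE.b _ _ _) (hE.b _ _ _) (hE.b _ _ _) (hE.b _ _ _) (hE.b _ _ _) (hE.b _ _ _) (hE.b _ _ _), bt_c10_3 (hE.b _ _ _) (hE.b _ _ _) (hE.b _ _ _) (hE.b _ _ _) (hE.b _ _ _) (hE.b _ _ _) (hE.b _ _ _) (hE.b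 _ _ _) (hE.b _ _ _) (hE.b _ _ _), bt_c10_4 (hE.b _ _ _) (hE.b _ _ _) (hE.b _ _ _) (hE.b _ _ _) (hE.b _ _ _) (hE.b _ _ _) (hE.b _ _ _) (hE.b _ _ _) (hE.b _ _ _) (hE.b _ _ _), bt_c10_5 (hE.b _ _ _) (hE.b _ _ _) (hE.b _ _ _) (hE.b _ _ _) (hE.b _ _ _) (hE.b _ _ _) (hE.b _ _ _) (hE.b _ _ _) (hE.b _ _ _) (hE.b _ _ _), bt_c10_6 (hE.b _ _ _) (hE.b _ _ _) (hE.b _ _ _) (hE.b _ _ _) (hE.b _ _ _) (hE.b _ _ _) (hE.b _ _ _) (hE.b _ _ _) (hE.b _ _ _) (hE.b _ _ _), bt_c10_7 (hE.b _ _ _) (hE.b _ _ _) (hE.b _ _ _) (hE.b _ _ _) (hE.b _ _ _) (hE.b _ _ _) (hE.b _ _ _) (hE.b _ _ _) (hE.b _ _ _) (hE.b _ _ _), bt_c10_8 (hE.b _ _ _) (hE.b _ _ _) (hE.b _ _ _) (hE.b _ _ _) (hE.b _ _ _) (hE.b _ _ _) (hE.b _ _ _) (hE.b _ _ _) (hE.b _ _ _) (hE.b _ _ _), bt_c10_9 (hE.b _ _ _) (hE.b _ _ _) (hE.b _ _ _) (hE.b _ _ _) (hE.b _ _ _) (hE.b _ _ _) (hE.b _ _ _) (hE.b _ _ _) (hE.b _ _ _) (hE.b _ _ _)] at h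
  rw [bt_c10_0 (hE.b _ _ _) (hE.b _ _ _) (hE.b _ _ _) (hE.b _ _ _) (hE.b _ _ _) (hE.b _ _ _) (hE.b _ _ _) (hE.b _ _ _) (hE.b _ _ _) (hE.b _ _ _), bt_c10_1 (hE.b _ _ _) (hE.b _ _ _) (hE.b _ _ _) (hE.b _ _ _) (hE.b _ _ _) (hE.b _ _ _) (hE.b _ _ _) (hE.b _ _ _) (hE.b _ _ _) (hE.b _ _ _), bt_c10_2 (hE.b _ _ _) (hE.b _ _ _) (hE.b _ _ _) (hE.b _ _ _) (hE.b _ _ _) (hE.b _ _ _) (hE.b _ _ _) (hE.b _ _ _) (hE.b _ _ _) (hE.b _ _ _), bt_c10_3 (hE.b _ _ _) (hE.b _ _ _) (hE.b _ _ _) (hE.b _ _ _) (hE.b _ _ _) (hE.b _ _ _) (hE.b _ _ _) (hE.b _ _ _) (hE.b _ _ _) (hE.b _ _ _), bt_c10_4 (hE.b _ _ _) (hE.b _ _ _) (hE.b _ _ _) (hE.b _ _ _) (hE.b _ _ _) (hE.b _ _ _) (hE.b _ _ _) (hE.b _ _ _) (hE.b _ _ _) (hE.b _ _ _), bt_c10_5 (hE.b _ _ _) (hE.b _ _ _) (hE.b _ _ _) (hE.b _ _ _) (hE.b _ _ _) (hE.b _ _ _) (hE.b _ _ _) (hE.b _ _ _) (hE.b _ _ _) (hE.b _ _ _), bt_c10_6 (hE.b _ _ _) (hE.b _ _ _) (hE.b _ _ _) (hE.b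 _ _ _) (hE.b _ _ _) (hE.b _ _ _) (hE.b _ _ _) (hE.b _ _ _) (hE.b _ _ _) (hE.b _ _ _), bt_c10_7 (hE.b _ _ _) (hE.b _ _ _) (hE.b _ _ _) (hE.b _ _ _) (hE.b _ _ _) (hE.b _ _ _) (hE.b _ _ _) (hE.b _ _ _) (hE.b _ _ _) (hE.b _ _ _), bt_c10_8 (hE.b _ _ _) (hE.b _ _ _) (hE.b _ _ _) (hE.b _ _ _) (hE.b _ _ _) (hE.b _ _ _) (hE.b _ _ _) (hE.b _ _ _) (hE.b _ _ _) (hE.b _ _ _), bt_c10_9 (hE.b _ _ _) (hE.b _ _ _) (hE.b _ _ _) (hE.b _ _ _) (hE.b _ _ _) (hE.b _ _ _) (hE.b _ _ _) (hE.b _ _ _) (hE.b _ _ _) (hE.b _ _ _)] at h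
  exact h

theorem LL_base (hC : CH) (hE : Sy E) (hK : NoK4 E) (a b c d e f : V)
    (h : isB (Pool.Agent.W843.N7.c10 (E a b c) (E a b d) (E a c d) (E b c d) (E a b e) (E a c e) (E b c e) (E a d e) (E b d e) (E c d e)) (Pool.Agent.W843.N7.c10 (E a b f) (E a c f) (E b c f) (E a d f) (E b d f) (E c d f) (E a e f) (E b e f) (E c e f) (E d e f)) = true)
    (z : V) : LL E a b c d e f z ≤ cC := by
  rw [← LE_LL hC hE hK]
  have hf : c10 (E a b f) (E a c f) (E b c f) (E a d f) (E b d f) (E c d f) (E a e f) (E b e f) (E c e f) (E d e f) < 1024 :=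
    c10_lt (hE.b _ _ _) (hE.b _ _ _) (hE.b _ _ _) (hE.b _ _ _) (hE.b _ _ _) (hE.b _ _ _) (hE.b _ _ _) (hE.b _ _ _) (hE.b _ _ _) (hE.b _ _ _)
  have h1 := chk_E hE a b c d e f (isB_chm (m := c10 (E a b c) (E a b d) (E a c d) (E b c d) (E a b e) (E a c e) (E b c e) (E a d e) (E b d e) (E c d e)) hf h)
  exact chk_spec (hE.b _ _ _) (hE.b _ _ _) (hE.b _ _ _) (hE.b _ _ _) (hE.b _ _ _) (hE.b _ _ _) (hE.b _ _ _) (hE.b _ _ _) (hE.b _ _ _) (hE.b _ _ _) (hE.b _ _ _) (hE.b _ _ _) (hE.b _ _ _) (hE.b _ _ _) (hE.b _ _ _) (hE.b _ _ _) (hE.b _ _ _) (hE.b _ _ _) (hE.b _ _ _) (hE.b _ _ _) h1 (hE.b _ _ _) (hE.b _ _ _) (hE.b _ _ _) (hE.b _ _ _) (hE.b _ _ _) (hE.b _ _ _) (hE.b _ _ _) (hE.b _ _ _) (hE.b _ _ _) (hE.b _ _ _) (hE.b _ _ _) (hE.b _ _ _) (hE.b _ _ _) (hE.b _ _ _) (hE.b _ _ _)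

/-- the leaf inequality -/
theorem LL_le (hC : CH) (hE : Sy E) (hK : NoK4 E) (a b c d e f z : V) : LL E a b c d e f z ≤ cC :=
  Pool.Agent.Y435.R7.red hE hK (P := fun a b c d e f => ∀ z, LL E a b c d e f z ≤ cC)
    (fun a b c d e f h z => (LL_s0 hC hE hK a b c d e f z) ▸ h z)
    (fun a b c d e f h z => (LL_s1 hC hE hK a b c d e f z) ▸ h z)
    (fun a b c d e f h z => (LL_s2 hC hE hK a b c d e f z) ▸ h z)
    (fun a b c d e f h z => (LL_s3 hC hE hK a b c d e f z) ▸ h z)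
    (fun a b c d e f h z => (LL_s4 hC hE hK a b c d e f z) ▸ h z)
    (fun a b c d e f h z => LL_base hC hE hK a b c d e f h z) a b c d e f z

variable [Fintype V]

theorem main_int (hE : Sy E) (hK : NoK4 E) :
    21 * (2 * (Fintype.card V : ℤ) * (∑ a, ∑ b, ∑ c, ∑ d, ∑ e, ∑ x, GG E a b c d e x)
      - 12 * (9728 : ℤ) ^ 2 * (Fintype.card V : ℤ) ^ 7) + 105 * ((2 * 387666048 - 20 * (4224 : ℤ) ^ 2) * (Fintype.card V : ℤ) ^ 7)
    ≤ 71905064448 * (Fintype.card V : ℤ) ^ 7 := by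
  have hC := CH_all
  have h1 := S5_lower hC hE hK
  have h2 := S3_lower hE hK
  have h3 := LL_sum E
  have h4 : ∑ x : Fin 7 → V, (LL E (x 0) (x 1) (x 2) (x 3) (x 4) (x 5) (x 6) : ℤ)
      ≤ 71905064448 * (Fintype.card V : ℤ) ^ 7 := by
    calc _ ≤ ∑ x : Fin 7 → V, (71905064448 : ℤ) :=
          sum_le_sum fun x _ => by
            have h := LL_le hC hE hK (x 0) (x 1) (x 2) (x 3) (x 4) (x 5) (x 6)
            have hc : cC = 71905064448 := rfl
            rw [hc] at h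
            exact_mod_cast h
      _ = 71905064448 * (Fintype.card V : ℤ) ^ 7 := by
          rw [sum_const, card_univ, Fintype.card_fun, Fintype.card_fin, nsmul_eq_mul]
          push_cast
          ring
  rw [h3] at h4
  linarith

end

section
variable {V : Type} [Fintype V] {E : V → V → V → ℕ}

/-- the sum of the weights of all structures on six vertices -/
theorem gg_le (hE : Sy E) (hK : NoK4 E) :
    ∑ a : V, ∑ b : V, ∑ c : V, ∑ d : V, ∑ e : V, ∑ x : V, (gg E a b c d e x : ℤ) ≤ 1233607808 * (Fintype.card V : ℤ) ^ 6 := by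
  have h := main_int hE hK
  unfold GG at h
  rcases Nat.eq_zero_or_pos (Fintype.card V) with h0 | h0
  · have he : IsEmpty V := Fintype.card_eq_zero_iff.mp h0
    rw [Fintype.sum_empty, h0]
    norm_num
  · set n : ℤ := (Fintype.card V : ℤ) with hn
    have hn0 : 0 < n := by rw [hn]; exact_mod_cast h0
    refine le_of_mul_le_mul_left (a := 42 * n) ?_ (by positivity)
    linarith

end

end

end Pool.Agent.T2H13.A7
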