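import Pool.Agent.T2H13.A7.Chk6
import Pool.Agent.T2H13.A7.Psd6
import Pool.Agent.T2H13.A7.Final

/-! The bound for the number of edges of a `K_4^3`-free 3-graph with few copies of a 3-graph on six vertices. -/

set_option autoImplicit false
set_option maxRecDepth 100000
set_option maxHeartbeats 4000000
open Finset

namespace Pool.Agent.T2H13.A7
open Pool.Agent.H122R2.N6 (Sy NoK4 B2 k4b Bt tg five B2_true or_false_left nall nall_true nsum nsum_eq kk tri tri_sy tri_noK4 K43Free six_card_le conv6)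
open Pool.Agent.H37R3.Pen (mem boundX T2_lin)
open Pool.Agent.H37R3.Cop (X6 XX XX_eq Copy Rel Induces hmem_of isoL ti tri_one sorted3 fiber_le)
open Pool.Agent.T2H13.A7.O6

theorem hc6 (b012 b013 b023 b123 b014 b024 b124 b034 b134 b234 : ℕ) (hb012 : Bt b012) (hb013 : Bt b013) (hb023 : Bt b023) (hb123 : Bt b123) (hb014 : Bt b014) (hb024 : Bt b024) (hb124 : Bt b124) (hb034 : Bt b034) (hb134 : Bt b134) (hb234 : Bt b234) (ht : tg b012 b013 b023 b123 b014 b024 b124 b034 b134 b234 = 4) (h5 : five b012 b013 b023 b123 b014 b024 b124 b034 b134 b234 = false) :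
    chkG q4 q2 CST KM PEN LST (DV (c10 b012 b013 b023 b123 b014 b024 b124 b034 b134 b234)) b012 b013 b023 b123 b014 b024 b124 b034 b134 b234 = true := by
  have h : partG b012 b013 = true := by
    rcases hb012 with rfl | rfl <;> rcases hb013 with rfl | rfl
    exacts [part00, part01, part10, part11]
  have h2 := (B2_true (B2_true (B2_true (B2_true (B2_true (B2_true (B2_true (B2_true h hb023) hb123) hb014) hb024) hb124) hb034) hb134) hb234)
  have h3 := or_false_left (or_false_left h2 (by rw [ht]; rfl)) h5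
  rwa [st_eq] at h3

theorem rng : (nall 16 fun c => and (Nat.blt (rho c) 4) (nall 64 fun i => Nat.blt (pc c i) 64)) = true := by
  decide +kernel

theorem rho_lt {c : ℕ} (h : c < 16) : rho c < 4 := by
  have := nall_true rng c h
  rw [Bool.and_eq_true] at this
  exact Nat.le_of_ble_eq_true this.1

theorem pc_lt {c i : ℕ} (h : c < 16) (hi : i < 64) : pc c i < 64 := by
  have := nall_true rng c h
  rw [Bool.and_eq_true] at this
  exact Nat.le_of_ble_eq_true (nall_true this.2 i hi)

theorem g4_all {r i j : ℕ} (hr : r < 4) (hi : i < 64) (hj : j < 64) : g4 r i j = true := by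
  have h : chk4 r = true := by
    interval_cases r
    exacts [cp0, cp1, cp2, cp3]
  exact nall_true (nall_true h i hi) j hj

theorem expand (s : Finset ℕ) (w u v : ℕ → ℕ) (B : ℤ) :
    ∑ k ∈ s, (w k : ℤ) * ((u k : ℤ) - B) * ((v k : ℤ) - B) =
      ∑ k ∈ s, (w k : ℤ) * ((u k : ℤ) * (v k : ℤ)) + B ^ 2 * ∑ k ∈ s, (w k : ℤ)
        - B * (∑ k ∈ s, (w k : ℤ) * (u k : ℤ) + ∑ k ∈ s, (w k : ℤ) * (v k : ℤ)) := by
  rw [mul_add, mul_sum, mul_sum, mul_sum, ← sum_add_distrib, ← sum_add_distrib, ← sum_sub_distrib]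
  exact sum_congr rfl fun k _ => by ring

theorem hq4 (c i j : ℕ) (hc : c < 16) (hi : i < 64) (hj : j < 64) : (q4 c i j : ℤ) =
    ∑ k ∈ range 30, (w4 (rho c) k : ℤ) * ((l4 (rho c) (pc c i) k : ℤ) - 65536) *
      ((l4 (rho c) (pc c j) k : ℤ) - 65536) + 70368744177664 := by
  have h := Nat.eq_of_beq_eq_true (g4_all (rho_lt hc) (pc_lt hc hi) (pc_lt hc hj))
  unfold ll O6.sw O6.sl at h
  rw [nsum_eq, nsum_eq, nsum_eq, nsum_eq] at h
  have h2 := congrArg (fun n : ℕ => (n : ℤ)) h
  simp only [Nat.add_eq, Nat.mul_eq] at h2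
  push_cast at h2
  rw [expand (range 30) (fun k => w4 (rho c) k) (fun k => l4 (rho c) (pc c i) k)
    (fun k => l4 (rho c) (pc c j) k) 65536]
  have h3 : (q4 c i j : ℤ) = (tq (rho c) (pc c i) (pc c j) : ℤ) := rfl
  rw [h3]
  linarith

theorem hq2 (i j : ℕ) (hi : i < 16) (hj : j < 16) : (q2 i j : ℤ) =
    ∑ k ∈ range 19, (w2 k : ℤ) * ((l2 i k : ℤ) - 65536) * ((l2 j k : ℤ) - 65536)
      + (70368744177664 + 6442450944 * ((kk i j : ℕ) : ℤ)) := by
  have h := Nat.eq_of_beq_eq_true (nall_true (nall_true cpb i hi) j hj)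
  unfold ll2 sw2 sl2 at h
  rw [nsum_eq, nsum_eq, nsum_eq, nsum_eq] at h
  have h2 := congrArg (fun n : ℕ => (n : ℤ)) h
  simp only [Nat.add_eq, Nat.mul_eq] at h2
  push_cast at h2
  rw [expand (range 19) (fun k => w2 k) (fun k => l2 i k) (fun k => l2 j k) 65536]
  linarith

/-- codes of the listed structures with isomorphisms to the pattern -/
def TAB : List (ℕ × ℕ × ℕ) := [(11447, 11447, 181896), (68791, 11447, 178312), (74935, 11447, 174280), (75959, 11447, 170192), (76855, 11447, 146056), (523264, 11447, 144453), (785408, 11447, 140869), (916480, 11447, 136837), (982016, 11447, 132749), (1014784, 11447, 108613), (1031168, 11447, 104581), (1039360, 11447, 100493), (1043456, 11447, 71877), (1045504, 11447, 67789), (1046528, 11447, 35029)]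

theorem iso : isoL LST TAB 11447 11447 = true := by decide +kernel

def FA : Finset (Finset (Fin 6)) := {{0, 1, 2}, {0, 1, 3}, {0, 2, 3}, {0, 1, 4}, {0, 2, 4}, {0, 3, 4}, {0, 1, 5}, {0, 2, 5}, {0, 3, 5}}

theorem maskA : ∀ i j k : Fin 6, i < j → j < k → (Pool.Agent.H37R3.Pen.bt 11447 (ti i j k) = 1 ↔ ({i, j, k} : Finset (Fin 6)) ∈ FA) := by
  decide +kernel

section
variable {V : Type}

open scoped Classical in
theorem induces_of_copy {H : Finset (Finset V)} {f : Fin 6 → V}
    (hinj : Function.Injective f) (hc : Copy (tri H) 11447 f) : Induces FA H (univ.image f) := by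
  refine ⟨f, hinj, rfl, ?_⟩
  intro t ht
  obtain ⟨i, j, k, hij, hjk, rfl⟩ := sorted3 t ht
  rw [← maskA i j k hij hjk, ← hc i j k hij hjk, tri_one]
  simp only [image_insert, image_singleton]

open scoped Classical in
theorem noninj_le [Fintype V] :
    ((univ : Finset (Fin 6 → V)).filter fun x => ¬ Function.Injective x).card ≤ 15 * Fintype.card V ^ 5 := by
  have hsub : ((univ : Finset (Fin 6 → V)).filter fun x => ¬ Function.Injective x) ⊆
      ((univ : Finset (Fin 6 × Fin 6)).filter fun p => p.1 < p.2).biUnion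
        fun p => (univ : Finset (Fin 6 → V)).filter fun x => x p.1 = x p.2 := by
    intro x hx
    rw [mem_filter] at hx
    have h := hx.2
    unfold Function.Injective at h
    push Not at h
    obtain ⟨i, j, hij, hne⟩ := h
    rw [mem_biUnion]
    rcases lt_or_gt_of_ne hne with h1 | h1
    · exact ⟨(i, j), mem_filter.mpr ⟨mem_univ _, h1⟩, mem_filter.mpr ⟨mem_univ _, hij⟩⟩
    · exact ⟨(j, i), mem_filter.mpr ⟨mem_univ _, h1⟩, mem_filter.mpr ⟨mem_univ _, hij.symm⟩⟩
  have hone : ∀ p ∈ (univ : Finset (Fin 6 × Fin 6)).filter (fun p => p.1 < p.2),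
      ((univ : Finset (Fin 6 → V)).filter fun x => x p.1 = x p.2).card ≤ Fintype.card V ^ 5 := by
    intro p hp
    rw [mem_filter] at hp
    have hinj : Set.InjOn (fun (x : Fin 6 → V) (k : {k : Fin 6 // k ≠ p.2}) => x k)
        ((univ : Finset (Fin 6 → V)).filter fun x => x p.1 = x p.2 : Finset (Fin 6 → V)) := by
      intro x hx y hy hxy
      rw [mem_coe, mem_filter] at hx hy
      funext k
      by_cases hk : k = p.2
      · subst hk
        rw [← hx.2, ← hy.2]
        exact congrFun hxy ⟨p.1, hp.2.ne⟩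
      · exact congrFun hxy ⟨k, hk⟩
    have h1 := card_le_card_of_injOn (t := (univ : Finset ({k : Fin 6 // k ≠ p.2} → V)))
      (fun (x : Fin 6 → V) (k : {k : Fin 6 // k ≠ p.2}) => x k) (fun _ _ => mem_univ _) hinj
    rw [card_univ, Fintype.card_fun] at h1
    have h2 : Fintype.card {k : Fin 6 // k ≠ p.2} = 5 := by
      rw [Fintype.card_subtype_compl, Fintype.card_subtype_eq, Fintype.card_fin]
    rwa [h2] at h1
  have hcard : ((univ : Finset (Fin 6 × Fin 6)).filter fun p => p.1 < p.2).card = 15 := by decide +kernel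
  calc _ ≤ _ := card_le_card hsub
    _ ≤ ∑ p ∈ (univ : Finset (Fin 6 × Fin 6)).filter (fun p => p.1 < p.2),
        ((univ : Finset (Fin 6 → V)).filter fun x => x p.1 = x p.2).card := card_biUnion_le
    _ ≤ ∑ _p ∈ (univ : Finset (Fin 6 × Fin 6)).filter (fun p => p.1 < p.2), Fintype.card V ^ 5 := sum_le_sum hone
    _ = 15 * Fintype.card V ^ 5 := by rw [sum_const, smul_eq_mul, hcard]

open scoped Classical in
theorem sum_XX_le [Fintype V] {H : Finset (Finset V)} :
    ∑ x : Fin 6 → V, XX (tri H) 11447 11447 x ≤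
      720 * (((univ : Finset V).powersetCard 6).filter fun S => Induces FA H S).card + 15 * Fintype.card V ^ 5 := by
  set TA := ((univ : Finset V).powersetCard 6).filter fun S => Induces FA H S with hTA
  have e1 : ∑ x : Fin 6 → V, XX (tri H) 11447 11447 x =
      ((univ : Finset (Fin 6 → V)).filter fun x => Rel (tri H) 11447 11447 x).card := by
    rw [card_filter]; rfl
  have e2 : ((univ : Finset (Fin 6 → V)).filter fun x => Rel (tri H) 11447 11447 x) ⊆
      ((univ : Finset (Fin 6 → V)).filter fun x => Function.Injective x ∧ Rel (tri H) 11447 11447 x) ∪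
        ((univ : Finset (Fin 6 → V)).filter fun x => ¬ Function.Injective x) := by
    intro x hx
    rw [mem_filter] at hx
    rw [mem_union, mem_filter, mem_filter]
    by_cases h : Function.Injective x
    · exact Or.inl ⟨mem_univ _, h, hx.2⟩
    · exact Or.inr ⟨mem_univ _, h⟩
  have hmap : ∀ x ∈ (univ : Finset (Fin 6 → V)).filter (fun x => Function.Injective x ∧ Rel (tri H) 11447 11447 x),
      univ.image x ∈ TA := by
    intro x hx
    rw [mem_filter] at hx
    obtain ⟨-, hinj, g, hg, hc⟩ := hx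
    have hgs : Function.Surjective g := Finite.surjective_of_injective hg
    have him : univ.image (x ∘ g) = univ.image x := by
      ext v
      simp only [mem_image, mem_univ, true_and, Function.comp]
      constructor
      · rintro ⟨i, hi⟩; exact ⟨g i, hi⟩
      · rintro ⟨i, hi⟩
        obtain ⟨j, hj⟩ := hgs i
        exact ⟨j, by rw [hj]; exact hi⟩
    have h1 : Induces FA H (univ.image (x ∘ g)) := induces_of_copy (hinj.comp hg) (hc.elim id id)
    rw [him] at h1
    refine mem_filter.mpr ⟨mem_powersetCard.mpr ⟨subset_univ _, ?_⟩, h1⟩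
    rw [card_image_of_injective _ hinj]; rfl
  have e3 : ((univ : Finset (Fin 6 → V)).filter fun x => Function.Injective x ∧ Rel (tri H) 11447 11447 x).card ≤ 720 * TA.card := by
    rw [card_eq_sum_card_fiberwise hmap]
    calc _ ≤ ∑ S ∈ TA, 720 := by
          refine sum_le_sum fun S hS => ?_
          have hS6 : S.card = 6 := (mem_powersetCard.mp (mem_filter.mp hS).1).2
          refine (card_le_card ?_).trans (fiber_le S hS6)
          intro x hx
          rw [mem_filter] at hx ⊢
          exact ⟨mem_univ _, hx.2⟩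
      _ = 720 * TA.card := by rw [sum_const, smul_eq_mul, mul_comm]
  rw [e1]
  calc _ ≤ _ := card_le_card e2
    _ ≤ _ := card_union_le _ _
    _ ≤ _ := Nat.add_le_add e3 noninj_le

end

open scoped Classical in
theorem main {V : Type} [Fintype V] {H : Finset (Finset V)} (hH : ∀ e ∈ H, e.card = 3)
    (hF : K43Free H) :
    54 * Fintype.card V ^ 3 * H.card ≤ 5 * Fintype.card V ^ 6 + 24 *
      (720 * (((univ : Finset V).powersetCard 6).filter fun S => Induces FA H S).card + 15 * Fintype.card V ^ 5) := by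
  have hE := tri_sy H
  have hK := tri_noK4 hH hF
  have hb := boundX (tri H) hE 30 19 CST 1 (XG (tri H) KM PEN 11447) q4
    (fun c k => w4 (rho c) k) (fun c i k => l4 (rho c) (pc c i) k)
    q2 w2 l2 65536 70368744177664 70368744177664 (fun k => 6442450944 * (k : ℤ)) hq4 hq2
    (leafG_all CH_all hE hK (hmem_of hE iso) cs4 cs2 hc6)
  rw [T2_lin (tri H) hE] at hb
  have hsum : ∑ x : Fin 6 → V, (XG (tri H) KM PEN 11447 (x 0) (x 1) (x 2) (x 3) (x 4) (x 5) : ℤ) =
      KM * ∑ a : V, ∑ b : V, ∑ c : V, ∑ d : V, ∑ e : V, ∑ x : V, (gg (tri H) a b c d e x : ℤ)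
        + PEN * ∑ x : Fin 6 → V, (XX (tri H) 11447 11447 x : ℤ) := by
    rw [← conv6 (fun a b c d e x => (gg (tri H) a b c d e x : ℤ)), mul_sum, mul_sum, ← sum_add_distrib]
    refine sum_congr rfl fun x _ => ?_
    unfold XG
    rw [XX_eq]
    push_cast
    ring
  rw [hsum] at hb
  have hg := gg_le hE hK
  have hC : (CST : ℤ) = 4043951275945600 := rfl
  have hP : (PEN : ℤ) = 3092376453120 := rfl
  have hKM : (KM : ℤ) = 144955 := rfl
  rw [hC, hP, hKM] at hb
  have h1 : ∑ x : Fin 6 → V, ((XX (tri H) 11447 11447 x : ℕ) : ℤ) ≤ ((720 *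
      (((univ : Finset V).powersetCard 6).filter fun S => Induces FA H S).card + 15 * Fintype.card V ^ 5 : ℕ) : ℤ) := by
    exact_mod_cast sum_XX_le
  have h2 : ((6 * H.card : ℕ) : ℤ) ≤ ∑ a, ∑ b, ∑ c, ((tri H a b c : ℕ) : ℤ) := by
    exact_mod_cast six_card_le hH
  have h3 : (0 : ℤ) ≤ (Fintype.card V : ℤ) ^ 3 := by positivity
  have h4 := mul_le_mul_of_nonneg_left h2 h3
  have h5 : (54 * (Fintype.card V : ℤ) ^ 3 * (H.card : ℤ)) ≤ 5 * (Fintype.card V : ℤ) ^ 6 + 24 *
      (720 * ((((univ : Finset V).powersetCard 6).filter fun S => Induces FA H S).card : ℤ) + 15 * (Fintype.card V : ℤ) ^ 5) := by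
    push_cast at h1 h4 hb
    linarith
  exact_mod_cast h5

end Pool.Agent.T2H13.A7
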