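import Pool.Agent.T2H13.A7.Code
import Pool.Agent.H37R3.Pen
import Pool.Agent.H37R3.Cnt

/-! Six-vertex leaf inequality with the stored weights of the structures on six vertices. -/

set_option autoImplicit false
set_option linter.unusedVariables false
set_option maxRecDepth 100000
set_option maxHeartbeats 4000000
open Finset

namespace Pool.Agent.T2H13.A7
open Pool.Agent.H122R2.N6 (Sy NoK4 B2 k4b leaf4 leaf2 Bt tg five walk walk_all sym4 sym2 L4 L2 K4l K2l K4l_eq K2l_eq B2_true or_false_left)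
open Pool.Agent.H37R3.Pen (mem GoodX walk_goodX)
open Pool.Agent.H37R3.Cop (X6 X6_0 X6_1 X6_2 X6_3)

noncomputable section

/-- the stored weight of a flag -/
def gD (D c0 c1 c2 c3 c4 c5 c6 c7 c8 c9 : ℕ) : ℕ := kC (xr D (c10 c0 c1 c2 c3 c4 c5 c6 c7 c8 c9)) 560

/-- the leaf inequality, with a penalty on the structures of the list -/
def chkG (q4 : ℕ → ℕ → ℕ → ℕ) (q2 : ℕ → ℕ → ℕ) (C K P : ℕ) (L : List ℕ) (D b012 b013 b023 b123 b014 b024 b124 b034 b134 b234 : ℕ) : Bool :=
  B2 fun b015 => B2 fun b025 => B2 fun b125 => or (k4b b012 b015 b025 b125) (B2 fun b035 => B2 fun b135 => or (k4b b013 b015 b035 b135) (B2 fun b235 => or (k4b b023 b025 b035 b235) (or (k4b b123 b125 b135 b235) (B2 fun b045 => B2 fun b145 => or (k4b b014 b015 b045 b145) (B2 fun b245 => or (k4b b024 b025 b045 b245) (or (k4b b124 b125 b145 b245) (B2 fun b345 => or (k4b b034 b035 b045 b345) (or (k4b b134 b135 b145 b345) (or (k4b b234 b235 b245 b345) (or (Nat.ble (Nat.add (leaf4 q4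 b012 b013 b023 b123 b014 b024 b124 b034 b134 b234 b015 b025 b125 b035 b135 b235 b045 b145 b245 b345) (leaf2 q2 b012 b013 b023 b123 b014 b024 b124 b034 b134 b234 b015 b025 b125 b035 b135 b235 b045 b145 b245 b345)) (Nat.add C (Nat.mul K (gD D b045 b145 b245 b345 b015 b025 b125 b035 b135 b235)))) (and (mem L b012 b013 b023 b123 b014 b024 b124 b034 b134 b234 b015 b025 b125 b035 b135 b235 b045 b145 b245 b345) (Nat.ble (Nat.add (leaf4 q4 b012 b013 b023 b123 b014 b024 b124 b034 b134 b234 b015 b025 b125 b035 b135 b235 b045 b145 b245 b345) (leaf2 q2 b012 b013 b023 b123 b014 b024 b124 b034 b134 b234 b015 b025 b125 b035 b135 b235 b045 b145 b245 b345)) (Nat.add (Nat.add C (Nat.mul K (gD D b045 b145 b245 b345 b015 b025 b125 b035 b135 b235))) P)))))))))))))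

section
variable {V : Type} {E : V → V → V → ℕ}

/-- the function on the right hand side -/
def XG (E : V → V → V → ℕ) (K P mA : ℕ) (a b c d e f : V) : ℕ := K * gg E a b c d e f + P * X6 E mA mA a b c d e f

theorem gD_E (hE : Sy E) (a b c d e f : V) :
    gD (DV (mC E a b c d e)) (E a e f) (E b e f) (E c e f) (E d e f) (E a b f) (E a c f) (E b c f) (E a d f) (E b d f) (E c d f)
      = gg E a b c d e f := by
  have hm := mC_lt hE a b c d e
  have hf := lF_lt hE a b c d e f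
  have e2 : kC (xr (DV (mC E a b c d e)) (lF E a b c d e f)) 560 = fld 40 (fld 640 (DV (mC E a b c d e)) (lF E a b c d e f)) 14 := by
    rw [xr_eq]; exact kC_eq _ 14
  have e3 : fld 640 (DV (mC E a b c d e)) (lF E a b c d e f) = rc (mC E a b c d e) (lF E a b c d e f) :=
    (congrArg (fun z => fld 640 z (lF E a b c d e f)) (DV_eq hm)).trans (fld_enc (by norm_num) (fun i _ => rc_lt _ _) hf)
  exact e2.trans (congrArg (fun z => fld 40 z 14) e3)

theorem chkG_sound (hE : Sy E) (hK : NoK4 E) {q4 : ℕ → ℕ → ℕ → ℕ} {q2 : ℕ → ℕ → ℕ} {C K P mA : ℕ} {L : List ℕ}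
    (a b c d e f : V)
    (hmem : mem L (E a b c) (E a b d) (E a c d) (E b c d) (E a b e) (E a c e) (E b c e) (E a d e) (E b d e) (E c d e) (E a b f) (E a c f) (E b c f) (E a d f) (E b d f) (E c d f) (E a e f) (E b e f) (E c e f) (E d e f) = true → X6 E mA mA a b c d e f = 1)
    (h : chkG q4 q2 C K P L (DV (mC E a b c d e)) (E a b c) (E a b d) (E a c d) (E b c d) (E a b e) (E a c e) (E b c e) (E a d e) (E b d e) (E c d e) = true) :
    K4l E q4 a b c d e f + K2l E q2 a b c d e f ≤ C + 1 * XG E K P mA a b c d e f := by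
  have h1 := (or_false_left (or_false_left (or_false_left (B2_true (or_false_left (or_false_left (B2_true (or_false_left (B2_true (B2_true (or_false_left (or_false_left (B2_true (or_false_left (B2_true (B2_true (or_false_left (B2_true (B2_true (B2_true h (hE.b a b f)) (hE.b a c f)) (hE.b b c f)) (hK a b c f)) (hE.b a d f)) (hE.b b d f)) (hK a b d f)) (hE.b c d f)) (hK a c d f)) (hK b c d f)) (hE.b a e f)) (hE.b b e f)) (hK a b e f)) (hE.b c e f)) (hK a c e f)) (hK b c e f)) (hE.b d e f)) (hK a d e f)) (hK b d e f)) (hK c d e f))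
  rw [gD_E hE] at h1
  rw [Bool.or_eq_true] at h1
  unfold XG
  rcases h1 with h1 | h1
  · have h2 := Nat.le_of_ble_eq_true h1
    simp only [Nat.add_eq, Nat.mul_eq] at h2
    refine le_trans h2 ?_
    rw [one_mul, ← add_assoc]
    exact Nat.le_add_right _ _
  · rw [Bool.and_eq_true] at h1
    rw [hmem h1.1, mul_one, one_mul, ← add_assoc]
    exact Nat.le_of_ble_eq_true h1.2

theorem rep_goodG (hE : Sy E) (hK : NoK4 E) {q4 : ℕ → ℕ → ℕ → ℕ} {q2 : ℕ → ℕ → ℕ} {C K P mA : ℕ} {L : List ℕ}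
    (hmem : ∀ a b c d e f, mem L (E a b c) (E a b d) (E a c d) (E b c d) (E a b e) (E a c e) (E b c e) (E a d e) (E b d e) (E c d e) (E a b f) (E a c f) (E b c f) (E a d f) (E b d f) (E c d f) (E a e f) (E b e f) (E c e f) (E d e f) = true → X6 E mA mA a b c d e f = 1)
    (hc : ∀ b012 b013 b023 b123 b014 b024 b124 b034 b134 b234 : ℕ, Bt b012 → Bt b013 → Bt b023 → Bt b123 → Bt b014 → Bt b024 → Bt b124 → Bt b034 → Bt b134 → Bt b234 → tg b012 b013 b023 b123 b014 b024 b124 b034 b134 b234 = 4 → five b012 b013 b023 b123 b014 b024 b124 b034 b134 b234 = false → chkG q4 q2 C K P L (DV (c10 b012 b013 b023 b123 b014 b024 b124 b034 b134 b234)) b012 b013 b023 b123 b014 b024 b124 b034 b134 b234 = true)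
    (b012 b013 b023 b123 b014 b024 b124 b034 b134 b234 : ℕ) (ht : tg b012 b013 b023 b123 b014 b024 b124 b034 b134 b234 = 4) : GoodX E q4 q2 C 1 (XG E K P mA) b012 b013 b023 b123 b014 b024 b124 b034 b134 b234 := by
  intro a b c d e f h0 h1 h2 h3 h4 h5 h6 h7 h8 h9
  subst h0 h1 h2 h3 h4 h5 h6 h7 h8 h9
  have h5 : five (E a b c) (E a b d) (E a c d) (E b c d) (E a b e) (E a c e) (E b c e) (E a d e) (E b d e) (E c d e) = false := by
    unfold five
    rw [hK a b c d, hK a b c e, hK a b d e, hK a c d e, hK b c d e]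
    rfl
  have h := hc _ _ _ _ _ _ _ _ _ _ (hE.b _ _ _) (hE.b _ _ _) (hE.b _ _ _) (hE.b _ _ _) (hE.b _ _ _) (hE.b _ _ _) (hE.b _ _ _) (hE.b _ _ _) (hE.b _ _ _) (hE.b _ _ _) ht h5
  have h2 := chkG_sound hE hK a b c d e f (hmem a b c d e f) h
  rwa [K4l_eq E q4 hE.h132 hE.h231 hE.h213 hE.h312, K2l_eq E q2 hE.h132 hE.h231 hE.h213 hE.h312] at h2

theorem XG_0 (hC : CH) (hE : Sy E) (hK : NoK4 E) (K P mA : ℕ) (a b c d e f : V) : XG E K P mA b a c d e f = XG E K P mA a b c d e f := by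
  unfold XG; rw [gg_s0 hC hE hK, X6_0]
theorem XG_1 (hC : CH) (hE : Sy E) (hK : NoK4 E) (K P mA : ℕ) (a b c d e f : V) : XG E K P mA a c b d e f = XG E K P mA a b c d e f := by
  unfold XG; rw [gg_s1 hC hE hK, X6_1]
theorem XG_2 (hC : CH) (hE : Sy E) (hK : NoK4 E) (K P mA : ℕ) (a b c d e f : V) : XG E K P mA a b d c e f = XG E K P mA a b c d e f := by
  unfold XG; rw [gg_s2 hC hE hK, X6_2]
theorem XG_3 (hC : CH) (hE : Sy E) (hK : NoK4 E) (K P mA : ℕ) (a b c d e f : V) : XG E K P mA a b c e d f = XG E K P mA a b c d e f := by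
  unfold XG; rw [gg_s3 hC hE hK, X6_3]

theorem leafG_all (hC : CH) (hE : Sy E) (hK : NoK4 E) {q4 : ℕ → ℕ → ℕ → ℕ} {q2 : ℕ → ℕ → ℕ} {C K P mA : ℕ} {L : List ℕ}
    (hmem : ∀ a b c d e f, mem L (E a b c) (E a b d) (E a c d) (E b c d) (E a b e) (E a c e) (E b c e) (E a d e) (E b d e) (E c d e) (E a b f) (E a c f) (E b c f) (E a d f) (E b d f) (E c d f) (E a e f) (E b e f) (E c e f) (E d e f) = true → X6 E mA mA a b c d e f = 1)
    (hs4 : sym4 q4 = true) (hs2 : sym2 q2 = true)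
    (hc : ∀ b012 b013 b023 b123 b014 b024 b124 b034 b134 b234 : ℕ, Bt b012 → Bt b013 → Bt b023 → Bt b123 → Bt b014 → Bt b024 → Bt b124 → Bt b034 → Bt b134 → Bt b234 → tg b012 b013 b023 b123 b014 b024 b124 b034 b134 b234 = 4 → five b012 b013 b023 b123 b014 b024 b124 b034 b134 b234 = false → chkG q4 q2 C K P L (DV (c10 b012 b013 b023 b123 b014 b024 b124 b034 b134 b234)) b012 b013 b023 b123 b014 b024 b124 b034 b134 b234 = true)
    (a b c d e f : V) : L4 E q4 a b c d e f + L2 E q2 a b c d e f ≤ C + 1 * XG E K P mA a b c d e f := by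
  have h := (B2_true (B2_true (B2_true (B2_true (B2_true (B2_true (B2_true (B2_true (B2_true (B2_true walk_all (hE.b a b c)) (hE.b a b d)) (hE.b a c d)) (hE.b b c d)) (hE.b a b e)) (hE.b a c e)) (hE.b b c e)) (hE.b a d e)) (hE.b b d e)) (hE.b c d e))
  have h5 : five (E a b c) (E a b d) (E a c d) (E b c d) (E a b e) (E a c e) (E b c e) (E a d e) (E b d e) (E c d e) = false := by
    unfold five
    rw [hK a b c d, hK a b c e, hK a b d e, hK a c d e, hK b c d e]
    rfl
  have hw := or_false_left h h5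
  exact walk_goodX hE (XG_0 hC hE hK K P mA) (XG_1 hC hE hK K P mA) (XG_2 hC hE hK K P mA) (XG_3 hC hE hK K P mA) hs4 hs2
    (fun b012 b013 b023 b123 b014 b024 b124 b034 b134 b234 h4 => rep_goodG hE hK hmem hc b012 b013 b023 b123 b014 b024 b124 b034 b134 b234 h4) _ _ _ _ _ _ _ _ _ _ _ hw
    a b c d e f rfl rfl rfl rfl rfl rfl rfl rfl rfl rfl

end

end

end Pool.Agent.T2H13.A7
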