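import Pool.Agent.T2H13.A7.C15

/-! Checks of the tables: invariance, weights, validity. -/

set_option autoImplicit false
set_option linter.unusedVariables false
set_option maxRecDepth 100000
set_option maxHeartbeats 4000000
set_option exponentiation.threshold 700000
open Finset
open Pool.Agent.H122R2.N6 (Bt)

namespace Pool.Agent.T2H13.A7

noncomputable section

def onv (n : ℕ) : ℕ := @Nat.rec (fun _ => ℕ) 1 (fun n ih => d2 (Nat.mul 640 (Nat.pow 2 n)) ih) n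
/-- the vector of an affine function of the bits -/
def afv (c : ℕ) (w : ℕ → ℕ) (n : ℕ) : ℕ := @Nat.rec (fun _ => ℕ) c (fun n ih => Nat.add ih
  (Nat.shiftLeft (Nat.add ih (Nat.mul (w n) (onv n))) (Nat.mul 640 (Nat.pow 2 n)))) n
/-- the vector of a product of three bits -/
def mk3 (p q r n : ℕ) : ℕ := @Nat.rec (fun _ => ℕ) 1 (fun n ih => cnd (Nat.beq n p) (Nat.shiftLeft ih (Nat.mul 640 (Nat.pow 2 n)))
  (cnd (Nat.beq n q) (Nat.shiftLeft ih (Nat.mul 640 (Nat.pow 2 n))) (cnd (Nat.beq n r) (Nat.shiftLeft ih (Nat.mul 640 (Nat.pow 2 n)))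
    (d2 (Nat.mul 640 (Nat.pow 2 n)) ih)))) n

def sume (x : ℕ) : ℕ := Nat.add (kN x 0) (Nat.add (kN x 40) (Nat.add (kN x 80) (Nat.add (kN x 120) (Nat.add (kN x 160)
  (Nat.add (kN x 200) (Nat.add (kN x 240) (Nat.add (kN x 280) (Nat.add (kN x 320) (Nat.add (kN x 360) (Nat.add (kN x 400) (kN x 440)))))))))))
def wid (m x : ℕ) : Bool := Nat.beq (Nat.add (kN x 480) (Nat.mul (sume x) 9728)) (kN x 560)

def bad (m : ℕ) : ℕ := Nat.lor (Nat.mul (mk3 4 5 6 10) (bt 0 m)) (Nat.lor (Nat.mul (mk3 4 7 8 10) (bt 1 m))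
  (Nat.lor (Nat.mul (mk3 5 7 9 10) (bt 2 m)) (Nat.lor (Nat.mul (mk3 6 8 9 10) (bt 3 m)) (Nat.lor (Nat.mul (mk3 0 1 4 10) (bt 4 m))
  (Nat.lor (Nat.mul (mk3 0 2 5 10) (bt 5 m)) (Nat.lor (Nat.mul (mk3 1 2 6 10) (bt 6 m)) (Nat.lor (Nat.mul (mk3 0 3 7 10) (bt 7 m))
  (Nat.lor (Nat.mul (mk3 1 3 8 10) (bt 8 m)) (Nat.mul (mk3 2 3 9 10) (bt 9 m))))))))))
def vld (m x : ℕ) : Bool := Nat.beq (Nat.lor (kN x 520) (bad m)) OS1024

def inv1 (x y k : ℕ) : Bool := cnd (Nat.beq (kN x k) (kN y k)) true (Nat.beq (Nat.add (kN x k) (kN y k)) (Nat.mul (kN x 520) 19456))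
def inv0 (x y : ℕ) : Bool := cnd (inv1 x y 0) (cnd (inv1 x y 40) (cnd (inv1 x y 80) (cnd (inv1 x y 120) (cnd (inv1 x y 160) (cnd (inv1 x y 200)
  (cnd (inv1 x y 240) (cnd (inv1 x y 280) (cnd (inv1 x y 320) (cnd (inv1 x y 360) (cnd (inv1 x y 400) (inv1 x y 440) false) false) false) false)
    false) false) false) false) false) false) false

def inv (x y : ℕ) : Bool := cnd (Nat.beq (kN x 560) (kN y 560)) (inv0 x y) false

def m0 (i : ℕ) : ℕ := sb 2 3 (sb 5 6 (sb 7 8 i))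
def m1 (i : ℕ) : ℕ := sb 1 2 (sb 4 5 (sb 8 9 i))
def m2 (i : ℕ) : ℕ := sb 0 1 (sb 5 7 (sb 6 8 i))
def m3 (i : ℕ) : ℕ := sb 1 4 (sb 2 5 (sb 3 6 i))
def f0 (i : ℕ) : ℕ := sb 0 1 (sb 5 6 (sb 7 8 i))
def f1 (i : ℕ) : ℕ := sb 1 2 (sb 4 5 (sb 8 9 i))
def f2 (i : ℕ) : ℕ := sb 2 3 (sb 5 7 (sb 6 8 i))
def f3 (i : ℕ) : ℕ := sb 0 7 (sb 1 8 (sb 2 9 i))
def v0 (x : ℕ) : ℕ := swp 640 10 7 8 (swp 640 10 5 6 (swp 640 10 0 1 x))
def v1 (x : ℕ) : ℕ := swp 640 10 8 9 (swp 640 10 4 5 (swp 640 10 1 2 x))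
def v2 (x : ℕ) : ℕ := swp 640 10 6 8 (swp 640 10 5 7 (swp 640 10 2 3 x))
def v3 (x : ℕ) : ℕ := swp 640 10 2 9 (swp 640 10 1 8 (swp 640 10 0 7 x))

def k4c (p q r s m : ℕ) : Bool := Nat.beq (Nat.add (bt p m) (Nat.add (bt q m) (Nat.add (bt r m) (bt s m)))) 4
/-- some four of the five vertices span all four triples -/
def has4 (m : ℕ) : Bool := cnd (k4c 0 1 2 3 m) true (cnd (k4c 0 4 5 6 m) true (cnd (k4c 1 4 7 8 m) true
  (cnd (k4c 2 5 7 9 m) true (k4c 3 6 8 9 m))))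

def chkM (m : ℕ) : Bool := cnd (has4 m) true (cnd (wid m (DV m)) (cnd (vld m (DV m))
  (cnd (inv (DV m) (v0 (st (fun n => DV n) (m0 m)))) (cnd (inv (DV m) (v1 (st (fun n => DV n) (m1 m))))
    (cnd (inv (DV m) (v2 (st (fun n => DV n) (m2 m)))) (inv (DV m) (v3 (st (fun n => DV n) (m3 m)))) false) false) false) false) false)

/-- the checks for `m` in `[a, a + n)` -/
def chkR (a n : ℕ) : Bool := al n (fun k => st chkM (Nat.add a k))

theorem test0 : chkR 0 2 = true := by decide +kernel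
theorem test1 : chkR 254 1 = true := by decide +kernel

end

end Pool.Agent.T2H13.A7
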