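import Pool.Agent.T2H13.A7.Swp
import Pool.Agent.T2H13.A7.Ker

/-! Semantics of the vectors of the terms with five vertices. -/

set_option autoImplicit false
set_option maxRecDepth 100000
set_option maxHeartbeats 4000000
set_option exponentiation.threshold 20000
open Finset

namespace Pool.Agent.T2H13.A7

theorem al_true {n : ℕ} {f : ℕ → Bool} (h : al n f = true) {k : ℕ} (hk : k < n) : f k = true := by
  induction n with
  | zero => omega
  | succ n ih =>
    have h' : cnd (f n) (al n f) false = true := h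
    cases e : f n with
    | false => rw [e] at h'; exact absurd (show false = true from h') (by decide)
    | true =>
      rw [e] at h'
      rcases Nat.lt_succ_iff_lt_or_eq.mp hk with hk | rfl
      · exact ih h' hk
      · exact e

theorem st_eq {α : Type} (f : ℕ → α) (n : ℕ) : st f n = f n := by cases n <;> rfl

theorem enc_const_succ (s n c : ℕ) : enc s (n + 1) (fun _ => c) = d2 (s * 2 ^ n) (enc s n (fun _ => c)) := by
  rw [enc_succ]
  show _ = enc s n (fun _ => c) + (enc s n (fun _ => c)) <<< (s * 2 ^ n)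
  rw [Nat.shiftLeft_eq]

theorem enc_rep (s n : ℕ) (f : ℕ → ℕ) : d2 (s * 2 ^ n) (enc s n f) = enc s (n + 1) (fun i => f (i % 2 ^ n)) := by
  rw [enc_succ]
  show enc s n f + (enc s n f) <<< (s * 2 ^ n) = _
  rw [Nat.shiftLeft_eq]
  congr 1
  · exact enc_congr fun i hi => by rw [Nat.mod_eq_of_lt hi]
  · congr 1
    exact enc_congr fun i hi => by rw [Nat.add_mod_left, Nat.mod_eq_of_lt hi]

theorem as_step {s n : ℕ} {F A : ℕ → ℕ} (h : ∀ k, A k = enc s n (fun j => F (k + j))) (k : ℕ) :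
    Nat.add (A k) (Nat.shiftLeft (A (Nat.add k (2 ^ n))) (s * 2 ^ n)) = enc s (n + 1) (fun j => F (k + j)) := by
  rw [enc_succ, h, h]
  show _ + (_ <<< (s * 2 ^ n)) = _
  rw [Nat.shiftLeft_eq]
  congr 2
  exact enc_congr fun j _ => by
    show F (k + 2 ^ n + j) = F (k + (2 ^ n + j))
    rw [add_assoc]

theorem as1_eq (s : ℕ) (F : ℕ → ℕ) (k : ℕ) : as1 s F k = enc s 1 (fun j => F (k + j)) := by
  rw [← as_step (n := 0) (A := F) (fun k => by rw [enc_zero, add_zero]) k]
  show _ = Nat.add (F k) (Nat.shiftLeft (F (k + 2 ^ 0)) (s * 2 ^ 0))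
  rw [pow_zero, mul_one]; rfl
theorem as2_eq (s : ℕ) (F : ℕ → ℕ) (k : ℕ) : as2 s F k = enc s 2 (fun j => F (k + j)) := as_step (as1_eq s F) k
theorem as3_eq (s : ℕ) (F : ℕ → ℕ) (k : ℕ) : as3 s F k = enc s 3 (fun j => F (k + j)) := as_step (as2_eq s F) k
theorem as4_eq (s : ℕ) (F : ℕ → ℕ) (k : ℕ) : as4 s F k = enc s 4 (fun j => F (k + j)) := as_step (as3_eq s F) k
theorem as5_eq (s : ℕ) (F : ℕ → ℕ) (k : ℕ) : as5 s F k = enc s 5 (fun j => F (k + j)) := as_step (as4_eq s F) k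
theorem as6_eq (s : ℕ) (F : ℕ → ℕ) : as6 s F = enc s 6 F := by
  have h := as_step (n := 5) (as5_eq s F) 0
  rw [show (Nat.add 0 (2 ^ 5)) = 32 from rfl] at h
  refine (show as6 s F = _ from h).trans (enc_congr fun i _ => by rw [zero_add])

theorem ON40_eq : ON40 = 2 ^ 40 - 1 := by decide +kernel
theorem ON640_eq : ON640 = 2 ^ 640 - 1 := by decide +kernel
theorem ON10240_eq : ON10240 = 2 ^ 10240 - 1 := by decide +kernel
theorem ON20480_eq : ON20480 = 2 ^ 20480 - 1 := by decide +kernel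
theorem ON40960_eq : ON40960 = 2 ^ 40960 - 1 := by decide +kernel
theorem ON81920_eq : ON81920 = 2 ^ 81920 - 1 := by decide +kernel
theorem ON163840_eq : ON163840 = 2 ^ 163840 - 1 := by decide +kernel
theorem ON327680_eq : ON327680 = 2 ^ 327680 - 1 := by decide +kernel
theorem MK16_eq : MK16 = enc 640 4 (fun _ => 2 ^ 40 - 1) := by
  rw [enc_const_succ, enc_const_succ, enc_const_succ, enc_const_succ, enc_zero]; decide +kernel
theorem MK64_eq : MK64 = enc 640 6 (fun _ => 2 ^ 40 - 1) := by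
  rw [enc_const_succ, enc_const_succ, ← MK16_eq]; rfl
theorem MK1024_eq : MK1024 = enc 640 10 (fun _ => 2 ^ 40 - 1) := by
  rw [enc_const_succ, enc_const_succ, enc_const_succ, enc_const_succ, ← MK64_eq]; rfl
theorem OS16_eq : OS16 = enc 640 4 (fun _ => 1) := by
  rw [enc_const_succ, enc_const_succ, enc_const_succ, enc_const_succ, enc_zero]; decide +kernel
theorem OS64_eq : OS64 = enc 640 6 (fun _ => 1) := by
  rw [enc_const_succ, enc_const_succ, ← OS16_eq]; rfl
theorem OS1024_eq : OS1024 = enc 640 10 (fun _ => 1) := by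
  rw [enc_const_succ, enc_const_succ, enc_const_succ, enc_const_succ, ← OS64_eq]; rfl
theorem ON16_eq : ON16 = enc 40 4 (fun _ => 1) := by
  rw [enc_const_succ, enc_const_succ, enc_const_succ, enc_const_succ, enc_zero]; decide +kernel
theorem ON256_eq : ON256 = enc 40 8 (fun _ => 1) := by
  rw [enc_const_succ, enc_const_succ, enc_const_succ, enc_const_succ, ← ON16_eq]; rfl

theorem xb_eq (d j : ℕ) : xb d j = fld 10240 d j := by
  unfold xb; rw [ON10240_eq]; exact land_ones d 10240 j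
theorem xr_eq (d j : ℕ) : xr d j = fld 640 d j := by
  unfold xr; rw [ON640_eq]; exact land_ones d 640 j
theorem kB_eq (d j : ℕ) : kB d (640 * j) = fld 640 d j := by
  unfold kB; rw [ON640_eq]; exact land_ones d 640 j
theorem kC_eq (d j : ℕ) : kC d (40 * j) = fld 40 d j := by
  unfold kC; rw [ON40_eq]; exact land_ones d 40 j
theorem kA_eq {R : ℕ → ℕ} (hR : ∀ i < 2 ^ 4, R i < 2 ^ 640) {j : ℕ} (hj : j < 16) :
    kA (enc 640 4 R) (40 * j) = enc 640 4 (fun i => fld 40 (R i) j) := by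
  unfold kA; rw [MK16_eq]; exact enc_sub (s := 40) (k := 4) (by norm_num) hR hj
theorem kM_eq {R : ℕ → ℕ} (hR : ∀ i < 2 ^ 6, R i < 2 ^ 640) {j : ℕ} (hj : j < 16) :
    kM (enc 640 6 R) (40 * j) = enc 640 6 (fun i => fld 40 (R i) j) := by
  unfold kM; rw [MK64_eq]; exact enc_sub (s := 40) (k := 4) (by norm_num) hR hj
theorem kN_eq {R : ℕ → ℕ} (hR : ∀ i < 2 ^ 10, R i < 2 ^ 640) {j : ℕ} (hj : j < 16) :
    kN (enc 640 10 R) (40 * j) = enc 640 10 (fun i => fld 40 (R i) j) := by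
  unfold kN; rw [MK1024_eq]; exact enc_sub (s := 40) (k := 4) (by norm_num) hR hj

theorem sb_tr : al 256 (fun i => Nat.beq (sb 0 4 (sb 1 5 (sb 2 6 (sb 3 7 i))))
    (Nat.add (Nat.mul 16 (Nat.mod i 16)) (Nat.div i 16))) = true := by decide +kernel

theorem tr_eq {R : ℕ → ℕ} (hR : ∀ i < 2 ^ 4, R i < 2 ^ 640) :
    tr (enc 640 4 R) = enc 640 4 (fun k => enc 40 4 (fun u => fld 40 (R u) k)) := by
  have e1 : enc 640 4 R = enc 40 8 (fun i => fld 40 (R (i / 16)) (i % 16)) := by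
    have h := enc_nest 40 4 (fun j => fld 40 (R j)) 4
    have h' : enc 640 4 R = enc 640 4 (fun j => enc 40 4 (fld 40 (R j))) :=
      enc_congr fun i hi => (enc_fld (s := 40) (n := 4) (by norm_num) (hR i hi)).symm
    exact h'.trans h
  have e2 := enc_nest 40 4 (fun k u => fld 40 (R u) k) 4
  have hb : ∀ f : ℕ → ℕ, (∀ i < 2 ^ 8, f i < 2 ^ 40) → ∀ p q, p < q → q < 8 →
      swp 40 8 p q (enc 40 8 f) = enc 40 8 (fun i => f (sb p q i)) := fun f hf p q hp hq =>
    swp_enc (by norm_num) hp hq hf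
  unfold tr
  rw [e1]
  have b0 : ∀ i < 2 ^ 8, (fun i => fld 40 (R (i / 16)) (i % 16)) i < 2 ^ 40 := fun i _ => fld_lt _ _ _
  rw [hb _ b0 0 4 (by norm_num) (by norm_num)]
  rw [hb _ (fun i _ => fld_lt _ _ _) 1 5 (by norm_num) (by norm_num)]
  rw [hb _ (fun i _ => fld_lt _ _ _) 2 6 (by norm_num) (by norm_num)]
  rw [hb _ (fun i _ => fld_lt _ _ _) 3 7 (by norm_num) (by norm_num)]
  refine Eq.trans (enc_congr fun i hi => ?_) e2.symm
  have h := Nat.eq_of_beq_eq_true (al_true sb_tr hi)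
  rw [h]
  show fld 40 (R ((16 * (i % 16) + i / 16) / 16)) ((16 * (i % 16) + i / 16) % 16) = fld 40 (R (i % 2 ^ 4)) (i / 2 ^ 4)
  have hi' : i < 256 := hi
  rw [show (16 * (i % 16) + i / 16) / 16 = i % 2 ^ 4 by omega, show (16 * (i % 16) + i / 16) % 16 = i / 2 ^ 4 by omega]

/-- the term of two records -/
def dt (x y : ℕ) : ℕ := ((∑ k ∈ range 12, fld 40 x k * fld 40 y k) + fld 40 x 12) + fld 40 y 12

theorem t0_eq {R S : ℕ → ℕ} (hR : ∀ i < 2 ^ 4, R i < 2 ^ 640) (hS : ∀ i < 2 ^ 4, S i < 2 ^ 640) :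
    t0 (enc 640 4 R) (enc 640 4 S) = enc 40 8 (fun i => dt (R (i / 16)) (S (i % 16))) := by
  unfold t0
  rw [tr_eq hS]
  set b := enc 640 4 (fun k => enc 40 4 (fun u => fld 40 (S u) k)) with hb
  have hB : ∀ k < 16, kB b (640 * k) = enc 40 4 (fun u => fld 40 (S u) k) := by
    intro k hk
    rw [kB_eq, hb]
    exact fld_enc (s := 640) (n := 4) (f := fun k => enc 40 4 (fun u => fld 40 (S u) k)) (by norm_num)
      (fun i _ => enc_lt (s := 40) (n := 4) fun u _ => fld_lt _ _ _) hk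
  have hP : ∀ k < 16, Nat.mul (kA (enc 640 4 R) (40 * k)) (kB b (640 * k))
      = enc 40 8 (fun i => fld 40 (R (i / 16)) k * fld 40 (S (i % 16)) k) := by
    intro k hk
    rw [hB k hk, kA_eq hR hk]
    exact enc_prod 40 4 _ _ 4
  have hP1 : Nat.mul (kA (enc 640 4 R) (40 * 12)) ON16 = enc 40 8 (fun i => fld 40 (R (i / 16)) 12) := by
    rw [kA_eq hR (by norm_num), ON16_eq]
    exact (enc_prod 40 4 _ _ 4).trans (enc_congr fun i _ => mul_one _)
  have hP2 : Nat.mul OS16 (kB b (640 * 12)) = enc 40 8 (fun i => fld 40 (S (i % 16)) 12) := by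
    rw [hB 12 (by norm_num), OS16_eq]
    exact (enc_prod 40 4 _ _ 4).trans (enc_congr fun i _ => one_mul _)
  have key : OPX (enc 640 4 R) b = enc 40 8 (fun i => fld 40 (R (i / 16)) 0 * fld 40 (S (i % 16)) 0)
      + (enc 40 8 (fun i => fld 40 (R (i / 16)) 1 * fld 40 (S (i % 16)) 1)
      + (enc 40 8 (fun i => fld 40 (R (i / 16)) 2 * fld 40 (S (i % 16)) 2)
      + (enc 40 8 (fun i => fld 40 (R (i / 16)) 3 * fld 40 (S (i % 16)) 3)
      + (enc 40 8 (fun i => fld 40 (R (i / 16)) 4 * fld 40 (S (i % 16)) 4)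
      + (enc 40 8 (fun i => fld 40 (R (i / 16)) 5 * fld 40 (S (i % 16)) 5)
      + (enc 40 8 (fun i => fld 40 (R (i / 16)) 6 * fld 40 (S (i % 16)) 6)
      + (enc 40 8 (fun i => fld 40 (R (i / 16)) 7 * fld 40 (S (i % 16)) 7)
      + (enc 40 8 (fun i => fld 40 (R (i / 16)) 8 * fld 40 (S (i % 16)) 8)
      + (enc 40 8 (fun i => fld 40 (R (i / 16)) 9 * fld 40 (S (i % 16)) 9)
      + (enc 40 8 (fun i => fld 40 (R (i / 16)) 10 * fld 40 (S (i % 16)) 10)
      + (enc 40 8 (fun i => fld 40 (R (i / 16)) 11 * fld 40 (S (i % 16)) 11)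
      + (enc 40 8 (fun i => fld 40 (R (i / 16)) 12)
      + enc 40 8 (fun i => fld 40 (S (i % 16)) 12))))))))))))) := by
    rw [← hP 0 (by norm_num), ← hP 1 (by norm_num), ← hP 2 (by norm_num), ← hP 3 (by norm_num),
      ← hP 4 (by norm_num), ← hP 5 (by norm_num), ← hP 6 (by norm_num), ← hP 7 (by norm_num),
      ← hP 8 (by norm_num), ← hP 9 (by norm_num), ← hP 10 (by norm_num), ← hP 11 (by norm_num), ← hP1, ← hP2]
    rfl
  rw [key]
  simp only [enc_add]
  refine enc_congr fun i _ => ?_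
  unfold dt
  simp only [sum_range_succ, sum_range_zero]
  ring

end Pool.Agent.T2H13.A7
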