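import Pool.Agent.T2H13.A7.Vec

/-! Semantics of the vectors of the terms with five vertices, continued. -/

set_option autoImplicit false
set_option maxRecDepth 100000
set_option maxHeartbeats 4000000
set_option exponentiation.threshold 400000
open Finset

namespace Pool.Agent.T2H13.A7

noncomputable section

theorem add_shl (a b s : ℕ) : Nat.add a (Nat.shiftLeft b s) = a + b * 2 ^ s := by
  show a + b <<< s = _
  rw [Nat.shiftLeft_eq]

theorem shr_eq (a s : ℕ) : Nat.shiftRight a s = a / 2 ^ s := Nat.shiftRight_eq_div_pow _ _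

theorem enc_low {s n : ℕ} {f : ℕ → ℕ} (h : ∀ i < 2 ^ (n + 1), f i < 2 ^ s) :
    Nat.land (enc s (n + 1) f) (2 ^ (s * 2 ^ n) - 1) = enc s n f := by
  have hp : 2 ^ (n + 1) = 2 ^ n + 2 ^ n := by rw [pow_succ]; ring
  have h1 : enc s n f < 2 ^ (s * 2 ^ n) := enc_lt fun i hi => h i (by omega)
  rw [land_ones0, enc_succ, Nat.add_mul_mod_self_right, Nat.mod_eq_of_lt h1]

theorem enc_high {s n : ℕ} {f : ℕ → ℕ} (h : ∀ i < 2 ^ (n + 1), f i < 2 ^ s) :
    Nat.shiftRight (enc s (n + 1) f) (s * 2 ^ n) = enc s n (fun i => f (2 ^ n + i)) := by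
  have hp : 2 ^ (n + 1) = 2 ^ n + 2 ^ n := by rw [pow_succ]; ring
  have h1 : enc s n f < 2 ^ (s * 2 ^ n) := enc_lt fun i hi => h i (by omega)
  rw [shr_eq, enc_succ, Nat.add_mul_div_right _ _ (by positivity), Nat.div_eq_of_lt h1,
    zero_add]

def TP (O T : ℕ → ℕ → ℕ) (n : ℕ) : Prop := ∀ a b : ℕ → ℕ, (∀ i < 2 ^ n, a i < 2 ^ 10240) →
  (∀ i < 2 ^ n, b i < 2 ^ 10240) → T (enc 10240 n a) (enc 10240 n b) = enc 10240 n (fun g => O (a g) (b g))

theorem t_step {O T T' : ℕ → ℕ → ℕ} {n : ℕ} (hT : TP O T n)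
    (hT' : ∀ A B, T' A B = Nat.add (T (Nat.land A (2 ^ (10240 * 2 ^ n) - 1)) (Nat.land B (2 ^ (10240 * 2 ^ n) - 1)))
      (Nat.shiftLeft (T (Nat.shiftRight A (10240 * 2 ^ n)) (Nat.shiftRight B (10240 * 2 ^ n))) (10240 * 2 ^ n))) :
    TP O T' (n + 1) := by
  intro a b ha hb
  have hp : 2 ^ (n + 1) = 2 ^ n + 2 ^ n := by rw [pow_succ]; ring
  rw [hT', enc_low ha, enc_low hb, enc_high ha, enc_high hb,
    hT a b (fun i hi => ha i (by omega)) (fun i hi => hb i (by omega)),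
    hT _ _ (fun i hi => ha _ (by omega)) (fun i hi => hb _ (by omega)), enc_succ, add_shl]

theorem t0_TP : TP t0 t0 0 := by
  intro a b _ _
  rw [enc_zero, enc_zero, enc_zero]
theorem t1_TP : TP t0 t1 1 := t_step t0_TP fun A B => by rw [pow_zero, mul_one, ← ON10240_eq]; rfl
theorem t2_TP : TP t0 t2 2 := t_step t1_TP fun A B => by
  rw [show 10240 * 2 ^ 1 = 20480 from rfl, ← ON20480_eq]; rfl
theorem t3_TP : TP t0 t3 3 := t_step t2_TP fun A B => by
  rw [show 10240 * 2 ^ 2 = 40960 from rfl, ← ON40960_eq]; rfl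
theorem t4_TP : TP t0 t4 4 := t_step t3_TP fun A B => by
  rw [show 10240 * 2 ^ 3 = 81920 from rfl, ← ON81920_eq]; rfl
theorem t5_TP : TP t0 t5 5 := t_step t4_TP fun A B => by
  rw [show 10240 * 2 ^ 4 = 163840 from rfl, ← ON163840_eq]; rfl
theorem t6_TP : TP t0 t6 6 := t_step t5_TP fun A B => by
  rw [show 10240 * 2 ^ 5 = 327680 from rfl, ← ON327680_eq]; rfl

def qU (w u : ℕ) : ℕ := Nat.land (Nat.shiftRight QU (Nat.mul 4 (Nat.add (Nat.mul 16 w) u))) 15
/-- the record of a flag -/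
def rc (m f : ℕ) : ℕ := fld 640 (Dg (rt m)) (16 * qL (wt m) (f / 16) + qU (wt m) (f % 16))

theorem rc_lt (m f : ℕ) : rc m f < 2 ^ 640 := fld_lt _ _ _

def sl (t u : ℕ) : ℕ := cnd (Nat.beq t 0) u (cnd (Nat.beq t 1) (sb 0 1 u) (cnd (Nat.beq t 2) (sb 0 2 u)
  (cnd (Nat.beq t 3) (sb 1 2 u) (cnd (Nat.beq t 4) (sb 0 3 u) (cnd (Nat.beq t 5) (sb 1 3 u) (sb 2 3 u))))))

theorem sw_zero (x : ℕ) : sw 0 0 x = x := by
  refine Nat.eq_of_testBit_eq fun t => ?_
  rw [sw_testBit]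
  simp

theorem swl_eq {t : ℕ} (ht : t < 7) {R : ℕ → ℕ} (hR : ∀ i < 2 ^ 4, R i < 2 ^ 640) :
    swl t (enc 640 4 R) = enc 640 4 (fun u => R (sl t u)) := by
  have key : ∀ p q, p < q → q < 4 → xb MT t = mk 640 p q 4 →
      Nat.land (Nat.shiftRight ST (Nat.mul 16 t)) 65535 = Nat.mul 640 (Nat.sub (Nat.pow 2 q) (Nat.pow 2 p)) →
      swl t (enc 640 4 R) = enc 640 4 (fun u => R (sb p q u)) := by
    intro p q hp hq h1 h2
    unfold swl
    rw [h1, h2]
    exact swp_enc (by norm_num) hp hq hR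
  interval_cases t
  · unfold swl
    rw [show xb MT 0 = 0 by decide +kernel, show Nat.land (Nat.shiftRight ST (Nat.mul 16 0)) 65535 = 0 by decide +kernel]
    exact sw_zero _
  · exact key 0 1 (by norm_num) (by norm_num) (by decide +kernel) (by decide +kernel)
  · exact key 0 2 (by norm_num) (by norm_num) (by decide +kernel) (by decide +kernel)
  · exact key 1 2 (by norm_num) (by norm_num) (by decide +kernel) (by decide +kernel)
  · exact key 0 3 (by norm_num) (by norm_num) (by decide +kernel) (by decide +kernel)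
  · exact key 1 3 (by norm_num) (by norm_num) (by decide +kernel) (by decide +kernel)
  · exact key 2 3 (by norm_num) (by norm_num) (by decide +kernel) (by decide +kernel)

theorem lt_ok : al 24 (fun w => cnd (Nat.ble (lt w 0) 6) (cnd (Nat.ble (lt w 3) 6) (cnd (Nat.ble (lt w 6) 6)
    (al 16 (fun u => Nat.beq (sl (lt w 0) (sl (lt w 3) (sl (lt w 6) u))) (qU w u))) false) false) false) = true := by
  decide +kernel
theorem sl_ok : al 7 (fun t => al 16 (fun u => Nat.ble (sl t u) 15)) = true := by decide +kernel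
theorem qU_ok : al 24 (fun w => al 16 (fun u => Nat.ble (qU w u) 15)) = true := by decide +kernel
theorem wt_ok : al 1024 (fun m => Nat.ble (wt m) 23) = true := by decide +kernel

theorem wt_lt {m : ℕ} (hm : m < 1024) : wt m < 24 := Nat.lt_succ_of_le (Nat.le_of_ble_eq_true (al_true wt_ok hm))
theorem qL_lt (w l : ℕ) : qL w l < 64 := by
  have : qL w l = (Nat.shiftRight QL (Nat.mul 6 (Nat.add (Nat.mul 64 w) l))) % 2 ^ 6 :=
    land_ones0 _ 6
  rw [this]; exact Nat.mod_lt _ (by norm_num)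
theorem qU_lt (w u : ℕ) : qU w u < 16 := by
  have : qU w u = (Nat.shiftRight QU (Nat.mul 4 (Nat.add (Nat.mul 16 w) u))) % 2 ^ 4 :=
    land_ones0 _ 4
  rw [this]; exact Nat.mod_lt _ (by norm_num)

theorem cnd_and {a b : Bool} (h : cnd a b false = true) : a = true ∧ b = true := by
  cases a
  · exact absurd (show false = true from h) (by decide)
  · exact ⟨rfl, h⟩

theorem pU_eq {w : ℕ} (hw : w < 24) {R : ℕ → ℕ} (hR : ∀ i < 2 ^ 4, R i < 2 ^ 640) :
    pU w (enc 640 4 R) = enc 640 4 (fun u => R (qU w u)) := by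
  obtain ⟨h0, h⟩ := cnd_and (al_true lt_ok hw)
  obtain ⟨h1, h⟩ := cnd_and h
  obtain ⟨h2, h⟩ := cnd_and h
  have l0 : lt w 0 < 7 := Nat.lt_succ_of_le (Nat.le_of_ble_eq_true h0)
  have l1 : lt w 3 < 7 := Nat.lt_succ_of_le (Nat.le_of_ble_eq_true h1)
  have l2 : lt w 6 < 7 := Nat.lt_succ_of_le (Nat.le_of_ble_eq_true h2)
  have hs : ∀ t < 7, ∀ u < 16, sl t u < 16 := fun t ht u hu =>
    Nat.lt_succ_of_le (Nat.le_of_ble_eq_true (al_true (al_true sl_ok ht) hu))
  unfold pU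
  rw [swl_eq l0 hR, swl_eq l1 (fun i hi => hR _ (hs _ l0 _ hi)), swl_eq l2 (fun i hi => hR _ (hs _ l0 _ (hs _ l1 _ hi)))]
  refine enc_congr fun u hu => ?_
  rw [Nat.eq_of_beq_eq_true (al_true h hu)]

theorem blk_eq {m l : ℕ} (hm : m < 1024) : blk m l = enc 640 4 (fun u => rc m (16 * l + u)) := by
  unfold blk
  rw [st_eq, xb_eq]
  have e : fld 10240 (Dg (rt m)) (qL (wt m) l)
      = enc 640 4 (fun u => fld 640 (Dg (rt m)) (16 * qL (wt m) l + u)) := by
    rw [← enc_fld (s := 640) (n := 4) (by norm_num) (fld_lt 10240 (Dg (rt m)) (qL (wt m) l))]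
    exact enc_congr fun u hu => fld_fld (s := 640) (k := 4) _ _ _ hu
  rw [e, pU_eq (wt_lt hm) (fun i _ => fld_lt _ _ _)]
  refine enc_congr fun u hu => ?_
  have hu' : u < 16 := hu
  unfold rc
  rw [show (16 * l + u) / 16 = l by omega, show (16 * l + u) % 16 = u by omega]

theorem AV_eq {t l : ℕ} (ht : t < 16) :
    AV t l = enc 10240 6 (fun g => enc 640 4 (fun u => rc (t + 16 * g) (16 * l + u))) := by
  unfold AV
  rw [as6_eq]
  exact enc_congr fun g hg => blk_eq (by have : g < 64 := hg; show t + 16 * g < 1024; omega)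

theorem DV_eq {m : ℕ} (hm : m < 1024) : DV m = enc 640 10 (rc m) := by
  unfold DV
  rw [as6_eq]
  have h1 : enc 10240 6 (fun l => blk m l) = enc 10240 6 (fun l => enc 640 4 (fun u => rc m (16 * l + u))) :=
    enc_congr fun l _ => blk_eq hm
  have h2 := enc_nest 640 4 (fun l u => rc m (16 * l + u)) 6
  refine h1.trans (h2.trans (enc_congr fun i _ => ?_))
  show rc m (16 * (i / 16) + i % 16) = rc m i
  rw [Nat.div_add_mod]

/-- the field `i` of the terms with the seventh vertex in the type -/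
def S1 (t l l2 i : ℕ) : ℕ := dt (rc (t + 16 * (i / 256)) (16 * l + i / 16 % 16)) (rc (t + 16 * (i / 256)) (16 * l2 + i % 16))

theorem T1v_eq {t l l2 : ℕ} (ht : t < 16) : T1v t l l2 = enc 40 14 (S1 t l l2) := by
  unfold T1v
  rw [st_eq, st_eq, st_eq, AV_eq ht, AV_eq ht]
  have hb : ∀ l', ∀ g < 2 ^ 6, enc 640 4 (fun u => rc (t + 16 * g) (16 * l' + u)) < 2 ^ 10240 := fun l' g _ =>
    enc_lt (s := 640) (n := 4) fun u _ => rc_lt _ _
  rw [t6_TP _ _ (hb l) (hb l2)]
  have h1 : enc 10240 6 (fun g => t0 (enc 640 4 (fun u => rc (t + 16 * g) (16 * l + u))) (enc 640 4 (fun u => rc (t + 16 * g) (16 * l2 + u))))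
      = enc 10240 6 (fun g => enc 40 8 (fun i => dt (rc (t + 16 * g) (16 * l + i / 16)) (rc (t + 16 * g) (16 * l2 + i % 16)))) :=
    enc_congr fun g _ => t0_eq (fun _ _ => rc_lt _ _) (fun _ _ => rc_lt _ _)
  have h2 := enc_nest 40 8 (fun g i => dt (rc (t + 16 * g) (16 * l + i / 16)) (rc (t + 16 * g) (16 * l2 + i % 16))) 6
  refine h1.trans (h2.trans (enc_congr fun i _ => ?_))
  unfold S1
  rw [show (2 : ℕ) ^ 8 = 256 from rfl, show i % 256 / 16 = i / 16 % 16 by omega, show i % 256 % 16 = i % 16 by omega]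

/-- the field `i` of the terms with the seventh vertex as a flag -/
def S4 (m x i : ℕ) : ℕ := dt (rc m (i / 16)) (rc m x)

theorem T4v_eq {m x : ℕ} (hm : m < 1024) (hx : x < 1024) : T4v m x = enc 40 14 (S4 m x) := by
  unfold T4v
  rw [st_eq, DV_eq hm, xr_eq, fld_enc (by norm_num) (fun i _ => rc_lt m i) (show x < 2 ^ 10 from hx)]
  have hP : ∀ k < 16, Nat.mul (kN (enc 640 10 (rc m)) (40 * k)) (kC (rc m x) (40 * k))
      = enc 640 10 (fun i => fld 40 (rc m i) k * fld 40 (rc m x) k) := by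
    intro k hk
    rw [kN_eq (fun i _ => rc_lt m i) hk, kC_eq]
    exact enc_mulc _ _ _ _
  have hP1 : kN (enc 640 10 (rc m)) (40 * 12) = enc 640 10 (fun i => fld 40 (rc m i) 12) :=
    kN_eq (fun i _ => rc_lt m i) (by norm_num)
  have hP2 : Nat.mul OS1024 (kC (rc m x) (40 * 12)) = enc 640 10 (fun _ => fld 40 (rc m x) 12) := by
    rw [kC_eq, OS1024_eq]
    exact (enc_mulc _ _ _ _).trans (enc_congr fun i _ => one_mul _)
  have key : O4 (enc 640 10 (rc m)) (rc m x) = enc 640 10 (fun i => fld 40 (rc m i) 0 * fld 40 (rc m x) 0)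
      + (enc 640 10 (fun i => fld 40 (rc m i) 1 * fld 40 (rc m x) 1)
      + (enc 640 10 (fun i => fld 40 (rc m i) 2 * fld 40 (rc m x) 2)
      + (enc 640 10 (fun i => fld 40 (rc m i) 3 * fld 40 (rc m x) 3)
      + (enc 640 10 (fun i => fld 40 (rc m i) 4 * fld 40 (rc m x) 4)
      + (enc 640 10 (fun i => fld 40 (rc m i) 5 * fld 40 (rc m x) 5)
      + (enc 640 10 (fun i => fld 40 (rc m i) 6 * fld 40 (rc m x) 6)
      + (enc 640 10 (fun i => fld 40 (rc m i) 7 * fld 40 (rc m x) 7)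
      + (enc 640 10 (fun i => fld 40 (rc m i) 8 * fld 40 (rc m x) 8)
      + (enc 640 10 (fun i => fld 40 (rc m i) 9 * fld 40 (rc m x) 9)
      + (enc 640 10 (fun i => fld 40 (rc m i) 10 * fld 40 (rc m x) 10)
      + (enc 640 10 (fun i => fld 40 (rc m i) 11 * fld 40 (rc m x) 11)
      + (enc 640 10 (fun i => fld 40 (rc m i) 12)
      + enc 640 10 (fun _ => fld 40 (rc m x) 12))))))))))))) := by
    rw [← hP 0 (by norm_num), ← hP 1 (by norm_num), ← hP 2 (by norm_num), ← hP 3 (by norm_num),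
      ← hP 4 (by norm_num), ← hP 5 (by norm_num), ← hP 6 (by norm_num), ← hP 7 (by norm_num),
      ← hP 8 (by norm_num), ← hP 9 (by norm_num), ← hP 10 (by norm_num), ← hP 11 (by norm_num), ← hP1, ← hP2]
    rfl
  rw [key]
  simp only [enc_add]
  rw [ON16_eq]
  refine (enc_prod 40 4 _ _ 10).trans (enc_congr fun i _ => ?_)
  show _ * 1 = _
  rw [mul_one]
  unfold S4 dt
  simp only [sum_range_succ, sum_range_zero]
  rw [show (2 : ℕ) ^ 4 = 16 from rfl]
  ring

end

end Pool.Agent.T2H13.A7
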