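import Pool.Agent.T2H13.A7.Vec4

/-! Semantics of the frames, continued. -/

set_option autoImplicit false
set_option linter.unusedVariables false
set_option maxRecDepth 100000
set_option maxHeartbeats 4000000
set_option exponentiation.threshold 700000
open Finset
open Pool.Agent.H122R2.N6 (Bt)

namespace Pool.Agent.T2H13.A7

noncomputable section

theorem gi_lt {i : ℕ} (h : i < 2 ^ 10) : gi i < 2 ^ 10 := by
  unfold gi
  exact sb_lt (by norm_num) (by norm_num) (sb_lt (by norm_num) (by norm_num) (sb_lt (by norm_num) (by norm_num)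
    (sb_lt (by norm_num) (by norm_num) (sb_lt (by norm_num) (by norm_num) (sb_lt (by norm_num) (by norm_num)
      (sb_lt (by norm_num) (by norm_num) h))))))

theorem d3_lt640 {c c' : ℕ} (h : c < 1024) (h' : c' < 1024) : d3 c c' < 2 ^ 640 :=
  lt_of_le_of_lt (d3_le h h') (by norm_num)

theorem hx_lt {b0 b1 b2 b3 b4 b5 b6 b7 b8 b9 : ℕ} (h0 : Bt b0) (h1 : Bt b1) (h2 : Bt b2) (h3 : Bt b3) (h4 : Bt b4)
    (h5 : Bt b5) (h6 : Bt b6) (h7 : Bt b7) (h8 : Bt b8) (h9 : Bt b9) : hx b0 b1 b2 b3 b4 b5 b6 b7 b8 b9 < 1024 :=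
  c10_lt h2 h5 h3 h6 h0 h1 h4 h7 h8 h9

theorem gk0 : al 16 (fun t => al 64 (fun g => Nat.beq (gi (Nat.add (Nat.mul 64 t) (sb 0 4 (sb 1 5 g)))) (hx (bt 0 t) (bt 1 t) (bt 2 t) (bt 3 t) (bt 4 g) (bt 5 g) (bt 2 g) (bt 3 g) (bt 0 g) (bt 1 g)))) = true := by decide +kernel
theorem gk1 : al 16 (fun t => al 64 (fun g => Nat.beq (gi (Nat.add (Nat.mul 64 t) (sb 0 3 (sb 2 5 g)))) (hx (bt 0 t) (bt 1 t) (bt 2 t) (bt 3 t) (bt 3 g) (bt 1 g) (bt 5 g) (bt 0 g) (bt 4 g) (bt 2 g)))) = true := by decide +kernel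
theorem gk2 : al 16 (fun t => al 64 (fun g => Nat.beq (gi (Nat.add (Nat.mul 64 t) (sb 1 3 (sb 2 4 g)))) (hx (bt 0 t) (bt 1 t) (bt 2 t) (bt 3 t) (bt 0 g) (bt 3 g) (bt 4 g) (bt 1 g) (bt 2 g) (bt 5 g)))) = true := by decide +kernel
theorem gk3 : al 16 (fun t => al 64 (fun g => Nat.beq (gi (Nat.add (Nat.mul 64 t) g)) (hx (bt 0 t) (bt 1 t) (bt 2 t) (bt 3 t) (bt 0 g) (bt 1 g) (bt 2 g) (bt 3 g) (bt 4 g) (bt 5 g)))) = true := by decide +kernel

theorem q0_eq {b012 b013 b023 b123 b014 b024 b124 b034 b134 b234 b015 b025 b125 b035 b135 b235 b045 b145 b245 b345 : ℕ} (h012 : Bt b012) (h013 : Bt b013) (h023 : Bt b023) (h123 : Bt b123) (h014 : Bt b014) (h024 : Bt b024) (h124 : Bt b124) (h034 : Bt b034) (h134 : Bt b134) (h234 : Bt b234) (h015 : Bt b015) (h025 : Bt b025) (h125 : Bt b125) (h035 : Bt b035) (h135 : Bt b135) (h235 : Bt b235) (h045 : Bt b045) (h145 : Bt b145) (h245 : Bt b245) (h345 : Bt b345) :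
    (swp 640 6 1 5 (swp 640 6 0 4 (Q2 (c4 b123 b013 b023 b012) (hx b123 b134 b234 b124 b135 b235 b125 b345 b145 b245)))) = enc 640 6 (fun g => (d3 (hx b123 b013 b023 b012 (bt 4 g) (bt 5 g) (bt 2 g) (bt 3 g) (bt 0 g) (bt 1 g)) (hx b123 b134 b234 b124 b135 b235 b125 b345 b145 b245))) := by
  have hb : ∀ j, j < 2 ^ 6 → d3 (gi (64 * c4 b123 b013 b023 b012 + j)) (hx b123 b134 b234 b124 b135 b235 b125 b345 b145 b245) < 2 ^ 640 := fun j hj =>
    d3_lt640 (gi_lt (by have := c4_lt h123 h013 h023 h012; have : j < 64 := hj; show _ < 1024; omega)) (hx_lt h123 h134 h234 h124 h135 h235 h125 h345 h145 h245)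
  rw [Q2_eq (c4_lt h123 h013 h023 h012)]
  rw [swp_enc (by norm_num) (by norm_num) (by norm_num) hb]
  rw [swp_enc (by norm_num) (by norm_num) (by norm_num) (fun j hj => hb _ (sb_lt (by norm_num) (by norm_num) hj))]
  refine enc_congr fun g hg => ?_
  have k := Nat.eq_of_beq_eq_true (al_true (al_true gk0 (c4_lt h123 h013 h023 h012)) hg)
  rw [bt_c4_0 h123 h013 h023 h012, bt_c4_1 h123 h013 h023 h012, bt_c4_2 h123 h013 h023 h012, bt_c4_3 h123 h013 h023 h012] at k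
  exact congrArg (fun c => d3 c _) k

theorem q1_eq {b012 b013 b023 b123 b014 b024 b124 b034 b134 b234 b015 b025 b125 b035 b135 b235 b045 b145 b245 b345 : ℕ} (h012 : Bt b012) (h013 : Bt b013) (h023 : Bt b023) (h123 : Bt b123) (h014 : Bt b014) (h024 : Bt b024) (h124 : Bt b124) (h034 : Bt b034) (h134 : Bt b134) (h234 : Bt b234) (h015 : Bt b015) (h025 : Bt b025) (h125 : Bt b125) (h035 : Bt b035) (h135 : Bt b135) (h235 : Bt b235) (h045 : Bt b045) (h145 : Bt b145) (h245 : Bt b245) (h345 : Bt b345) :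
    (swp 640 6 2 5 (swp 640 6 0 3 (Q2 (c4 b023 b013 b012 b123) (hx b023 b034 b024 b234 b035 b025 b235 b045 b345 b245)))) = enc 640 6 (fun g => (d3 (hx b023 b013 b012 b123 (bt 3 g) (bt 1 g) (bt 5 g) (bt 0 g) (bt 4 g) (bt 2 g)) (hx b023 b034 b024 b234 b035 b025 b235 b045 b345 b245))) := by
  have hb : ∀ j, j < 2 ^ 6 → d3 (gi (64 * c4 b023 b013 b012 b123 + j)) (hx b023 b034 b024 b234 b035 b025 b235 b045 b345 b245) < 2 ^ 640 := fun j hj =>
    d3_lt640 (gi_lt (by have := c4_lt h023 h013 h012 h123; have : j < 64 := hj; show _ < 1024; omega)) (hx_lt h023 h034 h024 h234 h035 h025 h235 h045 h345 h245)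
  rw [Q2_eq (c4_lt h023 h013 h012 h123)]
  rw [swp_enc (by norm_num) (by norm_num) (by norm_num) hb]
  rw [swp_enc (by norm_num) (by norm_num) (by norm_num) (fun j hj => hb _ (sb_lt (by norm_num) (by norm_num) hj))]
  refine enc_congr fun g hg => ?_
  have k := Nat.eq_of_beq_eq_true (al_true (al_true gk1 (c4_lt h023 h013 h012 h123)) hg)
  rw [bt_c4_0 h023 h013 h012 h123, bt_c4_1 h023 h013 h012 h123, bt_c4_2 h023 h013 h012 h123, bt_c4_3 h023 h013 h012 h123] at k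
  exact congrArg (fun c => d3 c _) k

theorem q2_eq {b012 b013 b023 b123 b014 b024 b124 b034 b134 b234 b015 b025 b125 b035 b135 b235 b045 b145 b245 b345 : ℕ} (h012 : Bt b012) (h013 : Bt b013) (h023 : Bt b023) (h123 : Bt b123) (h014 : Bt b014) (h024 : Bt b024) (h124 : Bt b124) (h034 : Bt b034) (h134 : Bt b134) (h234 : Bt b234) (h015 : Bt b015) (h025 : Bt b025) (h125 : Bt b125) (h035 : Bt b035) (h135 : Bt b135) (h235 : Bt b235) (h045 : Bt b045) (h145 : Bt b145) (h245 : Bt b245) (h345 : Bt b345) :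
    (swp 640 6 2 4 (swp 640 6 1 3 (Q2 (c4 b013 b012 b023 b123) (hx b013 b014 b034 b134 b015 b035 b135 b045 b145 b345)))) = enc 640 6 (fun g => (d3 (hx b013 b012 b023 b123 (bt 0 g) (bt 3 g) (bt 4 g) (bt 1 g) (bt 2 g) (bt 5 g)) (hx b013 b014 b034 b134 b015 b035 b135 b045 b145 b345))) := by
  have hb : ∀ j, j < 2 ^ 6 → d3 (gi (64 * c4 b013 b012 b023 b123 + j)) (hx b013 b014 b034 b134 b015 b035 b135 b045 b145 b345) < 2 ^ 640 := fun j hj =>
    d3_lt640 (gi_lt (by have := c4_lt h013 h012 h023 h123; have : j < 64 := hj; show _ < 1024; omega)) (hx_lt h013 h014 h034 h134 h015 h035 h135 h045 h145 h345)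
  rw [Q2_eq (c4_lt h013 h012 h023 h123)]
  rw [swp_enc (by norm_num) (by norm_num) (by norm_num) hb]
  rw [swp_enc (by norm_num) (by norm_num) (by norm_num) (fun j hj => hb _ (sb_lt (by norm_num) (by norm_num) hj))]
  refine enc_congr fun g hg => ?_
  have k := Nat.eq_of_beq_eq_true (al_true (al_true gk2 (c4_lt h013 h012 h023 h123)) hg)
  rw [bt_c4_0 h013 h012 h023 h123, bt_c4_1 h013 h012 h023 h123, bt_c4_2 h013 h012 h023 h123, bt_c4_3 h013 h012 h023 h123] at k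
  exact congrArg (fun c => d3 c _) k

theorem q3_eq {b012 b013 b023 b123 b014 b024 b124 b034 b134 b234 b015 b025 b125 b035 b135 b235 b045 b145 b245 b345 : ℕ} (h012 : Bt b012) (h013 : Bt b013) (h023 : Bt b023) (h123 : Bt b123) (h014 : Bt b014) (h024 : Bt b024) (h124 : Bt b124) (h034 : Bt b034) (h134 : Bt b134) (h234 : Bt b234) (h015 : Bt b015) (h025 : Bt b025) (h125 : Bt b125) (h035 : Bt b035) (h135 : Bt b135) (h235 : Bt b235) (h045 : Bt b045) (h145 : Bt b145) (h245 : Bt b245) (h345 : Bt b345) :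
    (Q2 (c4 b012 b013 b023 b123) (hx b012 b014 b024 b124 b015 b025 b125 b045 b145 b245)) = enc 640 6 (fun g => (d3 (hx b012 b013 b023 b123 (bt 0 g) (bt 1 g) (bt 2 g) (bt 3 g) (bt 4 g) (bt 5 g)) (hx b012 b014 b024 b124 b015 b025 b125 b045 b145 b245))) := by
  have hb : ∀ j, j < 2 ^ 6 → d3 (gi (64 * c4 b012 b013 b023 b123 + j)) (hx b012 b014 b024 b124 b015 b025 b125 b045 b145 b245) < 2 ^ 640 := fun j hj =>
    d3_lt640 (gi_lt (by have := c4_lt h012 h013 h023 h123; have : j < 64 := hj; show _ < 1024; omega)) (hx_lt h012 h014 h024 h124 h015 h025 h125 h045 h145 h245)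
  rw [Q2_eq (c4_lt h012 h013 h023 h123)]
  refine enc_congr fun g hg => ?_
  have k := Nat.eq_of_beq_eq_true (al_true (al_true gk3 (c4_lt h012 h013 h023 h123)) hg)
  rw [bt_c4_0 h012 h013 h023 h123, bt_c4_1 h012 h013 h023 h123, bt_c4_2 h012 h013 h023 h123, bt_c4_3 h012 h013 h023 h123] at k
  exact congrArg (fun c => d3 c _) k

theorem V2_eq {b012 b013 b023 b123 b014 b024 b124 b034 b134 b234 b015 b025 b125 b035 b135 b235 b045 b145 b245 b345 : ℕ} (h012 : Bt b012) (h013 : Bt b013) (h023 : Bt b023) (h123 : Bt b123) (h014 : Bt b014) (h024 : Bt b024) (h124 : Bt b124) (h034 : Bt b034) (h134 : Bt b134) (h234 : Bt b234) (h015 : Bt b015) (h025 : Bt b025) (h125 : Bt b125) (h035 : Bt b035) (h135 : Bt b135) (h235 : Bt b235) (h045 : Bt b045) (h145 : Bt b145) (h245 : Bt b245) (h345 : Bt b345) : V2 b012 b013 b023 b123 b014 b024 b124 b034 b134 b234 b015 b025 b125 b035 b135 b235 b045 b145 b245 b345 = enc 640 6 (fun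 g => SB b012 b013 b023 b123 b014 b024 b124 b034 b134 b234 b015 b025 b125 b035 b135 b235 b045 b145 b245 b345 (bt 0 g) (bt 1 g) (bt 2 g) (bt 3 g) (bt 4 g) (bt 5 g)) := by
  unfold V2
  rw [q3_eq h012 h013 h023 h123 h014 h024 h124 h034 h134 h234 h015 h025 h125 h035 h135 h235 h045 h145 h245 h345, q0_eq h012 h013 h023 h123 h014 h024 h124 h034 h134 h234 h015 h025 h125 h035 h135 h235 h045 h145 h245 h345, q1_eq h012 h013 h023 h123 h014 h024 h124 h034 h134 h234 h015 h025 h125 h035 h135 h235 h045 h145 h245 h345, q2_eq h012 h013 h023 h123 h014 h024 h124 h034 h134 h234 h015 h025 h125 h035 h135 h235 h045 h145 h245 h345]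
  simp only [Nat.add_eq, enc_add]
  rfl

theorem bt_div (k i : ℕ) : bt k (i / 256) = bt (8 + k) i := by
  rw [bt_eq, bt_eq, show (256 : ℕ) = 2 ^ 8 from rfl, Nat.div_div_eq_div_mul, ← pow_add]

theorem SB_le {b012 b013 b023 b123 b014 b024 b124 b034 b134 b234 b015 b025 b125 b035 b135 b235 b045 b145 b245 b345 x8 x9 x10 x11 x12 x13 : ℕ} (h012 : Bt b012) (h013 : Bt b013) (h023 : Bt b023) (h123 : Bt b123) (h014 : Bt b014) (h024 : Bt b024) (h124 : Bt b124) (h034 : Bt b034) (h134 : Bt b134) (h234 : Bt b234) (h015 : Bt b015) (h025 : Bt b025) (h125 : Bt b125) (h035 : Bt b035) (h135 : Bt b135) (h235 : Bt b235) (h045 : Bt b045) (h145 : Bt b145) (h245 : Bt b245) (h345 : Bt b345) (y8 : Bt x8) (y9 : Bt x9) (y10 : Bt x10) (y11 : Bt x11) (y12 : Bt x12) (y13 : Bt x13) : SB b012 b013 b023 b123 b014 b024 b124 b034 b134 b234 b015 b025 b125 b035 b135 b235 b045 b145 b245 b345 x8 x9 x10 x11 x12 x13 ≤ 6783238136 := by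
  have e0 := d3_le (hx_lt h012 h013 h023 h123 y8 y9 y10 y11 y12 y13) (hx_lt h012 h014 h024 h124 h015 h025 h125 h045 h145 h245)
  have e1 := d3_le (hx_lt h123 h013 h023 h012 y12 y13 y10 y11 y8 y9) (hx_lt h123 h134 h234 h124 h135 h235 h125 h345 h145 h245)
  have e2 := d3_le (hx_lt h023 h013 h012 h123 y11 y9 y13 y8 y12 y10) (hx_lt h023 h034 h024 h234 h035 h025 h235 h045 h345 h245)
  have e3 := d3_le (hx_lt h013 h012 h023 h123 y8 y11 y12 y9 y10 y13) (hx_lt h013 h014 h034 h134 h015 h035 h135 h045 h145 h345)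
  unfold SB
  simp only [Nat.add_eq]
  omega

theorem SC_le {b012 b013 b023 b123 b014 b024 b124 b034 b134 b234 b015 b025 b125 b035 b135 b235 b045 b145 b245 b345 x0 x1 x2 x3 x4 x5 x6 x7 x8 x9 x10 x11 x12 x13 x14 : ℕ} (h012 : Bt b012) (h013 : Bt b013) (h023 : Bt b023) (h123 : Bt b123) (h014 : Bt b014) (h024 : Bt b024) (h124 : Bt b124) (h034 : Bt b034) (h134 : Bt b134) (h234 : Bt b234) (h015 : Bt b015) (h025 : Bt b025) (h125 : Bt b125) (h035 : Bt b035) (h135 : Bt b135) (h235 : Bt b235) (h045 : Bt b045) (h145 : Bt b145) (h245 : Bt b245) (h345 : Bt b345) (y0 : Bt x0) (y1 : Bt x1) (y2 : Bt x2) (y3 : Bt x3) (y4 : Bt x4) (y5 : Bt x5) (y6 : Bt x6) (y7 : Bt x7) (y8 : Bt x8) (y9 : Bt x9) (y10 : Bt x10) (y11 : Bt x11) (y12 : Bt x12) (y13 : Bt x13) (y14 : Bt x14) : SC b012 b013 b023 b123 b014 b024 b124 b034 b134 b234 b015 b025 b125 b035 b135 b235 b045 b145 b245 b345 x0 x1 x2 x3 x4 x5 x6 x7 x8 x9 x10 x11 x12 x13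 x14 ≤ 5087428602 := by
  have e0 := d3_le (hx_lt y14 h045 y4 y0 h145 y5 y1 h014 h015 y8) (hx_lt y14 h245 y6 y2 h345 y7 y3 h234 h235 y13)
  have e1 := d3_le (hx_lt y14 h045 y4 y0 h245 y6 y2 h024 h025 y9) (hx_lt y14 h145 y5 y1 h345 y7 y3 h134 h135 y12)
  have e2 := d3_le (hx_lt y14 h045 y4 y0 h345 y7 y3 h034 h035 y11) (hx_lt y14 h245 y6 y2 h145 y5 y1 h124 h125 y10)
  unfold SC
  simp only [Nat.add_eq]
  omega

theorem SA_le {b012 b013 b023 b123 b014 b024 b124 b034 b134 b234 b015 b025 b125 b035 b135 b235 b045 b145 b245 b345 x0 x1 x2 x3 x4 x5 x6 x7 x8 x9 x10 x11 x12 x13 x14 : ℕ} (h012 : Bt b012) (h013 : Bt b013) (h023 : Bt b023) (h123 : Bt b123) (h014 : Bt b014) (h024 : Bt b024) (h124 : Bt b124) (h034 : Bt b034) (h134 : Bt b134) (h234 : Bt b234) (h015 : Bt b015) (h025 : Bt b025) (h125 : Bt b125) (h035 : Bt b035) (h135 : Bt b135) (h235 : Bt b235) (h045 : Bt b045) (h145 : Bt b145) (h245 : Bt b245) (h345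 : Bt b345) (y0 : Bt x0) (y1 : Bt x1) (y2 : Bt x2) (y3 : Bt x3) (y4 : Bt x4) (y5 : Bt x5) (y6 : Bt x6) (y7 : Bt x7) (y8 : Bt x8) (y9 : Bt x9) (y10 : Bt x10) (y11 : Bt x11) (y12 : Bt x12) (y13 : Bt x13) (y14 : Bt x14) : SA b012 b013 b023 b123 b014 b024 b124 b034 b134 b234 b015 b025 b125 b035 b135 b235 b045 b145 b245 b345 x0 x1 x2 x3 x4 x5 x6 x7 x8 x9 x10 x11 x12 x13 x14 ≤ 16949968880 := by
  have e0 := SB_le h012 h013 h023 h123 h014 h024 h124 h034 h134 h234 h015 h025 h125 h035 h135 h235 h045 h145 h245 h345 y8 y9 y10 y11 y12 y13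
  have e1 := SC_le h012 h013 h023 h123 h014 h024 h124 h034 h134 h234 h015 h025 h125 h035 h135 h235 h045 h145 h245 h345 y0 y1 y2 y3 y4 y5 y6 y7 y8 y9 y10 y11 y12 y13 y14
  have e2 := dt_le (m := c10 b012 b013 b023 b123 x8 x9 x10 x11 x12 x13) (c10_lt y4 y5 y6 y7 h014 h024 h124 h034 h134 h234) (c10_lt y0 y1 y2 y3 h015 h025 h125 h035 h135 h235) (c10 b012 b013 b023 b123 x8 x9 x10 x11 x12 x13)
  unfold SA
  simp only [Nat.add_eq]
  omega

theorem SD_le {b012 b013 b023 b123 b014 b024 b124 b034 b134 b234 b015 b025 b125 b035 b135 b235 b045 b145 b245 b345 x0 x1 x2 x3 x4 x5 x6 x7 x8 x9 x10 x11 x12 x13 x14 : ℕ} (h012 : Bt b012) (h013 : Bt b013) (h023 : Bt b023) (h123 : Bt b123) (h014 : Bt b014) (h024 : Bt b024) (h124 : Bt b124) (h034 : Bt b034) (h134 : Bt b134) (h234 : Bt b234) (h015 : Bt b015) (h025 : Bt b025) (h125 : Bt b125) (h035 : Bt b035) (h135 : Bt b135) (h235 : Bt b235) (h045 : Bt b045) (h145 : Bt b145)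 (h245 : Bt b245) (h345 : Bt b345) (y0 : Bt x0) (y1 : Bt x1) (y2 : Bt x2) (y3 : Bt x3) (y4 : Bt x4) (y5 : Bt x5) (y6 : Bt x6) (y7 : Bt x7) (y8 : Bt x8) (y9 : Bt x9) (y10 : Bt x10) (y11 : Bt x11) (y12 : Bt x12) (y13 : Bt x13) (y14 : Bt x14) : SD b012 b013 b023 b123 b014 b024 b124 b034 b134 b234 b015 b025 b125 b035 b135 b235 b045 b145 b245 b345 x0 x1 x2 x3 x4 x5 x6 x7 x8 x9 x10 x11 x12 x13 x14 ≤ 5079302142 := by
  unfold SD
  exact dt_le (c10_lt y4 y5 y6 y7 y8 y9 y10 y11 y12 y13) (c10_lt h045 h145 h245 h345 h015 h025 h125 h035 h135 h235) _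

theorem TA_eq {b012 b013 b023 b123 b014 b024 b124 b034 b134 b234 b015 b025 b125 b035 b135 b235 b045 b145 b245 b345 : ℕ} (h012 : Bt b012) (h013 : Bt b013) (h023 : Bt b023) (h123 : Bt b123) (h014 : Bt b014) (h024 : Bt b024) (h124 : Bt b124) (h034 : Bt b034) (h134 : Bt b134) (h234 : Bt b234) (h015 : Bt b015) (h025 : Bt b025) (h125 : Bt b125) (h035 : Bt b035) (h135 : Bt b135) (h235 : Bt b235) (h045 : Bt b045) (h145 : Bt b145) (h245 : Bt b245) (h345 : Bt b345) : TA b012 b013 b023 b123 b014 b024 b124 b034 b134 b234 b015 b025 b125 b035 b135 b235 b045 b145 b245 b345 = enc 40 15 (fun i => SA b012 b013 b023 b123 b014 b024 b124 b034 b134 b234 b015 b025 b125 b035 b135 b235 b045 b145 b245 b345 (bt 0 i) (bt 1 i) (bt 2 i) (bt 3 i) (bt 4 i) (bt 5 i) (bt 6 i) (bt 7 i) (bt 8 i) (bt 9 i) (bt 10 i) (bt 11 i) (bt 12 i) (bt 13 i) (bt 14 i)) := by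
  unfold TA
  rw [T1v_eq (c4_lt h012 h013 h023 h123), V2_eq h012 h013 h023 h123 h014 h024 h124 h034 h134 h234 h015 h025 h125 h035 h135 h235 h045 h145 h245 h345, T2v_eq (fun g _ => lt_of_le_of_lt (SB_le h012 h013 h023 h123 h014 h024 h124 h034 h134 h234 h015 h025 h125 h035 h135 h235 h045 h145 h245 h345 (bt01 _ _) (bt01 _ _) (bt01 _ _) (bt01 _ _) (bt01 _ _) (bt01 _ _)) (by norm_num)), T3v_eq h012 h013 h023 h123 h014 h024 h124 h034 h134 h234 h015 h025 h125 h035 h135 h235 h045 h145 h245 h345]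
  simp only [Nat.add_eq]
  rw [enc_add, show (655360 : ℕ) = 40 * 2 ^ 14 from rfl, enc_rep, enc_add]
  refine enc_congr fun i _ => ?_
  have e1 : i % 2 ^ 14 / 256 = i / 256 % 64 := by show i % 16384 / 256 = i / 256 % 64; omega
  have e2 : i % 2 ^ 14 / 16 % 16 = i / 16 % 16 := by show i % 16384 / 16 % 16 = i / 16 % 16; omega
  have e3 : i % 2 ^ 14 % 16 = i % 16 := by show i % 16384 % 16 = i % 16; omega
  have e4 : ∀ k, k < 6 → bt k (i % 2 ^ 14 / 256) = bt (8 + k) i := by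
    intro k hk
    rw [e1, show (64 : ℕ) = 2 ^ 6 from rfl, bt_mod hk, bt_div]
  unfold S1 SA
  rw [e4 0 (by norm_num), e4 1 (by norm_num), e4 2 (by norm_num), e4 3 (by norm_num), e4 4 (by norm_num), e4 5 (by norm_num)]
  rw [e1, e2, e3, div256, div16, mod16, c10_46, c10_46', c10_46']
  rfl

theorem TD_eq {b012 b013 b023 b123 b014 b024 b124 b034 b134 b234 b015 b025 b125 b035 b135 b235 b045 b145 b245 b345 : ℕ} (h012 : Bt b012) (h013 : Bt b013) (h023 : Bt b023) (h123 : Bt b123) (h014 : Bt b014) (h024 : Bt b024) (h124 : Bt b124) (h034 : Bt b034) (h134 : Bt b134) (h234 : Bt b234) (h015 : Bt b015) (h025 : Bt b025) (h125 : Bt b125) (h035 : Bt b035) (h135 : Bt b135) (h235 : Bt b235) (h045 : Bt b045) (h145 : Bt b145) (h245 : Bt b245) (h345 : Bt b345) : TD b012 b013 b023 b123 b014 b024 b124 b034 b134 b234 b015 b025 b125 b035 b135 b235 b045 b145 b245 b345 = enc 40 15 (fun i => SD b012 b013 b023 b123 b014 b024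 b124 b034 b134 b234 b015 b025 b125 b035 b135 b235 b045 b145 b245 b345 (bt 0 i) (bt 1 i) (bt 2 i) (bt 3 i) (bt 4 i) (bt 5 i) (bt 6 i) (bt 7 i) (bt 8 i) (bt 9 i) (bt 10 i) (bt 11 i) (bt 12 i) (bt 13 i) (bt 14 i)) := by
  unfold TD
  have e5 : Nat.add (c4 b012 b013 b023 b123) (Nat.mul 16 (c6 b014 b024 b124 b034 b134 b234)) = c10 b012 b013 b023 b123 b014 b024 b124 b034 b134 b234 := c10_46 _ _ _ _ _ _ _ _ _ _
  have e6 : Nat.add (c4 b045 b145 b245 b345) (Nat.mul 16 (c6 b015 b025 b125 b035 b135 b235)) = c10 b045 b145 b245 b345 b015 b025 b125 b035 b135 b235 := c10_46 _ _ _ _ _ _ _ _ _ _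
  rw [e5, e6, T4v_eq (c10_lt h012 h013 h023 h123 h014 h024 h124 h034 h134 h234) (c10_lt h045 h145 h245 h345 h015 h025 h125 h035 h135 h235)]
  rw [show (655360 : ℕ) = 40 * 2 ^ 14 from rfl, enc_rep]
  refine enc_congr fun i _ => ?_
  have e1 : i % 2 ^ 14 / 16 = i / 16 % 16 + 16 * (i / 256 % 64) := by show i % 16384 / 16 = i / 16 % 16 + 16 * (i / 256 % 64); omega
  unfold S4 SD
  rw [e1, div16, div256, c10_46]

end

end Pool.Agent.T2H13.A7
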